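import Pool.Agent.DC.CDefs

/-!
# MP_74f563_an, n = 2 autonomous, engine with parameter: definitions for the families

The functions of the family are functions `F : ℂ → ℂ → ℂ → ℂ` of the energy parameter `e`, the angle
`θ` and the parameter `t`; for fixed `e` the operators of `NOne/KDefs` act on `F e : ℂ → ℂ → ℂ`.
The domain of `e` is `UU d = {|Re e| < 1/4 + d, |Im e| < d}` (the same set as for `t`).
-/

set_option autoImplicit false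

namespace Pool.Agent.DC

open Pool.Agent.NOne Complex Set MeasureTheory
open scoped ComplexConjugate

/-- the domain of the Lagrangians -/
def DL (σ ρ : ℝ) : Set (ℂ × ℂ) := {q | |q.1.im| < σ ∧ ‖q.2‖ < ρ}

/-- `F` is holomorphic in `(e, θ, t)` on `V × Om δ s` -/
def HE (V : Set ℂ) (δ s : ℝ) (F : ℂ → ℂ → ℂ → ℂ) : Prop :=
  DifferentiableOn ℂ (fun q : ℂ × ℂ × ℂ => F q.1 q.2.1 q.2.2) (V ×ˢ Om δ s)

/-- `g` is holomorphic in `(e, t)` on `V × UU s` -/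
def HT (V : Set ℂ) (s : ℝ) (g : ℂ → ℂ → ℂ) : Prop :=
  DifferentiableOn ℂ (fun q : ℂ × ℂ => g q.1 q.2) (V ×ˢ UU s)

/-- `G` is holomorphic in `(e, x, η)` on `V × DL σ ρ` -/
def HG (V : Set ℂ) (σ ρ : ℝ) (G : ℂ → ℂ → ℂ → ℂ) : Prop :=
  DifferentiableOn ℂ (fun q : ℂ × ℂ × ℂ => G q.1 q.2.1 q.2.2) (V ×ˢ DL σ ρ)

/-- the reflection of a function -/
noncomputable def rf (F : ℂ → ℂ → ℂ) : ℂ → ℂ → ℂ := fun θ t => conj (F (conj θ) (conj t))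

/-- the family `F` is real at real points -/
def RS (F : ℂ → ℂ → ℂ → ℂ) : Prop := ∀ e, F (conj e) = rf (F e)

/-- a family of approximate solutions, holomorphic in the parameter `e ∈ V` -/
structure FD (V : Set ℂ) (σ M r b δ s ε : ℝ) (lam X : ℂ → ℂ → ℂ → ℂ) : Prop where
  lc : ∀ e ∈ V, LC σ M r (lam e)
  sc : ∀ e ∈ V, SC r (lam e) (X e) b δ s
  err : ∀ e ∈ V, Bd δ s ε (Er r (lam e) (X e))
  lamH : HG V σ 5 lam
  XH : HE V (2 * δ) (2 * s) X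
  lamR : RS lam
  XR : RS X

/-- the assumptions on the family `B` -/
structure BE (σ ρ M : ℝ) (B : ℂ → ℂ → ℂ → ℂ) : Prop where
  σ_pos : 0 < σ
  ρ_pos : 0 < ρ
  hol : HG (UU (1 / 8)) σ ρ B
  bd : ∀ e ∈ UU (1 / 8), ∀ x w : ℂ, |x.im| < σ → ‖w‖ < ρ → ‖B e x w‖ ≤ M
  one : ∀ e ∈ UU (1 / 8), ∀ x : ℂ, |x.im| < σ → B e x 0 = 1
  per : ∀ e, Per (B e)
  real : RS B

/-- a sequence of families of approximate solutions -/
structure ESeq (r σ M : ℝ) (B : ℂ → ℂ → ℂ → ℂ) (X : ℕ → ℂ → ℂ → ℂ → ℂ) (b δ s ε c d : ℕ → ℝ) :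
    Prop where
  zero : X 0 = fun _ θ _ => θ
  par : ∀ n, Par σ M r (b n) (δ n) (s n)
  d_pos : ∀ n, 0 < d n
  fd : ∀ n, FD (UU (d n)) σ M r (b n) (δ n) (s n) (ε n) (fun e => lB r (B e)) (X n)
  hol : ∀ n, HE (UU (d (n + 1))) (2 * δ (n + 1)) (2 * s (n + 1))
    fun e θ t => X (n + 1) e θ t - X n e θ t
  bd : ∀ n, ∀ e ∈ UU (d (n + 1)), Bd (2 * δ (n + 1)) (2 * s (n + 1)) (c n)
    fun θ t => X (n + 1) e θ t - X n e θ t
  jac : ∀ n, ∀ e ∈ UU (d (n + 1)), ∀ θ t : ℝ, |t| ≤ 1 / 4 →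
    ‖Jf r (lB r (B e)) (X n e) θ t - ta r (lB r (B e)) (X n e) t‖ ≤ c n
  c_nonneg : ∀ n, 0 ≤ c n
  sum : ∀ k : ℕ, Summable fun n =>
    c n / min (d (n + 1)) (min (2 * δ (n + 1)) (2 * s (n + 1))) ^ k
  lim : Filter.Tendsto ε Filter.atTop (nhds 0)

end Pool.Agent.DC
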