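import Pool.Agent.DC.EBas
import Pool.Agent.NOne.KCau
import Pool.Agent.NOne.KSmo

/-!
# MP_74f563_an, n = 2, engine with parameter, file ESmo: rapidly convergent series of holomorphic
functions of three variables on shrinking domains are smooth at the real points

PROOF of `smooth_sum3`.  As `smooth_sum` in `NOne/KSmo.lean` with one more variable.  Let
`V = {z : ℝ × ℝ × ℝ | |z.1| < 1/4 ∧ |z.2.2| < 1/4}`, open and convex.  A family `(f, d, c)` is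
called good if
`0 < d n`, `0 ≤ c n`, `HE (UU (d n)) (d n) (d n) (f n)`, `f n` bounded there by `c n`, and
`∑ c n / (d n)^k < ∞` for all `k`.  If `(f, d, c)` is good then so are the three families of the
first derivatives in `e`, `θ`, `t`, with `d/2`, `2c/d` (`HE.hp1`, `HE.hp2`, and the same for the
derivative in `e`:
`p0 F e θ t = deriv (fun z => F z θ t) e`, jointly holomorphic by the argument of `HE.hp1`; the
bounds by
Cauchy's estimate on a disk of radius `d/2` (`Bd.cauchy1`, `Bd.cauchy2` at fixed `e`; `cauchy_UU` in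
`NOne/KCau` in the variable `e`)).
Real points of `V` are in every domain.  The real function `F_n(z) = f n z.1 z.2.1 z.2.2` has the
derivative
`A_n(z) = p0 · fst + p1 · fst∘snd + p2 · snd∘snd`, `‖A_n(z)‖ ≤ 6 c n / d n`, summable; by
`hasFDerivAt_tsum_of_isPreconnected` the sum has on `V` the derivative `∑' A_n`.  Induction on `k`:
the
sum of every good family is `C^k` on `V`.
-/

set_option autoImplicit false

namespace Pool.Agent.DC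

open Pool.Agent.NOne Complex Set MeasureTheory
open scoped ContDiff ComplexConjugate

/-- exchange of the first and the last variable -/
private def esw (F : ℂ → ℂ → ℂ → ℂ) : ℂ → ℂ → ℂ → ℂ := fun e θ t => F t θ e

private theorem esw_HE {d : ℝ} {F : ℂ → ℂ → ℂ → ℂ} (h : HE (UU d) d d F) :
    HE (UU d) d d (esw F) := by
  have h1 : DifferentiableOn ℂ (fun q : ℂ × ℂ × ℂ => (q.2.2, q.2.1, q.1))
      (UU d ×ˢ Om d d) := by
    apply Differentiable.differentiableOn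
    fun_prop
  exact DifferentiableOn.comp (g := fun q : ℂ × ℂ × ℂ => F q.1 q.2.1 q.2.2) h h1
    fun q hq => ⟨hq.2.2, hq.2.1, hq.1⟩

private structure Gd (f : ℕ → ℂ → ℂ → ℂ → ℂ) (d e : ℕ → ℝ) : Prop where
  hd : ∀ n, 0 < d n
  he : ∀ n, 0 ≤ e n
  hf : ∀ n, HE (UU (d n)) (d n) (d n) (f n)
  hb : ∀ n, ∀ x ∈ UU (d n), Bd (d n) (d n) (e n) (f n x)
  hs : ∀ k : ℕ, Summable fun n => e n / d n ^ k

private theorem Gd.sw {f : ℕ → ℂ → ℂ → ℂ → ℂ} {d e : ℕ → ℝ} (h : Gd f d e) :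
    Gd (fun n => esw (f n)) d e :=
  ⟨h.hd, h.he, fun n => esw_HE (h.hf n), fun n x hx θ t hθ ht => h.hb n t ht θ x hθ hx, h.hs⟩

private theorem Gd.sumr {f : ℕ → ℂ → ℂ → ℂ → ℂ} {d e : ℕ → ℝ} (h : Gd f d e) (k : ℕ) :
    Summable fun n => 2 * e n / d n / (d n / 2) ^ k := by
  refine ((h.hs (k + 1)).mul_left (2 ^ (k + 1))).congr fun n => ?_
  have h2 := (h.hd n).ne'
  rw [div_pow, pow_succ, pow_succ]
  field_simp

private theorem Gd.P1 {f : ℕ → ℂ → ℂ → ℂ → ℂ} {d e : ℕ → ℝ} (h : Gd f d e) :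
    Gd (fun n x => p1 (f n x)) (fun n => d n / 2) (fun n => 2 * e n / d n) := by
  refine ⟨fun n => half_pos (h.hd n), fun n => ?_, fun n => ?_, fun n x hx => ?_, h.sumr⟩
  · have h1 := h.hd n
    have h2 := h.he n
    positivity
  · exact ((h.hf n).hp1 (isOpen_UU _)).mono (UU_mono (half_le_self (h.hd n).le))
      (half_le_self (h.hd n).le) (half_le_self (h.hd n).le)
  · have hx' := UU_mono (half_le_self (h.hd n).le) hx
    have h1 := (h.hb n x hx').cauchy1 ((h.hf n).slice hx') (half_lt_self (h.hd n))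
    refine h1.mono le_rfl (half_le_self (h.hd n).le) (le_of_eq ?_)
    have h2 := (h.hd n).ne'
    rw [sub_half]
    field_simp

private theorem Gd.P2 {f : ℕ → ℂ → ℂ → ℂ → ℂ} {d e : ℕ → ℝ} (h : Gd f d e) :
    Gd (fun n x => p2 (f n x)) (fun n => d n / 2) (fun n => 2 * e n / d n) := by
  refine ⟨fun n => half_pos (h.hd n), fun n => ?_, fun n => ?_, fun n x hx => ?_, h.sumr⟩
  · have h1 := h.hd n
    have h2 := h.he n
    positivity
  · exact ((h.hf n).hp2 (isOpen_UU _)).mono (UU_mono (half_le_self (h.hd n).le))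
      (half_le_self (h.hd n).le) (half_le_self (h.hd n).le)
  · have hx' := UU_mono (half_le_self (h.hd n).le) hx
    have h1 := (h.hb n x hx').cauchy2 ((h.hf n).slice hx') (half_lt_self (h.hd n))
    refine h1.mono (half_le_self (h.hd n).le) le_rfl (le_of_eq ?_)
    have h2 := (h.hd n).ne'
    rw [sub_half]
    field_simp

/-- the derivative in the first variable -/
private noncomputable def q0 (F : ℂ → ℂ → ℂ → ℂ) : ℂ → ℂ → ℂ → ℂ :=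
  esw (fun x => p2 (esw F x))

private theorem Gd.P0 {f : ℕ → ℂ → ℂ → ℂ → ℂ} {d e : ℕ → ℝ} (h : Gd f d e) :
    Gd (fun n => q0 (f n)) (fun n => d n / 2) (fun n => 2 * e n / d n) :=
  h.sw.P2.sw

private theorem real_mem3 {d x t : ℝ} (θ : ℝ) (hd : 0 < d) (hx : |x| < 1 / 4)
    (ht : |t| < 1 / 4) : (x : ℂ) ∈ UU d ∧ |(θ : ℂ).im| < d ∧ (t : ℂ) ∈ UU d := by
  refine ⟨ofReal_mem_UU hd (by linarith), ?_, ofReal_mem_UU hd (by linarith)⟩
  rw [ofReal_im, abs_zero]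
  exact hd

private theorem Gd.norm_le {f : ℕ → ℂ → ℂ → ℂ → ℂ} {d e : ℕ → ℝ} (h : Gd f d e) {x : ℝ} (θ : ℝ)
    {t : ℝ} (hx : |x| < 1 / 4) (ht : |t| < 1 / 4) (n : ℕ) : ‖f n x θ t‖ ≤ e n := by
  obtain ⟨h1, h2, h3⟩ := real_mem3 θ (h.hd n) hx ht
  exact h.hb n _ h1 _ _ h2 h3

private theorem Gd.summable {f : ℕ → ℂ → ℂ → ℂ → ℂ} {d e : ℕ → ℝ} (h : Gd f d e) {x : ℝ}
    (θ : ℝ) {t : ℝ} (hx : |x| < 1 / 4) (ht : |t| < 1 / 4) : Summable fun n => f n x θ t := by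
  refine Summable.of_norm_bounded (g := e) ?_ (h.norm_le θ hx ht)
  simpa using h.hs 0

private noncomputable def N0 : ℂ →L[ℝ] (ℝ × ℝ × ℝ →L[ℝ] ℂ) :=
  ContinuousLinearMap.smulRightL ℝ (ℝ × ℝ × ℝ) ℂ (ContinuousLinearMap.fst ℝ ℝ (ℝ × ℝ))

private noncomputable def N1 : ℂ →L[ℝ] (ℝ × ℝ × ℝ →L[ℝ] ℂ) :=
  ContinuousLinearMap.smulRightL ℝ (ℝ × ℝ × ℝ) ℂ
    ((ContinuousLinearMap.fst ℝ ℝ ℝ).comp (ContinuousLinearMap.snd ℝ ℝ (ℝ × ℝ)))

private noncomputable def N2 : ℂ →L[ℝ] (ℝ × ℝ × ℝ →L[ℝ] ℂ) :=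
  ContinuousLinearMap.smulRightL ℝ (ℝ × ℝ × ℝ) ℂ
    ((ContinuousLinearMap.snd ℝ ℝ ℝ).comp (ContinuousLinearMap.snd ℝ ℝ (ℝ × ℝ)))

private theorem N_apply (a b c : ℂ) (z : ℝ × ℝ × ℝ) :
    (N0 a + N1 b + N2 c) z = (z.1 : ℂ) * a + (z.2.1 : ℂ) * b + (z.2.2 : ℂ) * c := by
  simp [N0, N1, N2, ContinuousLinearMap.smulRightL, ContinuousLinearMap.smulRight_apply]

private def V3 : Set (ℝ × ℝ × ℝ) := {z | |z.1| < 1 / 4 ∧ |z.2.2| < 1 / 4}

private theorem isOpen_V3 : IsOpen V3 :=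
  (isOpen_lt continuous_fst.abs continuous_const).inter
    (isOpen_lt (continuous_snd.comp continuous_snd).abs continuous_const)

private theorem convex_V3 : Convex ℝ V3 := by
  intro x hx y hy a b ha hb hab
  have h1 := convex_Ioo (-(1 / 4 : ℝ)) (1 / 4) (abs_lt.1 hx.1) (abs_lt.1 hy.1) ha hb hab
  have h2 := convex_Ioo (-(1 / 4 : ℝ)) (1 / 4) (abs_lt.1 hx.2) (abs_lt.1 hy.2) ha hb hab
  change |(a • x + b • y).1| < 1 / 4 ∧ |(a • x + b • y).2.2| < 1 / 4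
  rw [abs_lt, abs_lt]
  exact ⟨by simpa using h1, by simpa using h2⟩

private theorem esmo_fd {F : ℂ → ℂ → ℂ → ℂ} {q : ℂ × ℂ × ℂ}
    (h : DifferentiableAt ℂ (fun q : ℂ × ℂ × ℂ => F q.1 q.2.1 q.2.2) q) (w : ℂ × ℂ × ℂ) :
    fderiv ℂ (fun q : ℂ × ℂ × ℂ => F q.1 q.2.1 q.2.2) q w =
      w.1 * q0 F q.1 q.2.1 q.2.2 + w.2.1 * p1 (F q.1) q.2.1 q.2.2 +
        w.2.2 * p2 (F q.1) q.2.1 q.2.2 := by
  have e0 : q0 F q.1 q.2.1 q.2.2 =
      fderiv ℂ (fun q : ℂ × ℂ × ℂ => F q.1 q.2.1 q.2.2) q (1, 0, 0) := by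
    have h1 : HasDerivAt (fun z : ℂ => (z, q.2.1, q.2.2)) ((1 : ℂ), (0 : ℂ), (0 : ℂ)) q.1 :=
      (hasDerivAt_id q.1).prodMk
        ((hasDerivAt_const q.1 q.2.1).prodMk (hasDerivAt_const q.1 q.2.2))
    exact (HasFDerivAt.comp_hasDerivAt (f := fun z : ℂ => (z, q.2.1, q.2.2)) q.1
      h.hasFDerivAt h1).deriv
  have e1 : p1 (F q.1) q.2.1 q.2.2 =
      fderiv ℂ (fun q : ℂ × ℂ × ℂ => F q.1 q.2.1 q.2.2) q (0, 1, 0) := by
    have h1 : HasDerivAt (fun z : ℂ => (q.1, z, q.2.2)) ((0 : ℂ), (1 : ℂ), (0 : ℂ)) q.2.1 :=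
      (hasDerivAt_const q.2.1 q.1).prodMk
        ((hasDerivAt_id q.2.1).prodMk (hasDerivAt_const q.2.1 q.2.2))
    exact (HasFDerivAt.comp_hasDerivAt (f := fun z : ℂ => (q.1, z, q.2.2)) q.2.1
      h.hasFDerivAt h1).deriv
  have e2 : p2 (F q.1) q.2.1 q.2.2 =
      fderiv ℂ (fun q : ℂ × ℂ × ℂ => F q.1 q.2.1 q.2.2) q (0, 0, 1) := by
    have h1 : HasDerivAt (fun z : ℂ => (q.1, q.2.1, z)) ((0 : ℂ), (0 : ℂ), (1 : ℂ)) q.2.2 :=
      (hasDerivAt_const q.2.2 q.1).prodMk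
        ((hasDerivAt_const q.2.2 q.2.1).prodMk (hasDerivAt_id q.2.2))
    exact (HasFDerivAt.comp_hasDerivAt (f := fun z : ℂ => (q.1, q.2.1, z)) q.2.2
      h.hasFDerivAt h1).deriv
  rw [e0, e1, e2]
  have h4 : w = w.1 • ((1 : ℂ), (0 : ℂ), (0 : ℂ)) + w.2.1 • ((0 : ℂ), (1 : ℂ), (0 : ℂ)) +
      w.2.2 • ((0 : ℂ), (0 : ℂ), (1 : ℂ)) := by
    ext <;> simp
  conv_lhs => rw [h4, map_add, map_add, map_smul, map_smul, map_smul]
  simp only [smul_eq_mul]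

private theorem real_deriv3 {δ : ℝ} {F : ℂ → ℂ → ℂ → ℂ} (hF : HE (UU δ) δ δ F) (hd : 0 < δ)
    {z : ℝ × ℝ × ℝ} (hz : z ∈ V3) :
    HasFDerivAt (fun z : ℝ × ℝ × ℝ => F z.1 z.2.1 z.2.2)
      (N0 (q0 F z.1 z.2.1 z.2.2) + N1 (p1 (F z.1) z.2.1 z.2.2) + N2 (p2 (F z.1) z.2.1 z.2.2))
      z := by
  obtain ⟨h0, h1, h2⟩ := real_mem3 z.2.1 hd hz.1 hz.2
  have hq : ((z.1 : ℂ), (z.2.1 : ℂ), (z.2.2 : ℂ)) ∈ UU δ ×ˢ Om δ δ := ⟨h0, h1, h2⟩
  have ho : IsOpen (UU δ ×ˢ Om δ δ) := (isOpen_UU δ).prod (isOpen_Om δ δ)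
  have hdf := (hF _ hq).differentiableAt (ho.mem_nhds hq)
  have h3 := hdf.hasFDerivAt.restrictScalars ℝ
  have h4 : HasFDerivAt (fun z : ℝ × ℝ × ℝ => ((z.1 : ℂ), (z.2.1 : ℂ), (z.2.2 : ℂ)))
      (ofRealCLM.prodMap (ofRealCLM.prodMap ofRealCLM) : ℝ × ℝ × ℝ →L[ℝ] ℂ × ℂ × ℂ) z :=
    (ofRealCLM.prodMap (ofRealCLM.prodMap ofRealCLM) :
      ℝ × ℝ × ℝ →L[ℝ] ℂ × ℂ × ℂ).hasFDerivAt
  have h5 := HasFDerivAt.comp z (g := fun q : ℂ × ℂ × ℂ => F q.1 q.2.1 q.2.2) h3 h4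
  refine h5.congr_fderiv ?_
  refine ContinuousLinearMap.ext fun w => ?_
  rw [N_apply]
  exact esmo_fd hdf ((w.1 : ℂ), (w.2.1 : ℂ), (w.2.2 : ℂ))

private theorem Gd.der {f : ℕ → ℂ → ℂ → ℂ → ℂ} {d e : ℕ → ℝ} (h : Gd f d e) {z : ℝ × ℝ × ℝ}
    (hz : z ∈ V3) :
    HasFDerivAt (fun z : ℝ × ℝ × ℝ => ∑' n, f n z.1 z.2.1 z.2.2)
      (N0 (∑' n, q0 (f n) z.1 z.2.1 z.2.2) + N1 (∑' n, p1 (f n z.1) z.2.1 z.2.2) +
        N2 (∑' n, p2 (f n z.1) z.2.1 z.2.2)) z := by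
  have hu : Summable fun n => ‖N0‖ * (2 * e n / d n) + ‖N1‖ * (2 * e n / d n) +
      ‖N2‖ * (2 * e n / d n) := by
    have h1 : Summable fun n => 2 * e n / d n := by simpa using h.sumr 0
    exact ((h1.mul_left _).add (h1.mul_left _)).add (h1.mul_left _)
  have h0 : (0 : ℝ × ℝ × ℝ) ∈ V3 := by simp [V3]
  have s0 := h.P0.summable z.2.1 hz.1 hz.2
  have s1 := h.P1.summable z.2.1 hz.1 hz.2
  have s2 := h.P2.summable z.2.1 hz.1 hz.2
  have h1 := hasFDerivAt_tsum_of_isPreconnected (𝕜 := ℝ)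
    (f := fun n (z : ℝ × ℝ × ℝ) => f n z.1 z.2.1 z.2.2)
    (f' := fun n z => N0 (q0 (f n) z.1 z.2.1 z.2.2) + N1 (p1 (f n z.1) z.2.1 z.2.2) +
      N2 (p2 (f n z.1) z.2.1 z.2.2)) hu isOpen_V3
    convex_V3.isPreconnected (fun n x hx => real_deriv3 (h.hf n) (h.hd n) hx)
    (fun n x hx => ?_) h0 (h.summable 0 h0.1 h0.2) hz
  · refine h1.congr_fderiv ?_
    rw [Summable.tsum_add, Summable.tsum_add, N0.map_tsum s0, N1.map_tsum s1, N2.map_tsum s2]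
    · exact N0.summable s0
    · exact N1.summable s1
    · exact (N0.summable s0).add (N1.summable s1)
    · exact N2.summable s2
  · refine (norm_add_le _ _).trans (add_le_add ((norm_add_le _ _).trans (add_le_add ?_ ?_)) ?_)
    · exact (N0.le_opNorm _).trans
        (mul_le_mul_of_nonneg_left (h.P0.norm_le x.2.1 hx.1 hx.2 n) (norm_nonneg _))
    · exact (N1.le_opNorm _).trans
        (mul_le_mul_of_nonneg_left (h.P1.norm_le x.2.1 hx.1 hx.2 n) (norm_nonneg _))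
    · exact (N2.le_opNorm _).trans
        (mul_le_mul_of_nonneg_left (h.P2.norm_le x.2.1 hx.1 hx.2 n) (norm_nonneg _))

private theorem Gd.smooth (k : ℕ) : ∀ {f : ℕ → ℂ → ℂ → ℂ → ℂ} {d e : ℕ → ℝ}, Gd f d e →
    ContDiffOn ℝ k (fun z : ℝ × ℝ × ℝ => ∑' n, f n z.1 z.2.1 z.2.2) V3 := by
  induction k with
  | zero =>
    intro f d e h
    exact contDiffOn_zero.2 fun z hz => (h.der hz).continuousAt.continuousWithinAt
  | succ k ih =>
    intro f d e h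
    have h1 : ((k + 1 : ℕ) : WithTop ℕ∞) = (k : WithTop ℕ∞) + 1 := by norm_cast
    rw [h1, contDiffOn_succ_iff_hasFDerivWithinAt_of_uniqueDiffOn isOpen_V3.uniqueDiffOn]
    refine ⟨fun h2 => ?_, fun z => N0 (∑' n, q0 (f n) z.1 z.2.1 z.2.2) +
      N1 (∑' n, p1 (f n z.1) z.2.1 z.2.2) + N2 (∑' n, p2 (f n z.1) z.2.1 z.2.2),
      ?_, fun x hx => (h.der hx).hasFDerivWithinAt⟩
    · exact absurd h2 (by simp)
    · exact ((N0.contDiff.comp_contDiffOn (ih h.P0)).add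
        (N1.contDiff.comp_contDiffOn (ih h.P1))).add (N2.contDiff.comp_contDiffOn (ih h.P2))

theorem smooth_sum3 {f : ℕ → ℂ → ℂ → ℂ → ℂ} {d c : ℕ → ℝ} (hd : ∀ n, 0 < d n)
    (hc : ∀ n, 0 ≤ c n) (hf : ∀ n, HE (UU (d n)) (d n) (d n) (f n))
    (hb : ∀ n, ∀ e ∈ UU (d n), Bd (d n) (d n) (c n) (f n e))
    (hs : ∀ k : ℕ, Summable fun n => c n / d n ^ k) :
    ContDiffOn ℝ ∞ (fun z : ℝ × ℝ × ℝ => ∑' n, f n z.1 z.2.1 z.2.2)
      {z | |z.1| < 1 / 4 ∧ |z.2.2| < 1 / 4} := by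
  have h : Gd f d c := ⟨hd, hc, hf, hb, hs⟩
  exact contDiffOn_infty.2 fun k => h.smooth k

end Pool.Agent.DC
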