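import Pool.Agent.DC.EIt
import Pool.Agent.DC.ESmo
import Pool.Agent.NOne.KMain

/-!
# MP_74f563_an, n = 2, engine with parameter, file EMain: Theorem C with a parameter

`ESeq.nseq`.  PROOF.  For real `e`, `|e| < 1/4`, `(e : ℂ) ∈ UU (d n)` for all `n`
(`ofReal_mem_UU`).  `B e`,
`lB r (B e)`, `X n e` are real (`RS` at a real point, `rsym_iff_rf`), so `LC.to_LD`, `SC.to_St`. 
The
fields of `NSeq` are those of `ESeq` at `e` (`HE.slice` for `hol`); `sum`: comparison, since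
`min (2δ) (2s) ≥ min d (min (2δ) (2s)) > 0` (`Summable.of_nonneg_of_le`,
`div_le_div_of_nonneg_left`,
`pow_le_pow_left`).

`theoremCE`.  PROOF.  `exists_ESeq`.  Fix `r`.  For `|e| < 1/4`: `ESeq.nseq`, `exists_limit`
(`NOne/KLim`) gives
`x`, `x₁`, `x₂` with `NLim`, and the proof of `theoremC` (`NOne/KMain.lean`) gives
`LeafC (B e) ρ r x`
(factor it out as a private lemma `leaf_of_NSeq`); `lim0` identifies `x θ t` as the limit of
`X n e θ t` for `|t| < 1/4`.  Define `x e := ` this function for `|e| < 1/4` (choice).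
Joint smoothness: `X n e θ t = θ + ∑_{j<n} (X (j+1) e θ t - X j e θ t)` (`ESeq.zero`), so
`x e θ t = θ + Re ∑' n, (X (n+1) e θ t - X n e θ t)` for `|e| < 1/4`, `|t| < 1/4` (the series
converges by
`ESeq.bd`, `sum`; `HasSum.tendsto_sum_nat`, uniqueness of limits), and `smooth_sum3` applies with
`f n e θ t = X (n+1) e θ t - X n e θ t`, `d n := min (d (n+1)) (min (2 δ (n+1)) (2 s (n+1)))`,
`c n`.
`ContDiffOn.congr`.
-/

set_option autoImplicit false

namespace Pool.Agent.DC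

open Pool.Agent.NOne Complex Set MeasureTheory
open scoped ContDiff ComplexConjugate

private theorem em_rsym {F : ℂ → ℂ → ℂ → ℂ} (hF : RS F) (e : ℝ) : RSym (F e) := by
  intro θ t
  have h1 := congrFun (congrFun (hF (e : ℂ)) (conj θ)) (conj t)
  rw [conj_ofReal] at h1
  rw [h1]
  unfold rf
  rw [conj_conj, conj_conj]

theorem ESeq.nseq {σ ρ M σ' M' r : ℝ} {B : ℂ → ℂ → ℂ → ℂ} {X : ℕ → ℂ → ℂ → ℂ → ℂ}
    {b δ s ε c d : ℕ → ℝ} (hB : BE σ ρ M B) (h : ESeq r σ' M' B X b δ s ε c d) {e : ℝ}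
    (he : |e| < 1 / 4) :
    LD σ' M' r (lB r (B e)) ∧ NSeq r σ' M' (lB r (B e)) (fun n => X n e) b δ s ε c := by
  have _ := hB
  have hU : ∀ n, (e : ℂ) ∈ UU (d n) := fun n => by
    have h1 := h.d_pos n
    exact ofReal_mem_UU h1 (by linarith)
  have hlR : RSym (lB r (B e)) := em_rsym (F := fun e => lB r (B e)) (h.fd 0).lamR e
  refine ⟨((h.fd 0).lc e (hU 0)).to_LD hlR, ?_⟩
  refine
    { zero := congrFun h.zero (e : ℂ)
      par := h.par
      st := fun n => ((h.fd n).sc e (hU n)).to_St (em_rsym (h.fd n).XR e)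
      err := fun n => (h.fd n).err e (hU n)
      hol := fun n => (h.hol n).slice (hU (n + 1))
      bd := fun n => h.bd n e (hU (n + 1))
      jac := fun n θ t ht => h.jac n e (hU (n + 1)) θ t ht
      e_nonneg := h.c_nonneg
      sum := fun k => ?_
      lim := h.lim }
  refine Summable.of_nonneg_of_le (fun n => ?_) (fun n => ?_) (h.sum k)
  · have h1 := (h.par (n + 1)).δ_pos
    have h2 := (h.par (n + 1)).s_pos
    have h3 : 0 < min (2 * δ (n + 1)) (2 * s (n + 1)) := lt_min (by linarith) (by linarith)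
    exact div_nonneg (h.c_nonneg n) (pow_nonneg h3.le k)
  · have h0 := h.d_pos (n + 1)
    have h1 := (h.par (n + 1)).δ_pos
    have h2 := (h.par (n + 1)).s_pos
    have h3 : 0 < min (2 * δ (n + 1)) (2 * s (n + 1)) := lt_min (by linarith) (by linarith)
    have h4 : 0 < min (d (n + 1)) (min (2 * δ (n + 1)) (2 * s (n + 1))) := lt_min h0 h3
    exact div_le_div_of_nonneg_left (h.c_nonneg n) (pow_pos h4 k)
      (pow_le_pow_left₀ h4.le (min_le_right _ _) k)

/-- the proof of Theorem C -/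
private theorem em_leaf {σ ρ M σ' M' r : ℝ} {B : ℂ → ℂ → ℂ} {X : ℕ → ℂ → ℂ → ℂ}
    {b δ s ε c : ℕ → ℝ} {x x₁ x₂ : ℝ → ℝ → ℝ} (hB : BD σ ρ M B) (hl : LD σ' M' r (lB r B))
    (hN : NSeq r σ' M' (lB r B) X b δ s ε c) (hx : NLim X x x₁ x₂) (hr : 0 < r)
    (hr8 : 8 * r ≤ ρ) : LeafC B ρ r x := by
  refine ⟨hx.smooth, hx.per, ?_, ?_, fun θ t ht => el_limit hB hl hN hx hr8 ht,
    fun θ t ht => twist_limit hB hl hN hx hr8 ht⟩
  · intro θ t ht
    rw [(hx.der1 θ t ht).deriv]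
    have := hx.low θ t ht
    linarith
  · intro θ t ht
    have ht' := abs_lt.mp ht
    have hρ0 : 0 < r * (1 + t) := mul_pos hr (by linarith [ht'.1])
    have hρ1 : r * (1 + t) < 5 / 4 * r := by nlinarith [ht'.2]
    have hab : θ < θ + r * (1 + t) := by linarith
    obtain ⟨c, -, hc⟩ := exists_hasDerivAt_eq_slope (fun z => x z t) (fun z => x₁ z t) hab
      (fun z _ => (hx.der1 z t ht).continuousAt.continuousWithinAt)
      (fun z _ => hx.der1 z t ht)
    have h1 := hx.low c t ht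
    have h2 := hx.up c t ht
    have h3 : x (θ + r * (1 + t)) t - x θ t = x₁ c t * (r * (1 + t)) := by
      have h4 : θ + r * (1 + t) - θ = r * (1 + t) := by ring
      rw [hc, h4, div_mul_cancel₀ _ hρ0.ne']
    rw [h3]
    constructor
    · exact mul_pos (by linarith) hρ0
    · have h4 : x₁ c t * (r * (1 + t)) ≤ 9 / 8 * (r * (1 + t)) :=
        mul_le_mul_of_nonneg_right h2 hρ0.le
      nlinarith

/-- Theorem C with a parameter -/
theorem theoremCE {σ ρ M : ℝ} {B : ℂ → ℂ → ℂ → ℂ} (hB : BE σ ρ M B)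
    (h0 : ∀ c > 0, c < ρ → ∃ κ > 0, ∀ e : ℝ, |e| < 3 / 8 → HZ (gS (B e)) c κ) :
    ∃ r₀ > (0 : ℝ), ∀ r : ℝ, 0 < r → r < r₀ → ∃ x : ℝ → ℝ → ℝ → ℝ,
      ContDiffOn ℝ ∞ (fun z : ℝ × ℝ × ℝ => x z.1 z.2.1 z.2.2)
        {z | |z.1| < 1 / 4 ∧ |z.2.2| < 1 / 4} ∧
      ∀ e : ℝ, |e| < 1 / 4 → LeafC (B e) ρ r (x e) := by
  classical
  obtain ⟨σ', M', r₀, hr₀, h8, H⟩ := exists_ESeq hB h0
  refine ⟨r₀, hr₀, fun r hr hrr => ?_⟩
  obtain ⟨X, b, δ, s, ε, c, d, hS⟩ := H r hr hrr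
  have hr8 : 8 * r ≤ ρ := by linarith
  have hex : ∀ e : ℝ, |e| < 1 / 4 → ∃ x x₁ x₂ : ℝ → ℝ → ℝ, NLim (fun n => X n e) x x₁ x₂ :=
    fun e he => exists_limit (hS.nseq hB he).2
  obtain ⟨x, hx⟩ : ∃ x : ℝ → ℝ → ℝ → ℝ, ∀ e : ℝ, |e| < 1 / 4 →
      ∃ x₁ x₂ : ℝ → ℝ → ℝ, NLim (fun n => X n e) (x e) x₁ x₂ := by
    choose x hx using fun e : {e : ℝ // |e| < 1 / 4} => hex e.1 e.2
    refine ⟨fun e => if h : |e| < 1 / 4 then x ⟨e, h⟩ else fun _ _ => 0, fun e he => ?_⟩
    have h1 := hx ⟨e, he⟩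
    simpa only [dif_pos he] using h1
  refine ⟨x, ?_, fun e he => ?_⟩
  · -- joint smoothness
    set dd : ℕ → ℝ := fun n => min (d (n + 1)) (min (2 * δ (n + 1)) (2 * s (n + 1))) with hdd
    set F : ℕ → ℂ → ℂ → ℂ → ℂ := fun n e θ t => X (n + 1) e θ t - X n e θ t with hFd
    have hdd0 : ∀ n, 0 < dd n := fun n => by
      have h1 := hS.d_pos (n + 1)
      have h2 := (hS.par (n + 1)).δ_pos
      have h3 := (hS.par (n + 1)).s_pos
      exact lt_min h1 (lt_min (by linarith) (by linarith))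
    have hUU : ∀ n, UU (dd n) ⊆ UU (d (n + 1)) := fun n => UU_mono (min_le_left _ _)
    have h1 : ∀ n, dd n ≤ 2 * δ (n + 1) := fun n => (min_le_right _ _).trans (min_le_left _ _)
    have h2 : ∀ n, dd n ≤ 2 * s (n + 1) := fun n => (min_le_right _ _).trans (min_le_right _ _)
    have hsm := smooth_sum3 (f := F) (d := dd) (c := c) hdd0 hS.c_nonneg
      (fun n => (hS.hol n).mono (hUU n) (h1 n) (h2 n))
      (fun n e he => (hS.bd n e (hUU n he)).mono (h1 n) (h2 n) le_rfl) hS.sum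
    have hre : ContDiffOn ℝ ∞ (fun z : ℝ × ℝ × ℝ =>
        z.2.1 + (∑' n, F n z.1 z.2.1 z.2.2).re) {z | |z.1| < 1 / 4 ∧ |z.2.2| < 1 / 4} := by
      refine ContDiffOn.add contDiff_snd.fst.contDiffOn ?_
      exact Complex.reCLM.contDiff.comp_contDiffOn hsm
    refine hre.congr ?_
    rintro ⟨e, θ, t⟩ ⟨he, ht⟩
    have he' : |e| < 1 / 4 := he
    have ht' : |t| < 1 / 4 := ht
    change x e θ t = θ + (∑' n, F n e θ t).re
    obtain ⟨x₁, x₂, hx'⟩ := hx e he'
    have hl0 := hx'.lim0 θ t ht'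
    -- the series converges
    have hbd : ∀ n, ‖F n e θ t‖ ≤ c n := fun n => by
      refine hS.bd n e (ofReal_mem_UU (hS.d_pos _) (by have := hS.d_pos (n + 1); linarith)) θ t
        ?_ ?_
      · rw [ofReal_im, abs_zero]
        have := (hS.par (n + 1)).δ_pos
        linarith
      · have := (hS.par (n + 1)).s_pos
        exact ofReal_mem_UU (by linarith) (by linarith)
    have hsc : Summable c := by
      have := hS.sum 0
      simpa only [pow_zero, div_one] using this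
    have hsF : Summable fun n => F n e θ t := Summable.of_norm_bounded hsc hbd
    have h3 := hsF.hasSum.tendsto_sum_nat
    have h4 : (fun n => X n e θ t) = fun n => (θ : ℂ) + ∑ i ∈ Finset.range n, F i e θ t := by
      funext n
      have h5 : ∑ i ∈ Finset.range n, F i e θ t = X n e θ t - X 0 e θ t :=
        Finset.sum_range_sub (fun i => X i (e : ℂ) (θ : ℂ) (t : ℂ)) n
      have h6 : X 0 e θ t = θ := by rw [hS.zero]
      rw [h5, h6]
      ring
    have h5 : Filter.Tendsto (fun n => X n e θ t) Filter.atTop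
        (nhds ((θ : ℂ) + ∑' n, F n e θ t)) := by
      rw [h4]
      exact h3.const_add _
    have h6 := tendsto_nhds_unique hl0 h5
    have h7 := congrArg Complex.re h6
    rw [ofReal_re, add_re, ofReal_re] at h7
    exact h7
  · obtain ⟨x₁, x₂, hx'⟩ := hx e he
    obtain ⟨hl, hN⟩ := hS.nseq hB he
    exact em_leaf (hB.bd_real (ofReal_mem_UU (by norm_num) (by linarith))) hl hN hx' hr hr8

end Pool.Agent.DC
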