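import Pool.Agent.DC.CCmp

/-!
# MP_74f563_an, n = 2 (after the n = 1 file K), file CBas: basic bounds along an approximate
solution

PROOFS.  All from `KLag` and `KCmp`, with `64 M r ≤ σ²`, `b ≤ σ/8 ≤ 1/8`, `r (2s) ≤ δ / 32768`.
`Sg = NOne.cmp r lam X`: `‖lam x η‖ ≤ ‖η‖² + M r ≤ 4 + 1/64 ≤ 5`.  `mo = NOne.cmp r (p2 lam) X`:
`‖p2 lam x η‖ ≤ 2‖η‖ + 1/4 ≤ 5`.  `Pm = sm r (mo r lam X)` (`Hol.hol_sm`, `Bd.bd_sm`).
`Er = NOne.cmp r (p1 lam) X - DD r Pm`: one more shift.  `p1 X`: `‖p1 X - 1‖ ≤ b ≤ 1/8`.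
`uf = p2 X / p1 X`: `≤ (1/8) / (7/8)`.  `af`: `(2 + 1/4 + r/4) (9/8)² ≤ 6`.
`ta`: `‖ta t‖ ≥ 2 - (1/2 + 1/8) ≥ 1`; `ch`, `ta` are derivatives of the holomorphic function
`avg (Sg r lam X)` on `UU (2 s)` (`avg_hol`).
`sg = Er * p1 X`: `ε · 9/8 ≤ 2 ε` (`ε ≥ 0` since the domain is not empty).
Reality and periodicity: `per_cmp`, `rsym_cmp`, `per_sm`, ..., `LC.per`, `LC.real`.
-/

set_option autoImplicit false

namespace Pool.Agent.DC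

open Pool.Agent.NOne

open Complex Set MeasureTheory
open scoped ComplexConjugate

variable {σ M r b δ s ε : ℝ} {lam X : ℂ → ℂ → ℂ} {θ t : ℂ}

private lemma kb_r_le (hp : Par σ M r b δ s) : r ≤ 1 / 64 := by
  have h1 := hp.r_le
  have h2 := hp.M_ge
  have h3 := hp.r_pos
  have h4 : σ ^ 2 ≤ 1 := by
    have := hp.σ_pos
    have := hp.σ_le
    nlinarith
  nlinarith

private lemma kb_Mr (hp : Par σ M r b δ s) : M * r ≤ 1 / 64 := by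
  have h1 := hp.r_le
  have h4 : σ ^ 2 ≤ 1 := by
    have := hp.σ_pos
    have := hp.σ_le
    nlinarith
  nlinarith

private lemma kb_rs (hp : Par σ M r b δ s) : r * (2 * s) ≤ δ / 8 := by
  have h1 := hp.rs
  have h2 := hp.δ_pos
  nlinarith

private lemma kb_b (hp : Par σ M r b δ s) : b ≤ 1 / 8 := by
  have h1 := hp.b_le
  have h2 := hp.σ_le
  linarith

theorem hol_Sg (hp : Par σ M r b δ s) (hl : LC σ M r lam) (hX : SC r lam X b δ s) :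
    Hol (3 / 2 * δ) (2 * s) (Sg r lam X) ∧ Bd (3 / 2 * δ) (2 * s) 5 (Sg r lam X) ∧
      Per (Sg r lam X) ∧ True := by
  refine ⟨hol_cmp hp hX (hl.holR hp.σ_pos).1, bd_cmp hp hX ?_, per_cmp hX hl.per, trivial⟩
  intro x η hq h2
  have hq1 : |x.im| < σ / 2 := hq.1
  have hσ := hp.σ_pos
  have h3 := hl.near x η (by linarith) (by linarith)
  have h4 := kb_Mr hp
  have h5 : ‖η ^ 2‖ ≤ 4 := by
    rw [norm_pow]
    have := norm_nonneg η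
    nlinarith
  calc ‖lam x η‖ = ‖(lam x η - η ^ 2) + η ^ 2‖ := by ring_nf
    _ ≤ ‖lam x η - η ^ 2‖ + ‖η ^ 2‖ := norm_add_le _ _
    _ ≤ 5 := by linarith

theorem hol_mo (hp : Par σ M r b δ s) (hl : LC σ M r lam) (hX : SC r lam X b δ s) :
    Hol (3 / 2 * δ) (2 * s) (mo r lam X) ∧ Bd (3 / 2 * δ) (2 * s) 5 (mo r lam X) ∧
      Per (mo r lam X) ∧ True := by
  refine ⟨hol_cmp hp hX (hl.holR hp.σ_pos).2.2.1, bd_cmp hp hX ?_, per_cmp hX (per_p2 hl.per),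
    trivial⟩
  intro x η hq h2
  have h3 := (hl.bounds' hp hq).2.1
  have h5 : ‖2 * η‖ ≤ 4 := by
    rw [norm_mul, Complex.norm_ofNat]
    linarith
  calc ‖p2 lam x η‖ = ‖(p2 lam x η - 2 * η) + 2 * η‖ := by ring_nf
    _ ≤ ‖p2 lam x η - 2 * η‖ + ‖2 * η‖ := norm_add_le _ _
    _ ≤ 5 := by linarith

theorem hol_Pm (hp : Par σ M r b δ s) (hl : LC σ M r lam) (hX : SC r lam X b δ s) :
    Hol (5 / 4 * δ) (2 * s) (Pm r lam X) ∧ Bd (5 / 4 * δ) (2 * s) 5 (Pm r lam X) ∧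
      Per (Pm r lam X) ∧ True := by
  obtain ⟨h1, h2, h3, h4⟩ := hol_mo hp hl hX
  have h5 := kb_rs hp
  have h6 := hp.δ_pos
  have h7 : 5 / 4 * δ + r * (2 * s) ≤ 3 / 2 * δ := by linarith
  exact ⟨h1.hol_sm hp.r_pos.le h7, h2.bd_sm hp.r_pos.le h7, per_sm h3, trivial⟩

theorem hol_Er (hp : Par σ M r b δ s) (hl : LC σ M r lam) (hX : SC r lam X b δ s) :
    Hol (9 / 8 * δ) (2 * s) (Er r lam X) ∧ Per (Er r lam X) ∧ True := by
  obtain ⟨h1, h2, h3, h4⟩ := hol_Pm hp hl hX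
  have h5 := kb_rs hp
  have h6 := hp.δ_pos
  have h7 : 9 / 8 * δ + r * (2 * s) ≤ 5 / 4 * δ := by linarith
  have h8 : Hol (9 / 8 * δ) (2 * s) (NOne.cmp r (p1 lam) X) :=
    (hol_cmp hp hX (hl.holR hp.σ_pos).2.1).mono (by linarith) le_rfl
  refine ⟨h8.sub (h1.hol_DD hp.r_pos.le h7), ?_, ?_⟩
  · intro θ t
    have e1 := per_cmp hX (per_p1 hl.per) θ t
    have e2 := per_DD (r := r) h3 θ t
    simp only [Er, e1, e2]
  · trivial

theorem p1_X_bounds (hp : Par σ M r b δ s) (hX : SC r lam X b δ s) (hθ : |θ.im| < 2 * δ)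
    (ht : t ∈ UU (2 * s)) : ‖p1 X θ t‖ ≤ 9 / 8 ∧ 7 / 8 ≤ ‖p1 X θ t‖ ∧ p1 X θ t ≠ 0 := by
  have h1 := hX.b1 θ t hθ ht
  have h2 := kb_b hp
  have h3 : ‖p1 X θ t‖ ≤ 9 / 8 := by
    calc ‖p1 X θ t‖ = ‖(p1 X θ t - 1) + 1‖ := by ring_nf
      _ ≤ ‖p1 X θ t - 1‖ + ‖(1 : ℂ)‖ := norm_add_le _ _
      _ ≤ 9 / 8 := by
        rw [norm_one]
        simp only at h1
        linarith
  have h4 : 7 / 8 ≤ ‖p1 X θ t‖ := by
    have h5 : ‖(1 : ℂ)‖ ≤ ‖p1 X θ t‖ + ‖p1 X θ t - 1‖ := by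
      calc ‖(1 : ℂ)‖ = ‖p1 X θ t - (p1 X θ t - 1)‖ := by ring_nf
        _ ≤ _ := norm_sub_le _ _
    rw [norm_one] at h5
    simp only at h1
    linarith
  refine ⟨h3, h4, ?_⟩
  intro h0
  rw [h0, norm_zero] at h4
  norm_num at h4

theorem p2_X_bound (hp : Par σ M r b δ s) (hX : SC r lam X b δ s) (hθ : |θ.im| < 2 * δ)
    (ht : t ∈ UU (2 * s)) : ‖p2 X θ t‖ ≤ 1 / 8 := by
  exact (hX.b2 θ t hθ ht).trans (kb_b hp)

theorem hol_uf (hp : Par σ M r b δ s) (hX : SC r lam X b δ s) :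
    Hol (2 * δ) (2 * s) (uf X) ∧ Bd (2 * δ) (2 * s) (1 / 4) (uf X) := by
  refine ⟨hX.hol.hol_p2.div hX.hol.hol_p1 fun θ t hθ ht => (p1_X_bounds hp hX hθ ht).2.2, ?_⟩
  intro θ t hθ ht
  obtain ⟨h1, h2, h3⟩ := p1_X_bounds hp hX hθ ht
  have h4 := p2_X_bound hp hX hθ ht
  simp only [uf]
  rw [norm_div, div_le_iff₀ (by linarith)]
  linarith

theorem hol_af (hp : Par σ M r b δ s) (hl : LC σ M r lam) (hX : SC r lam X b δ s) :
    Hol (5 / 4 * δ) (2 * s) (af r lam X) ∧ Bd (5 / 4 * δ) (2 * s) 6 (af r lam X) := by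
  have h5 := kb_rs hp
  have h6 := hp.δ_pos
  have h7 : 5 / 4 * δ + r * (2 * s) ≤ 2 * δ := by linarith
  obtain ⟨-, -, g3, -, g5, g6⟩ := hl.holR hp.σ_pos
  have a1 : Hol (5 / 4 * δ) (2 * s) (NOne.cmp r (p2 (p2 lam)) X) :=
    (hol_cmp hp hX g6).mono (by linarith) le_rfl
  have a2 : Hol (5 / 4 * δ) (2 * s) (NOne.cmp r (p1 (p2 lam)) X) :=
    (hol_cmp hp hX g5).mono (by linarith) le_rfl
  have a3 : Hol (5 / 4 * δ) (2 * s) (p1 X) := hX.hol.hol_p1.mono (by linarith) le_rfl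
  have a4 : Hol (5 / 4 * δ) (2 * s) (sh r (p1 X)) := hX.hol.hol_p1.hol_sh hp.r_pos.le h7
  refine ⟨((a1.sub ((hol_const (r : ℂ)).mul a2)).mul a3).mul a4, ?_⟩
  intro θ t hθ ht
  have hθ2 : |θ.im| < 3 / 2 * δ := by linarith
  have hθ3 : |θ.im| < 2 * δ := by linarith
  have hm := mem_RR hp hX hθ2 ht
  obtain ⟨-, -, -, c4, c5⟩ := hl.bounds' hp hm
  have c6 := (p1_X_bounds hp hX hθ3 ht).1
  have c7 := (p1_X_bounds hp hX (shift_im_lt hp.r_pos.le hθ ht h7) ht).1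
  have c8 := kb_r_le hp
  have c9 := hp.r_pos
  have d1 : ‖NOne.cmp r (p2 (p2 lam)) X θ t‖ ≤ 9 / 4 := by
    calc ‖NOne.cmp r (p2 (p2 lam)) X θ t‖ = ‖(NOne.cmp r (p2 (p2 lam)) X θ t - 2) + 2‖ := by ring_nf
      _ ≤ ‖NOne.cmp r (p2 (p2 lam)) X θ t - 2‖ + ‖(2 : ℂ)‖ := norm_add_le _ _
      _ ≤ 9 / 4 := by
        rw [Complex.norm_ofNat]
        simp only [NOne.cmp] at c5 ⊢
        linarith
  have d2 : ‖(r : ℂ) * NOne.cmp r (p1 (p2 lam)) X θ t‖ ≤ 1 / 4 := by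
    rw [norm_mul, Complex.norm_real, Real.norm_of_nonneg c9.le]
    simp only [NOne.cmp] at c4 ⊢
    nlinarith [norm_nonneg (p1 (p2 lam) (X θ t) (DD r X θ t))]
  have d3 : ‖NOne.cmp r (p2 (p2 lam)) X θ t - (r : ℂ) * NOne.cmp r (p1 (p2 lam)) X θ t‖ ≤ 5 / 2 :=
    (norm_sub_le _ _).trans (by linarith)
  have d4 : ‖sh r (p1 X) θ t‖ ≤ 9 / 8 := c7
  simp only [af]
  rw [norm_mul, norm_mul]
  have n1 := norm_nonneg (p1 X θ t)
  have n2 := norm_nonneg (sh r (p1 X) θ t)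
  have n3 := norm_nonneg (NOne.cmp r (p2 (p2 lam)) X θ t - (r : ℂ) * NOne.cmp r (p1 (p2 lam)) X θ t)
  calc ‖NOne.cmp r (p2 (p2 lam)) X θ t - (r : ℂ) * NOne.cmp r (p1 (p2 lam)) X θ t‖ * ‖p1 X θ t‖ *
        ‖sh r (p1 X) θ t‖ ≤ 5 / 2 * (9 / 8) * (9 / 8) := by gcongr
    _ ≤ 6 := by norm_num

theorem hol_ta (hp : Par σ M r b δ s) (hl : LC σ M r lam) (hX : SC r lam X b δ s) :
    DifferentiableOn ℂ (ch r lam X) (UU (2 * s)) ∧
      DifferentiableOn ℂ (ta r lam X) (UU (2 * s)) ∧ True ∧ True := by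
  obtain ⟨h1, -, -, h4⟩ := hol_Sg hp hl hX
  have h6 := hp.δ_pos
  have a1 : DifferentiableOn ℂ (avg (Sg r lam X)) (UU (2 * s)) := avg_hol h1 (by linarith)
  have a2 : DifferentiableOn ℂ (ch r lam X) (UU (2 * s)) := a1.deriv (isOpen_UU _)
  have a3 : DifferentiableOn ℂ (ta r lam X) (UU (2 * s)) := a2.deriv (isOpen_UU _)
  exact ⟨a2, a3, trivial, trivial⟩

theorem ta_bounds (hp : Par σ M r b δ s) (hX : SC r lam X b δ s) (ht : t ∈ UU s) :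
    1 ≤ ‖ta r lam X t‖ ∧ ta r lam X t ≠ 0 ∧ 1 ≤ (ta r lam X t).re := by
  have h1 := hX.tau t ht
  have h2 := kb_b hp
  have h3 : ‖(2 : ℂ)‖ ≤ ‖ta r lam X t‖ + ‖ta r lam X t - 2‖ := by
    calc ‖(2 : ℂ)‖ = ‖ta r lam X t - (ta r lam X t - 2)‖ := by ring_nf
      _ ≤ _ := norm_sub_le _ _
  rw [Complex.norm_ofNat] at h3
  have h4 : 1 ≤ ‖ta r lam X t‖ := by linarith
  refine ⟨h4, ?_, ?_⟩
  · intro h0
    rw [h0, norm_zero] at h4
    norm_num at h4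
  · have h5 := (abs_le.mp (Complex.abs_re_le_norm (ta r lam X t - 2))).1
    have h6 : (ta r lam X t - 2).re = (ta r lam X t).re - 2 := by simp
    rw [h6] at h5
    linarith

theorem bd_sg (hp : Par σ M r b δ s) (hl : LC σ M r lam) (hX : SC r lam X b δ s)
    (hE : Bd δ s ε (Er r lam X)) :
    Hol (9 / 8 * δ) (2 * s) (sg r lam X) ∧ Bd δ s (2 * ε) (sg r lam X) ∧ Per (sg r lam X) ∧
      True := by
  obtain ⟨h1, h2, h3⟩ := hol_Er hp hl hX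
  have h6 := hp.δ_pos
  have h7 := hp.s_pos
  refine ⟨h1.mul (hX.hol.hol_p1.mono (by linarith) le_rfl), ?_, ?_, ?_⟩
  · intro θ t hθ ht
    have a1 := hE θ t hθ ht
    have a2 := (p1_X_bounds hp hX (θ := θ) (t := t) (by linarith)
      (UU_mono (by linarith) ht)).1
    have a3 := norm_nonneg (Er r lam X θ t)
    have a4 := norm_nonneg (p1 X θ t)
    simp only [sg]
    rw [norm_mul]
    nlinarith
  · intro θ t
    have e1 := h2 θ t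
    have e2 := per_p1_X hX θ t
    simp only [sg, e1, e2]
  · trivial

end Pool.Agent.DC
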