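import Pool.Agent.NOne.KDefs

/-!
# MP_74f563_an, n = 2 autonomous: the KAM engine with a holomorphic parameter, definitions

The `K` files of `Pool/Agent/NOne` treat one generating function `B`.  Here `B` depends
holomorphically on a parameter `e` (the energy).  For a complex `e` the functions are not real, so
the structures `LD`, `St`, `BD` are used without their fields `real`: `LC`, `SC`, `BC`.
-/

set_option autoImplicit false

namespace Pool.Agent.DC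

open Pool.Agent.NOne Complex Set MeasureTheory
open scoped ComplexConjugate

/-- the assumptions on the Lagrangian (no reality) -/
structure LC (σ M r : ℝ) (lam : ℂ → ℂ → ℂ) : Prop where
  hol : DifferentiableOn ℂ (fun q : ℂ × ℂ => lam q.1 q.2) {q | |q.1.im| < σ ∧ ‖q.2‖ < 5}
  near : ∀ x η : ℂ, |x.im| < σ → ‖η‖ < 5 → ‖lam x η - η ^ 2‖ ≤ M * r
  per : Per lam

/-- approximate solutions (no reality) -/
structure SC (r : ℝ) (lam X : ℂ → ℂ → ℂ) (b δ s : ℝ) : Prop where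
  per : ∀ θ t : ℂ, X (θ + 1) t = X θ t + 1
  hol : Hol (2 * δ) (2 * s) X
  b0 : Bd (2 * δ) (2 * s) b fun θ t => X θ t - θ
  b1 : Bd (2 * δ) (2 * s) b fun θ t => p1 X θ t - 1
  b2 : Bd (2 * δ) (2 * s) b (p2 X)
  b11 : Bd (2 * δ) (2 * s) b (p1 (p1 X))
  tau : ∀ t ∈ UU s, ‖ta r lam X t - 2‖ ≤ 1 / 2 + b

/-- the assumptions on `B` (no reality) -/
structure BC (σ ρ M : ℝ) (B : ℂ → ℂ → ℂ) : Prop where
  σ_pos : 0 < σ
  ρ_pos : 0 < ρ
  hol : DifferentiableOn ℂ (fun q : ℂ × ℂ => B q.1 q.2) {q | |q.1.im| < σ ∧ ‖q.2‖ < ρ}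
  bd : ∀ x w : ℂ, |x.im| < σ → ‖w‖ < ρ → ‖B x w‖ ≤ M
  one : ∀ x : ℂ, |x.im| < σ → B x 0 = 1
  per : Per B

theorem LC.of_LD {σ M r : ℝ} {lam : ℂ → ℂ → ℂ} (h : LD σ M r lam) : LC σ M r lam :=
  ⟨h.hol, h.near, h.per⟩

theorem LC.to_LD {σ M r : ℝ} {lam : ℂ → ℂ → ℂ} (h : LC σ M r lam) (hR : RSym lam) :
    LD σ M r lam := ⟨h.hol, h.near, h.per, hR⟩

theorem SC.to_St {r b δ s : ℝ} {lam X : ℂ → ℂ → ℂ} (h : SC r lam X b δ s) (hR : RSym X) :
    St r lam X b δ s := ⟨h.per, hR, h.hol, h.b0, h.b1, h.b2, h.b11, h.tau⟩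

theorem BC.to_BD {σ ρ M : ℝ} {B : ℂ → ℂ → ℂ} (h : BC σ ρ M B) (hR : RSym B) : BD σ ρ M B :=
  ⟨h.σ_pos, h.ρ_pos, h.hol, h.bd, h.one, h.per, hR⟩

end Pool.Agent.DC
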