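import Pool.Agent.DC.CJ
import Pool.Agent.NOne.KDiv

/-!
# MP_74f563_an, n = 2 (after the n = 1 file K), file CHb: bounds of `H` and `K`

Hypotheses: `|E| ≤ ε` on `Om δ s`, `|Z| ≤ ζ` on `Om (δ/16) s`, `ε, ζ ≥ 0`.  All constants are
absolute.

PROOF of `bd_Hf`.  `Z_θ` is bounded by `32 ζ / δ` on `Om (δ/32) s` (`Bd.cauchy1`), so by (J1)
`|D H| ≤ (9/8) ε + 32 ζ / δ ≤ 32 (ε + ζ) / δ` there.  `div_DD` for `H` (`δ₁ = δ`, `δ := δ/32`,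
`δ' = δ/64`, `a = s/8`):
`|H - avg H| ≤ 3 · 32 (ε + ζ) / δ / ((s/8)(δ/64)) = 49152 (ε + ζ) / (s δ²)` on
`Om (δ/64) (7s/8)`.  `avg H = avg(E X_t)` (`avg_Hf`), so `|avg H| ≤ ε / 8` (`avg_bound`,
`p2_X_bound`).
PROOF of `bd_Kf`.  By (J2) on `Om (δ/128) (7s/8)`: `|D K| ≤ ε/8 + |H⁺| + |Z_t|`,
`|H⁺| ≤ C (ε + ζ) / (s δ²)`
(`Bd.bd_sh`, `δ/128 + r s ≤ δ/64`), `|Z_t| ≤ 8 ζ / s` (`Bd.cauchy2` from `s` to `7s/8`, on
`Om (δ/16) (7s/8)`), so `|D K| ≤ C' (ε + ζ) / (s δ²)`.  `div_DD` with `δ := δ/128`, `δ' = δ/256`,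
`s := 7s/8`,
`a = s/8`: `|K - avg K| ≤ C'' (ε + ζ) / (s² δ³)` on `Om (δ/256) (6s/8)`.
PROOF of `bd_Kf'` : `(K - avg K)_θ = K_θ`, Cauchy from `δ/256` to `δ/512`; `H_t`: Cauchy from
`7s/8` to
`5s/8`.
-/

set_option autoImplicit false

namespace Pool.Agent.DC

open Pool.Agent.NOne

open Complex Set MeasureTheory

private theorem kh_par {σ M r b δ s : ℝ} (hp : Par σ M r b δ s) :
    0 < δ ∧ δ ≤ 1 / 8 ∧ 0 < s ∧ s ≤ 1 / 16 ∧ 0 < r ∧ r ≤ 1 ∧ 0 < r * s ∧ r * s ≤ δ / 65536 := by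
  have h1 := hp.σ_pos
  have h2 := hp.σ_le
  have h3 := hp.M_ge
  have h4 := hp.r_pos
  have h5 := hp.r_le
  have h6 := hp.δ_pos
  have h7 := hp.δ_le
  have h8 := hp.s_pos
  have h9 := hp.s_le
  have h10 := hp.rs
  have h11 : r ≤ 1 := by nlinarith
  exact ⟨h6, by linarith, h8, h9, h4, h11, mul_pos h4 h8, by linarith⟩

private theorem bd_Hf_aux {σ M r b δ s ε ζ : ℝ} {lam X w : ℂ → ℂ → ℂ}
    (hp : Par σ M r b δ s) (hl : LC σ M r lam) (hX : SC r lam X b δ s)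
    (hw : ∀ δ' : ℝ, Hol δ' s w) (hwP : Per w) (hε : 0 ≤ ε) (hζ : 0 ≤ ζ)
    (hE : Bd δ s ε (Er r lam X)) (hZ : Bd (δ / 16) s ζ (Zf r lam X w)) :
    Bd (δ / 64) (7 / 8 * s) (50000 * (ε + ζ) / (s * δ ^ 2)) (Hf r lam X w) := by
  obtain ⟨hδ, hδ1, hs, hs1, hr, hr1, hrs, hrs1⟩ := kh_par hp
  have hZh := (hol_Zf hp hl hX hw hwP).1
  have hH := hol_Hf hp hl hX hw hwP
  have hZ1 : Bd (δ / 32) s (ζ / (δ / 16 - δ / 32)) (p1 (Zf r lam X w)) :=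
    hZ.cauchy1 (hZh.mono (by linarith) le_rfl) (by linarith)
  have hX1 : ∀ θ t : ℂ, |θ.im| < δ → t ∈ UU s → ‖p1 X θ t‖ ≤ 9 / 8 := fun θ t hθ ht =>
    (p1_X_bounds hp hX (by linarith) (UU_mono (by linarith) ht)).1
  have hX2 : ∀ θ t : ℂ, |θ.im| < δ → t ∈ UU s → ‖p2 X θ t‖ ≤ 1 / 8 := fun θ t hθ ht =>
    p2_X_bound hp hX (by linarith) (UU_mono (by linarith) ht)
  have hD : Bd (δ / 32) s (32 * (ε + ζ) / δ) (DD r (Hf r lam X w)) := by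
    intro θ t hθ ht
    rw [J1 hp hl hX hw (by linarith) ht]
    have h1 := hE θ t (by linarith) ht
    have h2 := hX1 θ t (by linarith) ht
    have h3 := hZ1 θ t hθ ht
    have h4 : ‖Er r lam X θ t * p1 X θ t‖ ≤ ε * (9 / 8) := by
      rw [norm_mul]
      exact mul_le_mul h1 h2 (norm_nonneg _) hε
    have h5 : ζ / (δ / 16 - δ / 32) = 32 * ζ / δ := by
      field_simp
      ring1
    have h6 : ε * (9 / 8) ≤ 32 * ε / δ := by
      rw [le_div_iff₀ hδ]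
      nlinarith
    calc ‖Er r lam X θ t * p1 X θ t - p1 (Zf r lam X w) θ t‖
        ≤ ‖Er r lam X θ t * p1 X θ t‖ + ‖p1 (Zf r lam X w) θ t‖ := norm_sub_le _ _
      _ ≤ 32 * ε / δ + 32 * ζ / δ := add_le_add (h4.trans h6) (h3.trans_eq h5)
      _ = 32 * (ε + ζ) / δ := by ring
  have hdiv := div_DD (δ := δ / 32) (δ' := δ / 64) (a := s / 8) hH.1 hH.2.1 (by linarith)
    (by linarith) (by linarith) (by linarith) (by linarith) hr hr1 hD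
  have havg : ∀ t ∈ UU s, ‖avg (Hf r lam X w) t‖ ≤ ε * (1 / 8) := by
    intro t ht
    rw [avg_Hf hp hl hX hw hwP ht]
    refine avg_bound (δ := δ) (s := s) ?_ hδ ht
    intro θ u hθ hu
    rw [norm_mul]
    exact mul_le_mul (hE θ u hθ hu) (hX2 θ u hθ hu) (norm_nonneg _) hε
  intro θ t hθ ht
  have h1 := hdiv θ t hθ (UU_mono (by linarith) ht)
  have h2 := havg t (UU_mono (by linarith) ht)
  have h3 : 3 * (32 * (ε + ζ) / δ) / (s / 8 * (δ / 32 - δ / 64)) =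
      49152 * (ε + ζ) / (s * δ ^ 2) := by
    field_simp
    ring1
  rw [h3] at h1
  have h4 : ε * (1 / 8) ≤ 848 * (ε + ζ) / (s * δ ^ 2) := by
    rw [le_div_iff₀ (by positivity)]
    have h5 : s * δ ^ 2 ≤ 1 := by
      have : δ ^ 2 ≤ 1 := by nlinarith
      nlinarith
    nlinarith
  calc ‖Hf r lam X w θ t‖
      = ‖(Hf r lam X w θ t - avg (Hf r lam X w) t) + avg (Hf r lam X w) t‖ := by ring_nf
    _ ≤ ‖Hf r lam X w θ t - avg (Hf r lam X w) t‖ + ‖avg (Hf r lam X w) t‖ := norm_add_le _ _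
    _ ≤ 49152 * (ε + ζ) / (s * δ ^ 2) + 848 * (ε + ζ) / (s * δ ^ 2) :=
        add_le_add h1 (h2.trans h4)
    _ = 50000 * (ε + ζ) / (s * δ ^ 2) := by ring

private theorem bd_Kf_aux {σ M r b δ s ε ζ : ℝ} {lam X w : ℂ → ℂ → ℂ}
    (hp : Par σ M r b δ s) (hl : LC σ M r lam) (hX : SC r lam X b δ s)
    (hw : ∀ δ' : ℝ, Hol δ' s w) (hwP : Per w) (hε : 0 ≤ ε) (hζ : 0 ≤ ζ)
    (hE : Bd δ s ε (Er r lam X)) (hZ : Bd (δ / 16) s ζ (Zf r lam X w)) :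
    Bd (δ / 256) (5 / 8 * s) (6144 * 50009 * (ε + ζ) / (s ^ 2 * δ ^ 3))
      (fun θ t => Kf r lam X w θ t - avg (Kf r lam X w) t) := by
  obtain ⟨hδ, hδ1, hs, hs1, hr, hr1, hrs, hrs1⟩ := kh_par hp
  have hZh := (hol_Zf hp hl hX hw hwP).1
  have hK := hol_Kf hp hl hX hw hwP
  have hHb := bd_Hf_aux hp hl hX hw hwP hε hζ hE hZ
  have hrs2 : r * (7 / 8 * s) ≤ δ / 128 := by
    have : r * (7 / 8 * s) = 7 / 8 * (r * s) := by ring
    rw [this]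
    linarith
  have hHs : Bd (δ / 128) (7 / 8 * s) (50000 * (ε + ζ) / (s * δ ^ 2)) (sh r (Hf r lam X w)) :=
    hHb.bd_sh hr.le (by linarith)
  have hZ2 : Bd (δ / 16) (7 / 8 * s) (ζ / (s - 7 / 8 * s)) (p2 (Zf r lam X w)) :=
    hZ.cauchy2 (hZh.mono (by linarith) le_rfl) (by linarith)
  have hX2 : ∀ θ t : ℂ, |θ.im| < δ → t ∈ UU s → ‖p2 X θ t‖ ≤ 1 / 8 := fun θ t hθ ht =>
    p2_X_bound hp hX (by linarith) (UU_mono (by linarith) ht)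
  have hδ2 : δ ^ 2 ≤ 1 := by nlinarith
  have hD : Bd (δ / 128) (7 / 8 * s) (50009 * (ε + ζ) / (s * δ ^ 2)) (DD r (Kf r lam X w)) := by
    intro θ t hθ ht
    have ht' : t ∈ UU s := UU_mono (by linarith) ht
    rw [J2 hp hl hX hw (by linarith) ht']
    have h1 := hE θ t (by linarith) ht'
    have h2 := hX2 θ t (by linarith) ht'
    have h3 := hZ2 θ t (by linarith) ht
    have h6 := hHs θ t hθ ht
    have h4 : ‖Er r lam X θ t * p2 X θ t‖ ≤ ε * (1 / 8) := by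
      rw [norm_mul]
      exact mul_le_mul h1 h2 (norm_nonneg _) hε
    have h5 : ε * (1 / 8) ≤ (ε + ζ) / (s * δ ^ 2) := by
      rw [le_div_iff₀ (by positivity)]
      have h7 : s * δ ^ 2 ≤ 1 := by nlinarith
      nlinarith
    have h8 : ζ / (s - 7 / 8 * s) ≤ 8 * (ε + ζ) / (s * δ ^ 2) := by
      have h9 : ζ / (s - 7 / 8 * s) = 8 * ζ / s := by
        field_simp
        ring1
      rw [h9, div_le_div_iff₀ hs (by positivity)]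
      have h10 : ζ * δ ^ 2 ≤ ε + ζ := by nlinarith
      nlinarith
    calc ‖Er r lam X θ t * p2 X θ t - sh r (Hf r lam X w) θ t - p2 (Zf r lam X w) θ t‖
        ≤ ‖Er r lam X θ t * p2 X θ t‖ + ‖sh r (Hf r lam X w) θ t‖ +
          ‖p2 (Zf r lam X w) θ t‖ :=
          (norm_sub_le _ _).trans (by gcongr; exact norm_sub_le _ _)
      _ ≤ (ε + ζ) / (s * δ ^ 2) + 50000 * (ε + ζ) / (s * δ ^ 2) +
          8 * (ε + ζ) / (s * δ ^ 2) :=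
          add_le_add (add_le_add (h4.trans h5) h6) (h3.trans h8)
      _ = 50009 * (ε + ζ) / (s * δ ^ 2) := by ring
  have hdiv := div_DD (δ := δ / 128) (δ' := δ / 256) (a := s / 8)
    (hK.1.mono le_rfl (by linarith : 7 / 8 * s ≤ s)) hK.2.1 (by linarith)
    (by linarith) (by linarith : δ / 128 + r * (7 / 8 * s) ≤ δ) (by linarith) (by linarith)
    hr hr1 hD
  refine hdiv.mono le_rfl (by linarith) (le_of_eq ?_)
  field_simp
  ring1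

theorem bd_Hf : ∃ C : ℝ, 1 ≤ C ∧ ∀ {σ M r b δ s ε ζ : ℝ} {lam X w : ℂ → ℂ → ℂ},
    Par σ M r b δ s → LC σ M r lam → SC r lam X b δ s → (∀ δ' : ℝ, Hol δ' s w) → Per w →
    0 ≤ ε → 0 ≤ ζ → Bd δ s ε (Er r lam X) → Bd (δ / 16) s ζ (Zf r lam X w) →
    Bd (δ / 64) (7 / 8 * s) (C * (ε + ζ) / (s * δ ^ 2)) (Hf r lam X w) :=
  ⟨50000, by norm_num, bd_Hf_aux⟩

theorem bd_Kf : ∃ C : ℝ, 1 ≤ C ∧ ∀ {σ M r b δ s ε ζ : ℝ} {lam X w : ℂ → ℂ → ℂ},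
    Par σ M r b δ s → LC σ M r lam → SC r lam X b δ s → (∀ δ' : ℝ, Hol δ' s w) → Per w →
    0 ≤ ε → 0 ≤ ζ → Bd δ s ε (Er r lam X) → Bd (δ / 16) s ζ (Zf r lam X w) →
    Bd (δ / 256) (5 / 8 * s) (C * (ε + ζ) / (s ^ 2 * δ ^ 3))
      (fun θ t => Kf r lam X w θ t - avg (Kf r lam X w) t) :=
  ⟨6144 * 50009, by norm_num, bd_Kf_aux⟩

theorem bd_Kf' : ∃ C : ℝ, 1 ≤ C ∧ ∀ {σ M r b δ s ε ζ : ℝ} {lam X w : ℂ → ℂ → ℂ},
    Par σ M r b δ s → LC σ M r lam → SC r lam X b δ s → (∀ δ' : ℝ, Hol δ' s w) → Per w →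
    0 ≤ ε → 0 ≤ ζ → Bd δ s ε (Er r lam X) → Bd (δ / 16) s ζ (Zf r lam X w) →
    Bd (δ / 512) (5 / 8 * s) (C * (ε + ζ) / (s ^ 2 * δ ^ 4)) (p1 (Kf r lam X w)) ∧
    Bd (δ / 64) (5 / 8 * s) (C * (ε + ζ) / (s ^ 2 * δ ^ 4)) (p2 (Hf r lam X w)) := by
  refine ⟨512 * (6144 * 50009), by norm_num, ?_⟩
  intro σ M r b δ s ε ζ lam X w hp hl hX hw hwP hε hζ hE hZ
  obtain ⟨hδ, hδ1, hs, hs1, hr, hr1, hrs, hrs1⟩ := kh_par hp
  have hK := hol_Kf hp hl hX hw hwP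
  have hH := hol_Hf hp hl hX hw hwP
  have hHb := bd_Hf_aux hp hl hX hw hwP hε hζ hE hZ
  have hKb := bd_Kf_aux hp hl hX hw hwP hε hζ hE hZ
  constructor
  · have hh : Hol (δ / 256) (5 / 8 * s)
        (fun θ t => Kf r lam X w θ t - avg (Kf r lam X w) t) :=
      (hK.1.sub (hol_of_UU (avg_hol hK.1 hδ))).mono (by linarith) (by linarith)
    have h1 := hKb.cauchy1 (δ' := δ / 512) hh (by linarith)
    intro θ t hθ ht
    have h2 := h1 θ t hθ ht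
    have h3 : p1 (fun θ t => Kf r lam X w θ t - avg (Kf r lam X w) t) θ t =
        p1 (Kf r lam X w) θ t := by
      simp only [p1]
      rw [deriv_sub_const]
    rw [h3] at h2
    refine h2.trans (le_of_eq ?_)
    field_simp
    ring1
  · have h1 := hHb.cauchy2 (s' := 5 / 8 * s) (hH.1.mono (by linarith) (by linarith))
      (by linarith)
    refine h1.mono le_rfl le_rfl ?_
    have h2 : 50000 * (ε + ζ) / (s * δ ^ 2) / (7 / 8 * s - 5 / 8 * s) =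
        200000 * (ε + ζ) * δ ^ 2 / (s ^ 2 * δ ^ 4) := by
      field_simp
      ring1
    rw [h2]
    apply div_le_div_of_nonneg_right _ (by positivity)
    have h3 : δ ^ 2 ≤ 1 := by nlinarith
    have h4 : 0 ≤ ε + ζ := by linarith
    nlinarith

end Pool.Agent.DC
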