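import Pool.Agent.DC.CBas

/-!
# MP_74f563_an, n = 2 (after the n = 1 file K), file CIda: the conservation laws (I1), (I2)

Here `P = Pm r lam X`, `P⁺ = mo r lam X` (`sh_sm`), `η = D X`, `E = Er r lam X`,
`E = lam_x(X, η) - D P`.

PROOF of `I1`.  By `p1_cmp` with `G = lam`: `(Sg)_θ = lam_x X_θ + P⁺ D X_θ`.  And
`D(P X_θ) = (P⁺ X_θ⁺ - P X_θ) / r = P⁺ (X_θ⁺ - X_θ) / r + X_θ (P⁺ - P) / r = P⁺ D X_θ + X_θ D P`.
So `(Sg)_θ = D(P X_θ) + X_θ (lam_x - D P) = D(P X_θ) + E X_θ`.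
PROOF of `I2`.  By `p2_cmp`: `(Sg)_t = lam_x X_t + P⁺ (D X_t + X_θ⁺)`, and
`D(P X_t) = P⁺ D X_t + X_t D P`, so `(Sg)_t = D(P X_t) + E X_t + P⁺ X_θ⁺`, and
`P⁺ X_θ⁺ = sh r (P X_θ)`.
-/

set_option autoImplicit false

namespace Pool.Agent.DC

open Pool.Agent.NOne

open Complex Set MeasureTheory

variable {σ M r b δ s : ℝ} {lam X : ℂ → ℂ → ℂ} {θ t : ℂ}

theorem I1 (hp : Par σ M r b δ s) (hl : LC σ M r lam) (hX : SC r lam X b δ s)
    (hθ : |θ.im| < 3 / 2 * δ) (ht : t ∈ UU (2 * s)) :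
    p1 (Sg r lam X) θ t =
      DD r (fun θ t => Pm r lam X θ t * p1 X θ t) θ t + Er r lam X θ t * p1 X θ t := by
  have h1 := p1_cmp hp hX (hl.holR hp.σ_pos).1 hθ ht
  have h2 : (fun θ t => Pm r lam X θ t * p1 X θ t) = fun θ t => p1 X θ t * Pm r lam X θ t := by
    funext θ t
    exact mul_comm _ _
  have h3 := DD_mul r (p1 X) (Pm r lam X) θ t
  have h4 : sh r (Pm r lam X) θ t = mo r lam X θ t := by
    unfold Pm
    rw [sh_sm]
  rw [h2, h3, h4]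
  unfold Sg
  rw [h1]
  unfold Er mo
  ring

theorem I2 (hp : Par σ M r b δ s) (hl : LC σ M r lam) (hX : SC r lam X b δ s)
    (hθ : |θ.im| < 3 / 2 * δ) (ht : t ∈ UU (2 * s)) :
    p2 (Sg r lam X) θ t =
      DD r (fun θ t => Pm r lam X θ t * p2 X θ t) θ t + Er r lam X θ t * p2 X θ t +
        sh r (fun θ t => Pm r lam X θ t * p1 X θ t) θ t := by
  have h1 := p2_cmp hp hX (hl.holR hp.σ_pos).1 hθ ht
  have h2 : (fun θ t => Pm r lam X θ t * p2 X θ t) = fun θ t => p2 X θ t * Pm r lam X θ t := by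
    funext θ t
    exact mul_comm _ _
  have h3 := DD_mul r (p2 X) (Pm r lam X) θ t
  have h4 : sh r (Pm r lam X) θ t = mo r lam X θ t := by
    unfold Pm
    rw [sh_sm]
  have h5 : sh r (fun θ t => Pm r lam X θ t * p1 X θ t) θ t =
      sh r (Pm r lam X) θ t * sh r (p1 X) θ t := rfl
  rw [h5, h2, h3, h4]
  unfold Sg
  rw [h1]
  unfold Er mo
  ring

end Pool.Agent.DC
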