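import Pool.Agent.DC.CBas

/-!
# MP_74f563_an, n = 2 (after the n = 1 file K), file CIdb: the identities (I3), (I4)

Abbreviations (all at `(X, η)`, `η = D X`): `A = lam_xx`, `B = lam_xη = p1 (p2 lam)`
(`= p2 (p1 lam)` by `LC.schwarz`), `C = lam_ηη`; `a = (C - r B) X_θ X_θ⁺ = af`; `m = mo`, `P = m⁻`.
A superscript `⁺`/`⁻` is `sh r`/`sm r`; `(f⁺)⁻ = f`.

PROOF of `I3` : `a (1 + D u) = J⁺`, `u = X_t / X_θ`, `J = P_t X_θ - P_θ X_t`. `P = m⁻`, so `(P_θ)⁺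
= m_θ` and `P_t = (m_t)⁻ - r (m_θ)⁻` (`p2_sm`), `(P_t)⁺ = m_t - r m_θ`.  By `p1_cmp`, `p2_cmp` with
`G = p2 lam`: `m_θ = B X_θ + C D X_θ`, `m_t = B X_t + C (D X_t + X_θ⁺)`.  Since `X_θ⁺ - r D X_θ =
X_θ`:  `(P_t)⁺ = B X_t + C D X_t + (C - r B) X_θ`.  Hence `J⁺ = (P_t)⁺ X_θ⁺ - (P_θ)⁺ X_t⁺ = (C - r
B) X_θ X_θ⁺ + B (X_t X_θ⁺ - X_θ X_t⁺)   + C (D X_t · X_θ⁺ - D X_θ · X_t⁺)`. And `X_θ X_θ⁺ D u =
(X_t⁺ X_θ - X_t X_θ⁺) / r`, so `X_t X_θ⁺ - X_θ X_t⁺ = - r X_θ X_θ⁺ D u` and `D X_t · X_θ⁺ - D X_θ ·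
X_t⁺ = (X_θ X_t⁺ - X_t X_θ⁺) / r = X_θ X_θ⁺ D u`.  So `J⁺ = (C - r B) X_θ X_θ⁺ (1 + D u)`.

PROOF of `I4` (an identity for every function `v`, no regularity of `v` is used).  Put
`y = X_θ v`, `q = m_θ = B X_θ + C D X_θ`, `c = C X_θ⁺ D v`.  By `DD_mul`
`D y = v D X_θ + X_θ⁺ D v`, so
`Lin y = A y + B D y - D((B y + C D y)⁻)
       = v (A X_θ + B D X_θ) + B X_θ⁺ D v - D((v q)⁻) - D(c⁻)`.
`D((v q)⁻) = (v q - v⁻ q⁻) / r = v D(q⁻) + q⁻ (D v)⁻` (as `(D v)⁻ = (v - v⁻) / r`, `sm_DD`).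
`E_θ = A X_θ + B D X_θ - D(q⁻)` (`p1_cmp` with `G = p1 lam`, `p2 (p1 lam) = p1 (p2 lam)`, `p1_DD`,
`p1_sm`).  So `Lin y = v E_θ + B X_θ⁺ D v - q⁻ (D v)⁻ - D(c⁻)`.  Multiply by `X_θ`:
`D((X_θ c)⁻) = (X_θ c - X_θ⁻ c⁻) / r = X_θ D(c⁻) + c⁻ (D X_θ)⁻`, and
`c⁻ = C⁻ X_θ (D v)⁻`, `q⁻ = B⁻ X_θ⁻ + C⁻ (D X_θ)⁻`, hence
`X_θ Lin y = v X_θ E_θ + B X_θ X_θ⁺ D v - X_θ B⁻ X_θ⁻ (D v)⁻ - D((X_θ c)⁻)
           = v X_θ E_θ + r D((B X_θ X_θ⁺ D v)⁻) - D((C X_θ X_θ⁺ D v)⁻)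
           = v X_θ E_θ - D((a D v)⁻)`.
In Lean: get the values of the derivatives (`E_θ`) first, then unfold `Lin`, `DD`, `sm`, `sh`, `af`,
`NOne.cmp` at the points `θ`, `θ ± ρ` (`θ + ρ - ρ = θ`, `θ - ρ + ρ = θ`), name the finitely many
values
and finish with `field_simp; ring`.
-/

set_option autoImplicit false

namespace Pool.Agent.DC

open Pool.Agent.NOne

open Complex Set MeasureTheory

variable {σ M r b δ s : ℝ} {lam X : ℂ → ℂ → ℂ} {θ t : ℂ}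

private lemma idb_rs (hp : Par σ M r b δ s) : r * (2 * s) ≤ δ / 8 := by
  have h1 := hp.rs
  have h2 := hp.δ_pos
  nlinarith

theorem I3 (hp : Par σ M r b δ s) (hl : LC σ M r lam) (hX : SC r lam X b δ s)
    (hθ : |θ.im| < 5 / 4 * δ) (ht : t ∈ UU (2 * s)) :
    af r lam X θ t * (1 + DD r (uf X) θ t) = sh r (Jf r lam X) θ t := by
  obtain ⟨-, -, g3, -, g5, g6⟩ := hl.holR hp.σ_pos
  have hr0 : (r : ℂ) ≠ 0 := by exact_mod_cast hp.r_pos.ne'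
  have h6 := hp.δ_pos
  have h7 := idb_rs hp
  have hθ2 : |θ.im| < 3 / 2 * δ := by linarith
  have hθ3 : |θ.im| < 2 * δ := by linarith
  have hθp : |(θ + r * (1 + t)).im| < 11 / 8 * δ := shift_im_lt hp.r_pos.le hθ ht (by linarith)
  have hθp2 : |(θ + r * (1 + t)).im| < 2 * δ := by linarith
  have hm : Hol (3 / 2 * δ) (2 * s) (mo r lam X) := hol_cmp hp hX g3
  have e1 := p1_cmp hp hX g3 hθ2 ht
  have e2 := p2_cmp hp hX g3 hθ2 ht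
  have e3 : p1 (Pm r lam X) (θ + r * (1 + t)) t = p1 (mo r lam X) θ t := by
    have := p1_sm r (mo r lam X) (θ + r * (1 + t)) t
    rw [sm, add_sub_cancel_right] at this
    exact this
  have e4 : p2 (Pm r lam X) (θ + r * (1 + t)) t =
      p2 (mo r lam X) θ t - r * p1 (mo r lam X) θ t := by
    have := p2_sm (δ' := 11 / 8 * δ) hm hp.r_pos.le (by linarith) hθp ht
    rw [sm, sm, add_sub_cancel_right] at this
    exact this
  have n1 := (p1_X_bounds hp hX hθ3 ht).2.2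
  have n2 := (p1_X_bounds hp hX hθp2 ht).2.2
  have e5 : p1 (mo r lam X) θ t = _ := e1
  have e6 : p2 (mo r lam X) θ t = _ := e2
  simp only [Jf, sh, af, uf, DD] at e5 e6 ⊢
  rw [e3, e4, e5, e6]
  generalize NOne.cmp r (p2 (p2 lam)) X θ t = C
  generalize NOne.cmp r (p1 (p2 lam)) X θ t = B
  generalize hx1 : p1 X θ t = x1 at n1 ⊢
  generalize hx1p : p1 X (θ + r * (1 + t)) t = x1p at n2 ⊢
  generalize p2 X θ t = x2
  generalize p2 X (θ + r * (1 + t)) t = x2p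
  field_simp
  ring

theorem I4 (hp : Par σ M r b δ s) (hl : LC σ M r lam) (hX : SC r lam X b δ s)
    (hθ : |θ.im| < δ) (ht : t ∈ UU (2 * s)) (v : ℂ → ℂ → ℂ) :
    p1 X θ t * Lin r lam X (fun θ t => p1 X θ t * v θ t) θ t =
      v θ t * p1 X θ t * p1 (Er r lam X) θ t -
        DD r (sm r fun θ t => af r lam X θ t * DD r v θ t) θ t := by
  obtain ⟨-, g2, g3, -, g5, g6⟩ := hl.holR hp.σ_pos
  have hr0 : (r : ℂ) ≠ 0 := by exact_mod_cast hp.r_pos.ne'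
  have h6 := hp.δ_pos
  have h7 := idb_rs hp
  have hθ2 : |θ.im| < 3 / 2 * δ := by linarith
  have hθm : |(θ - r * (1 + t)).im| < 3 / 2 * δ :=
    shift_im_lt' hp.r_pos.le hθ ht (by linarith)
  have a1 : HasDerivAt (fun z => NOne.cmp r (p1 lam) X z t) (p1 (NOne.cmp r (p1 lam) X) θ t) θ :=
    (hol_cmp hp hX g2).hasDerivAt1 hθ2 ht
  have a2 : Hol (5 / 4 * δ) (2 * s) (Pm r lam X) := (hol_Pm hp hl hX).1
  have a3 : HasDerivAt (fun z => DD r (Pm r lam X) z t) (p1 (DD r (Pm r lam X)) θ t) θ :=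
    (a2.hol_DD (δ' := 9 / 8 * δ) hp.r_pos.le (by linarith)).hasDerivAt1 (by linarith) ht
  have a4 : p1 (Er r lam X) θ t = p1 (NOne.cmp r (p1 lam) X) θ t - p1 (DD r (Pm r lam X)) θ t :=
    (a1.sub a3).deriv
  have a5 : p1 (DD r (Pm r lam X)) θ t = DD r (p1 (Pm r lam X)) θ t :=
    p1_DD (δ' := 9 / 8 * δ) a2 hp.r_pos.le (by linarith) (by linarith) ht
  have e3 : p1 (Pm r lam X) (θ + r * (1 + t)) t = p1 (mo r lam X) θ t := by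
    have := p1_sm r (mo r lam X) (θ + r * (1 + t)) t
    rw [sm, add_sub_cancel_right] at this
    exact this
  have e3' : p1 (Pm r lam X) θ t = p1 (mo r lam X) (θ - r * (1 + t)) t :=
    p1_sm r (mo r lam X) θ t
  have e1 : p1 (mo r lam X) θ t = _ := p1_cmp hp hX g3 hθ2 ht
  have e2 : p1 (mo r lam X) (θ - r * (1 + t)) t = _ := p1_cmp hp hX g3 hθm ht
  have e4 := p1_cmp hp hX g2 hθ2 ht
  have e5 : NOne.cmp r (p2 (p1 lam)) X θ t = NOne.cmp r (p1 (p2 lam)) X θ t :=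
    (hl.schwarz hp.σ_pos (mem_RR hp hX hθ2 ht)).symm
  rw [e5] at e4
  rw [a4, a5, e4]
  simp only [DD, sub_add_cancel] at e1 e2
  simp only [Lin, af, DD, sm, sh, e3, e3', add_sub_cancel_right, sub_add_cancel]
  rw [e1, e2]
  generalize NOne.cmp r (p1 (p1 lam)) X θ t = A
  generalize NOne.cmp r (p2 (p2 lam)) X θ t = C
  generalize NOne.cmp r (p1 (p2 lam)) X θ t = B
  generalize NOne.cmp r (p2 (p2 lam)) X (θ - r * (1 + t)) t = Cm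
  generalize NOne.cmp r (p1 (p2 lam)) X (θ - r * (1 + t)) t = Bm
  generalize p1 X θ t = x1
  generalize p1 X (θ + r * (1 + t)) t = x1p
  generalize p1 X (θ - r * (1 + t)) t = x1m
  generalize v θ t = v0
  generalize v (θ + r * (1 + t)) t = vp
  generalize v (θ - r * (1 + t)) t = vm
  field_simp
  ring

end Pool.Agent.DC
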