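import Pool.Agent.DC.CIda
import Pool.Agent.NOne.KFou

/-!
# MP_74f563_an, n = 2 (after the n = 1 file K), file CJ: the identities (J1), (J2), (J3)

`H = Hf = w_θ + c - P X_θ` (`c = ch = (avg Sg)_t`), `K = Kf = w_t - P X_t`,
`Z = Sg - avg Sg - D w`, `τ = ta = c_t`.  All points used are in `|Im| < δ` (shifts by `|Im ρ| ≤ r s
≤ δ / 65536`), where `w`, `X`, `P` are holomorphic.

PROOFS.
`hol_Zf`, `hol_Hf`: closure properties (`hol_Sg`, `hol_Pm`, `hol_ta`, `Hol.hol_p1`, ...).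
(J1): `D H = D(w_θ) - D(P X_θ)` (`DD_of_t`), `D(w_θ) = (D w)_θ` (`p1_DD`),
`Z_θ = Sg_θ - (D w)_θ`, and `Sg_θ = D(P X_θ) + E X_θ` (`I1`); so `D H = E X_θ - Z_θ`.
(J2): `D K = D(w_t) - D(P X_t)`, `(D w)_t = D(w_t) + w_θ⁺` (`p2_DD`), `Z_t = Sg_t - c - (D w)_t`
(`hasDerivAt` of `avg Sg`), `Sg_t = D(P X_t) + E X_t + (P X_θ)⁺` (`I2`).  So
`D K = (D w)_t - w_θ⁺ - Sg_t + E X_t + (P X_θ)⁺ = -c - Z_t - w_θ⁺ + (P X_θ)⁺ + E X_t
 = E X_t - H⁺ - Z_t`.
(J3): `K_θ - H_t = w_tθ - P_θ X_t - P X_tθ - w_θt - τ + P_t X_θ + P X_θt = J - τ` (`Hol.schwarz` for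
`w` and `X`).
`avg_Zf`: `avg_sub`, `avg_of_t`, `avg_DD`.
`avg_Hf`: the mean of (J2) over `θ`: `0 = avg(E X_t) - avg(H⁺) - avg(Z_t)`, `avg(H⁺) = avg H`
(`avg_sh`), `avg(Z_t) = (avg Z)_t = 0` (`avg_p2`; `avg Z = 0` on the open set `UU s`).
-/

set_option autoImplicit false

namespace Pool.Agent.DC

open Pool.Agent.NOne

open Complex Set MeasureTheory
open scoped ComplexConjugate

variable {σ M r b δ s : ℝ} {lam X w : ℂ → ℂ → ℂ} {θ t : ℂ}

private theorem kj_rs (hp : Par σ M r b δ s) : δ / 2 + r * s ≤ δ ∧ r * s ≤ δ / 2 := by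
  have h1 := hp.rs
  have h2 : 0 ≤ r * s := mul_nonneg hp.r_pos.le hp.s_pos.le
  have h3 := hp.δ_pos
  constructor <;> linarith

private theorem kj_sub (hp : Par σ M r b δ s) : UU s ⊆ UU (2 * s) :=
  UU_mono (by have := hp.s_pos; linarith)

private theorem kj_hSg (hp : Par σ M r b δ s) (hl : LC σ M r lam) (hX : SC r lam X b δ s) :
    Hol δ s (Sg r lam X) :=
  (hol_Sg hp hl hX).1.mono (by have := hp.δ_pos; linarith) (by have := hp.s_pos; linarith)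

private theorem kj_hPm (hp : Par σ M r b δ s) (hl : LC σ M r lam) (hX : SC r lam X b δ s) :
    Hol δ s (Pm r lam X) :=
  (hol_Pm hp hl hX).1.mono (by have := hp.δ_pos; linarith) (by have := hp.s_pos; linarith)

private theorem kj_hEr (hp : Par σ M r b δ s) (hl : LC σ M r lam) (hX : SC r lam X b δ s) :
    Hol δ s (Er r lam X) :=
  (hol_Er hp hl hX).1.mono (by have := hp.δ_pos; linarith) (by have := hp.s_pos; linarith)

private theorem kj_hX (hp : Par σ M r b δ s) (hX : SC r lam X b δ s) : Hol δ s X :=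
  hX.hol.mono (by have := hp.δ_pos; linarith) (by have := hp.s_pos; linarith)

private theorem kj_hDw (hp : Par σ M r b δ s) (hw : ∀ δ' : ℝ, Hol δ' s w) : Hol δ s (DD r w) :=
  (hw (δ + r * s)).hol_DD hp.r_pos.le le_rfl

private theorem kj_hH (hp : Par σ M r b δ s) (hl : LC σ M r lam) (hX : SC r lam X b δ s)
    (hw : ∀ δ' : ℝ, Hol δ' s w) : Hol δ s (Hf r lam X w) :=
  ((hw δ).hol_p1.add (hol_of_UU ((hol_ta hp hl hX).1.mono (kj_sub hp)))).sub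
    ((kj_hPm hp hl hX).mul (kj_hX hp hX).hol_p1)

private theorem kj_hK (hp : Par σ M r b δ s) (hl : LC σ M r lam) (hX : SC r lam X b δ s)
    (hw : ∀ δ' : ℝ, Hol δ' s w) : Hol δ s (Kf r lam X w) :=
  (hw δ).hol_p2.sub ((kj_hPm hp hl hX).mul (kj_hX hp hX).hol_p2)

private theorem kj_pH (hp : Par σ M r b δ s) (hl : LC σ M r lam) (hX : SC r lam X b δ s)
    (hwP : Per w) : Per (Hf r lam X w) := by
  intro θ t
  simp only [Hf]
  rw [per_p1 hwP, (hol_Pm hp hl hX).2.2.1, per_p1_X hX]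

private theorem kj_pK (hp : Par σ M r b δ s) (hl : LC σ M r lam) (hX : SC r lam X b δ s)
    (hwP : Per w) : Per (Kf r lam X w) := by
  intro θ t
  simp only [Kf]
  rw [per_p2 hwP, (hol_Pm hp hl hX).2.2.1, per_p2_X hX]

private theorem kj_th (hp : Par σ M r b δ s) (hθ : |θ.im| < δ / 2) :
    |θ.im| < δ ∧ |θ.im| < 3 / 2 * δ := by
  have h3 := hp.δ_pos
  constructor <;> linarith

theorem hol_Zf (hp : Par σ M r b δ s) (hl : LC σ M r lam) (hX : SC r lam X b δ s)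
    (hw : ∀ δ' : ℝ, Hol δ' s w) (hwP : Per w) :
    Hol δ s (Zf r lam X w) ∧ Per (Zf r lam X w) := by
  refine ⟨((kj_hSg hp hl hX).sub (hol_of_UU (avg_hol (kj_hSg hp hl hX) hp.δ_pos))).sub
    (kj_hDw hp hw), ?_⟩
  intro θ t
  simp only [Zf]
  rw [(hol_Sg hp hl hX).2.2.1, per_DD hwP]

theorem hol_Hf (hp : Par σ M r b δ s) (hl : LC σ M r lam) (hX : SC r lam X b δ s)
    (hw : ∀ δ' : ℝ, Hol δ' s w) (hwP : Per w) :
    Hol δ s (Hf r lam X w) ∧ Per (Hf r lam X w) ∧ True :=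
  ⟨kj_hH hp hl hX hw, kj_pH hp hl hX hwP, trivial⟩

theorem hol_Kf (hp : Par σ M r b δ s) (hl : LC σ M r lam) (hX : SC r lam X b δ s)
    (hw : ∀ δ' : ℝ, Hol δ' s w) (hwP : Per w) :
    Hol δ s (Kf r lam X w) ∧ Per (Kf r lam X w) ∧ True :=
  ⟨kj_hK hp hl hX hw, kj_pK hp hl hX hwP, trivial⟩

theorem J1 (hp : Par σ M r b δ s) (hl : LC σ M r lam) (hX : SC r lam X b δ s)
    (hw : ∀ δ' : ℝ, Hol δ' s w) (hθ : |θ.im| < δ / 2) (ht : t ∈ UU s) :
    DD r (Hf r lam X w) θ t = Er r lam X θ t * p1 X θ t - p1 (Zf r lam X w) θ t := by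
  have h1 : DD r (Hf r lam X w) θ t =
      DD r (p1 w) θ t - DD r (fun θ t => Pm r lam X θ t * p1 X θ t) θ t := by
    simp only [DD, Hf]
    ring
  obtain ⟨hθ1, hθ2⟩ := kj_th hp hθ
  have h2 : p1 (Zf r lam X w) θ t = p1 (Sg r lam X) θ t - p1 (DD r w) θ t :=
    ((((kj_hSg hp hl hX).hasDerivAt1 hθ1 ht).sub_const (avg (Sg r lam X) t)).sub
      ((kj_hDw hp hw).hasDerivAt1 hθ1 ht)).deriv
  have h3 := p1_DD (hw (δ + r * s)) hp.r_pos.le le_rfl hθ1 ht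
  have h4 := I1 hp hl hX hθ2 (kj_sub hp ht)
  rw [h1, h2, h3, h4]
  ring

theorem J2 (hp : Par σ M r b δ s) (hl : LC σ M r lam) (hX : SC r lam X b δ s)
    (hw : ∀ δ' : ℝ, Hol δ' s w) (hθ : |θ.im| < δ / 2) (ht : t ∈ UU s) :
    DD r (Kf r lam X w) θ t = Er r lam X θ t * p2 X θ t - sh r (Hf r lam X w) θ t -
      p2 (Zf r lam X w) θ t := by
  have h1 : DD r (Kf r lam X w) θ t =
      DD r (p2 w) θ t - DD r (fun θ t => Pm r lam X θ t * p2 X θ t) θ t := by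
    simp only [DD, Kf]
    ring
  obtain ⟨hθ1, hθ2⟩ := kj_th hp hθ
  have hA : HasDerivAt (avg (Sg r lam X)) (ch r lam X t) t :=
    ((avg_hol (kj_hSg hp hl hX) hp.δ_pos).differentiableAt
      ((isOpen_UU s).mem_nhds ht)).hasDerivAt
  have h2 : p2 (Zf r lam X w) θ t = p2 (Sg r lam X) θ t - ch r lam X t - p2 (DD r w) θ t :=
    ((((kj_hSg hp hl hX).hasDerivAt2 hθ1 ht).sub hA).sub
      ((kj_hDw hp hw).hasDerivAt2 hθ1 ht)).deriv
  have h3 := p2_DD (hw (δ + r * s)) hp.r_pos le_rfl hθ1 ht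
  have h4 := I2 hp hl hX hθ2 (kj_sub hp ht)
  have h5 : sh r (Hf r lam X w) θ t = sh r (p1 w) θ t + ch r lam X t -
      sh r (fun θ t => Pm r lam X θ t * p1 X θ t) θ t := rfl
  rw [h1, h2, h3, h4, h5]
  ring

theorem J3 (hp : Par σ M r b δ s) (hl : LC σ M r lam) (hX : SC r lam X b δ s)
    (hw : ∀ δ' : ℝ, Hol δ' s w) (hθ : |θ.im| < δ / 2) (ht : t ∈ UU s) :
    Jf r lam X θ t = ta r lam X t + p1 (Kf r lam X w) θ t - p2 (Hf r lam X w) θ t := by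
  obtain ⟨hθ1, hθ2⟩ := kj_th hp hθ
  have hC : HasDerivAt (ch r lam X) (ta r lam X t) t :=
    ((hol_ta hp hl hX).1.differentiableAt
      ((isOpen_UU (2 * s)).mem_nhds (kj_sub hp ht))).hasDerivAt
  have h1 : p1 (Kf r lam X w) θ t = p1 (p2 w) θ t -
      (p1 (Pm r lam X) θ t * p2 X θ t + Pm r lam X θ t * p1 (p2 X) θ t) :=
    (((hw δ).hol_p2.hasDerivAt1 hθ1 ht).sub
      (((kj_hPm hp hl hX).hasDerivAt1 hθ1 ht).mul
        ((kj_hX hp hX).hol_p2.hasDerivAt1 hθ1 ht))).deriv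
  have h2 : p2 (Hf r lam X w) θ t = p2 (p1 w) θ t + ta r lam X t -
      (p2 (Pm r lam X) θ t * p1 X θ t + Pm r lam X θ t * p2 (p1 X) θ t) :=
    ((((hw δ).hol_p1.hasDerivAt2 hθ1 ht).add hC).sub
      (((kj_hPm hp hl hX).hasDerivAt2 hθ1 ht).mul
        ((kj_hX hp hX).hol_p1.hasDerivAt2 hθ1 ht))).deriv
  have h3 := (hw δ).schwarz hθ1 ht
  have h4 := (kj_hX hp hX).schwarz hθ1 ht
  rw [h1, h2, h3, h4]
  simp only [Jf]
  ring

theorem avg_Zf (hp : Par σ M r b δ s) (hl : LC σ M r lam) (hX : SC r lam X b δ s)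
    (hw : ∀ δ' : ℝ, Hol δ' s w) (hwP : Per w) (ht : t ∈ UU s) : avg (Zf r lam X w) t = 0 := by
  have hS := kj_hSg hp hl hX
  have hA : Hol δ s fun _ t => avg (Sg r lam X) t := hol_of_UU (avg_hol hS hp.δ_pos)
  have h1 := avg_sub (hS.sub hA) (kj_hDw hp hw) hp.δ_pos ht
  have h2 := avg_sub hS hA hp.δ_pos ht
  have h3 := avg_of_t (avg (Sg r lam X)) t
  have h4 := avg_DD (hw δ) hp.δ_pos hwP hp.r_pos.le
    ((kj_rs hp).2.trans (by have := hp.δ_pos; linarith)) ht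
  have h5 : avg (Zf r lam X w) t =
      avg (fun θ t => (Sg r lam X θ t - avg (Sg r lam X) t) - DD r w θ t) t := rfl
  rw [h5, h1, h4]
  have h6 : avg (fun θ t => Sg r lam X θ t - avg (Sg r lam X) t) t = 0 := by
    rw [h2, h3, sub_self]
  rw [h6, sub_zero]

theorem avg_Hf (hp : Par σ M r b δ s) (hl : LC σ M r lam) (hX : SC r lam X b δ s)
    (hw : ∀ δ' : ℝ, Hol δ' s w) (hwP : Per w) (ht : t ∈ UU s) :
    avg (Hf r lam X w) t = avg (fun θ t => Er r lam X θ t * p2 X θ t) t := by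
  have hδ2 : 0 < δ / 2 := by
    have := hp.δ_pos
    linarith
  have hle : δ / 2 ≤ δ := by linarith
  have hH := kj_hH hp hl hX hw
  have hK := kj_hK hp hl hX hw
  have hshH : Hol (δ / 2) s (sh r (Hf r lam X w)) := hH.hol_sh hp.r_pos.le (kj_rs hp).1
  have hE2 : Hol (δ / 2) s fun θ t => Er r lam X θ t * p2 X θ t :=
    ((kj_hEr hp hl hX).mul (kj_hX hp hX).hol_p2).mono hle le_rfl
  obtain ⟨hZ, hZP⟩ := hol_Zf hp hl hX hw hwP
  have hZ2 : Hol (δ / 2) s (p2 (Zf r lam X w)) := hZ.hol_p2.mono hle le_rfl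
  have hrs : r * s ≤ δ := (kj_rs hp).2.trans hle
  have h1 : avg (DD r (Kf r lam X w)) t = 0 :=
    avg_DD hK hp.δ_pos (kj_pK hp hl hX hwP) hp.r_pos.le hrs ht
  have h2 : avg (DD r (Kf r lam X w)) t = avg (fun θ t => Er r lam X θ t * p2 X θ t -
      sh r (Hf r lam X w) θ t - p2 (Zf r lam X w) θ t) t := by
    simp only [avg]
    refine intervalIntegral.integral_congr fun x _ => ?_
    refine J2 hp hl hX hw ?_ ht
    simpa using hδ2
  have h3 := avg_sub (hE2.sub hshH) hZ2 hδ2 ht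
  have h4 := avg_sub hE2 hshH hδ2 ht
  have h5 := avg_sh hH hp.δ_pos (kj_pH hp hl hX hwP) hp.r_pos.le hrs ht
  have h6 : avg (p2 (Zf r lam X w)) t = 0 := by
    rw [avg_p2 hZ hp.δ_pos ht]
    have h7 : avg (Zf r lam X w) =ᶠ[nhds t] fun _ => (0 : ℂ) := by
      filter_upwards [(isOpen_UU s).mem_nhds ht] with z hz
      exact avg_Zf hp hl hX hw hwP hz
    rw [h7.deriv_eq]
    exact deriv_const t (0 : ℂ)
  rw [h1, h3, h4, h5, h6, sub_zero] at h2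
  exact (sub_eq_zero.1 h2.symm).symm

end Pool.Agent.DC
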