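import Pool.Agent.DC.EBas
import Pool.Agent.NOne.KAvg
import Pool.Agent.MEP.SCV

/-!
# MP_74f563_an, n = 2, engine with parameter, file EAvg: averages and Fourier coefficients

PROOF.  `avg (F e) t = ∫_0^1 F e x t dx`; the integrand is continuous in `x ∈ [0, 1]` and
holomorphic in
`(e, t) ∈ V × UU s`.  Differentiate under the integral sign near a point `(e₀, t₀)`
(`hasFDerivAt_integral_of_dominated_of_fderiv_le`, with the derivative in `(e, t)`, which is
continuous,
hence bounded on the compact set `[0, 1] × closedBall (e₀, t₀) r`), as in the proof of `avg_hol` /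
`cf_hol` in `NOne/KAvg.lean` (the same argument with one more variable; see also
`Pool/Agent/LRig` for the same statement in several variables).  `cf l (F e) t = ∫_0^1 F e x t
e^{-2πilx} dx` is the average of the family `F e θ t e^{-2πilθ}`, also holomorphic on the strip.
-/

set_option autoImplicit false

namespace Pool.Agent.DC

open Pool.Agent.NOne Complex Set MeasureTheory
open scoped ComplexConjugate

variable {V : Set ℂ} {δ s : ℝ} {F : ℂ → ℂ → ℂ → ℂ}

/-- differentiation under the integral sign with respect to several complex variables -/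
private theorem eavg_diff {E : Type*} [NormedAddCommGroup E] [NormedSpace ℂ E]
    [FiniteDimensional ℂ E] {W : Set (ℂ × E)} (hW : IsOpen W) {f : ℂ × E → ℂ}
    (hf : DifferentiableOn ℂ f W) {q₀ : E} (hq : ∀ x ∈ Icc (0 : ℝ) 1, ((x : ℂ), q₀) ∈ W) :
    DifferentiableAt ℂ (fun q : E => ∫ x in (0 : ℝ)..1, f ((x : ℂ), q)) q₀ := by
  have hprop : ProperSpace E := FiniteDimensional.proper ℂ E
  have hfd := Pool.Agent.MEP.continuousOn_fderiv_of_differentiableOn hW hf
  have hK : IsCompact ((fun x : ℝ => (x : ℂ)) '' Icc (0 : ℝ) 1) :=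
    isCompact_Icc.image continuous_ofReal
  have hsub : ((fun x : ℝ => (x : ℂ)) '' Icc (0 : ℝ) 1) ×ˢ ({q₀} : Set E) ⊆ W := by
    rintro ⟨a, b⟩ ⟨⟨x, hx, hxa⟩, hb⟩
    simp only [mem_singleton_iff] at hb
    subst hb
    simp only at hxa
    subst hxa
    exact hq x hx
  obtain ⟨u, v, -, hv, hu, hqv, huv⟩ := generalized_tube_lemma hK isCompact_singleton hW hsub
  have hqv' : q₀ ∈ v := hqv (mem_singleton q₀)
  obtain ⟨ε, hε, hεv⟩ := Metric.nhds_basis_closedBall.mem_iff.1 (hv.mem_nhds hqv')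
  have hin : ∀ x ∈ Icc (0 : ℝ) 1, ∀ z ∈ Metric.closedBall q₀ ε, ((x : ℂ), z) ∈ W := by
    intro x hx z hz
    exact huv ⟨hu ⟨x, hx, rfl⟩, hεv hz⟩
  have hKK : IsCompact (((fun x : ℝ => (x : ℂ)) '' Icc (0 : ℝ) 1) ×ˢ Metric.closedBall q₀ ε) :=
    hK.prod (isCompact_closedBall q₀ ε)
  have hKW : ((fun x : ℝ => (x : ℂ)) '' Icc (0 : ℝ) 1) ×ˢ Metric.closedBall q₀ ε ⊆ W := by
    rintro ⟨a, b⟩ ⟨⟨x, hx, hxa⟩, hb⟩
    simp only at hxa
    subst hxa
    exact hin x hx b hb
  have hg : ContinuousOn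
      (fun w : ℂ × E => (fderiv ℂ f w).comp (ContinuousLinearMap.inr ℂ ℂ E)) W :=
    hfd.clm_comp continuousOn_const
  obtain ⟨C, hC⟩ := hKK.exists_bound_of_continuousOn (hg.mono hKW)
  have hx : ∀ z ∈ Metric.closedBall q₀ ε,
      ContinuousOn (fun x : ℝ => f ((x : ℂ), z)) (Icc (0 : ℝ) 1) := by
    intro z hz
    refine hf.continuousOn.comp (by fun_prop) ?_
    intro x hx
    exact hin x hx z hz
  have hx' : ContinuousOn (fun x : ℝ => (fderiv ℂ f ((x : ℂ), q₀)).comp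
      (ContinuousLinearMap.inr ℂ ℂ E)) (Icc (0 : ℝ) 1) := by
    refine hg.comp (f := fun x : ℝ => ((x : ℂ), q₀)) (by fun_prop) ?_
    intro x hx
    exact hq x hx
  have hu1 : ∀ x : ℝ, x ∈ uIoc (0 : ℝ) 1 → x ∈ Icc (0 : ℝ) 1 := by
    intro x hx
    rw [uIoc_of_le zero_le_one] at hx
    exact Ioc_subset_Icc_self hx
  refine (intervalIntegral.hasFDerivAt_integral_of_dominated_of_fderiv_le
    (F := fun z (x : ℝ) => f ((x : ℂ), z))
    (F' := fun z (x : ℝ) => (fderiv ℂ f ((x : ℂ), z)).comp (ContinuousLinearMap.inr ℂ ℂ E))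
    (bound := fun _ => C) (Metric.closedBall_mem_nhds q₀ hε) ?_ ?_ ?_ ?_ ?_ ?_).differentiableAt
  · filter_upwards [Metric.closedBall_mem_nhds q₀ hε] with z hz
    exact ((hx z hz).mono hu1).aestronglyMeasurable measurableSet_uIoc
  · refine ContinuousOn.intervalIntegrable ?_
    rw [uIcc_of_le zero_le_one]
    exact hx q₀ (Metric.mem_closedBall_self hε.le)
  · exact (hx'.mono hu1).aestronglyMeasurable measurableSet_uIoc
  · refine Filter.Eventually.of_forall fun x hx z hz => ?_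
    exact hC (x, z) ⟨⟨x, hu1 x hx, rfl⟩, hz⟩
  · exact intervalIntegrable_const
  · refine Filter.Eventually.of_forall fun x hx z hz => ?_
    have h1 : HasFDerivAt f (fderiv ℂ f ((x : ℂ), z)) ((x : ℂ), z) :=
      ((hf _ (hin x (hu1 x hx) z hz)).differentiableAt
        (hW.mem_nhds (hin x (hu1 x hx) z hz))).hasFDerivAt
    have h2 : HasFDerivAt (fun w : E => ((x : ℂ), w)) (ContinuousLinearMap.inr ℂ ℂ E) z :=
      hasFDerivAt_prodMk_right (x : ℂ) z
    exact h1.comp z h2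

theorem HE.havg (hV : IsOpen V) (hF : HE V δ s F) (hδ : 0 < δ) :
    HT V s fun e => avg (F e) := by
  rintro ⟨e, t⟩ ⟨he, ht⟩
  have hW : IsOpen {w : ℂ × ℂ × ℂ | (w.2.1, w.1, w.2.2) ∈ V ×ˢ Om δ s} :=
    (hV.prod (isOpen_Om δ s)).preimage (by fun_prop)
  have hf : DifferentiableOn ℂ (fun w : ℂ × ℂ × ℂ => F w.2.1 w.1 w.2.2)
      {w : ℂ × ℂ × ℂ | (w.2.1, w.1, w.2.2) ∈ V ×ˢ Om δ s} := by
    have h1 : DifferentiableOn ℂ (fun w : ℂ × ℂ × ℂ => (w.2.1, w.1, w.2.2))
        {w : ℂ × ℂ × ℂ | (w.2.1, w.1, w.2.2) ∈ V ×ˢ Om δ s} := by fun_prop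
    exact DifferentiableOn.comp (g := fun q : ℂ × ℂ × ℂ => F q.1 q.2.1 q.2.2) hF h1
      fun w hw => hw
  have h2 := eavg_diff (q₀ := (e, t)) hW hf ?_
  · exact h2.differentiableWithinAt
  · intro x _
    refine ⟨he, ?_, ht⟩
    simpa using hδ

theorem HE.hcf (hV : IsOpen V) (hF : HE V δ s F) (hδ : 0 < δ) (l : ℤ) :
    HT V s fun e => cf l (F e) := by
  have h1 : Hol δ s fun θ _ => exp (-(2 * Real.pi * I * l * θ)) := by
    refine hol_of_strip (g := fun θ => exp (-(2 * Real.pi * I * l * θ))) ?_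
    fun_prop
  exact HE.havg hV (hF.mul (HE.of_Hol h1)) hδ

end Pool.Agent.DC
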