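import Pool.Agent.DC.CFam
import Pool.Agent.NOne.KHol

/-!
# MP_74f563_an, n = 2, engine with parameter, file EBas: calculus of the families

PROOFS.  `HE V δ s F` says that `q ↦ F q.1 q.2.1 q.2.2` is complex differentiable on
`V ×ˢ Om δ s`.  The closure properties are those of `DifferentiableOn`; `slice`: composition with
`q ↦ (e, q)`.  The theorem `HE.hp1` (and `HE.hp2`, `HG.hp1`, `HG.hp2`, `HT.hderiv`): all are
special cases
of: if `f : E → ℂ` (`E` a finite dimensional complex space) is differentiable on the open set `W`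
then
so is `x ↦ fderiv ℂ f x v` for every `v` (this is the private theorem `kh_dir` in
`NOne/KHol.lean`, copy its proof with the name `ebas_dir`), because for `(e, q) ∈ V ×ˢ Om δ s` we
have
`p1 (F e) q.1 q.2 = deriv (fun z => F e z q.2) q.1 = fderiv ℂ f (e, q) (0, 1, 0)` (chain rule) and
`p2 (F e) q.1 q.2 = fderiv ℂ f (e, q) (0, 0, 1)`.  `V ×ˢ Om δ s` is open (`isOpen_Om`).
`conj_joint`: if `f` is differentiable at `conj q` with the `ℂ`-linear derivative `L` then
`q ↦ conj (f (conj q))` has at `q` the `ℂ`-linear derivative `v ↦ conj (L (conj v))` (directly from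
the definition of the derivative: `HasFDerivAt.of_isLittleO` / the conjugation is an isometry,
additive).
-/

set_option autoImplicit false

namespace Pool.Agent.DC

open Pool.Agent.NOne Complex Set MeasureTheory
open scoped ComplexConjugate

variable {V W : Set ℂ} {δ s σ ρ : ℝ} {F G : ℂ → ℂ → ℂ → ℂ} {g h : ℂ → ℂ → ℂ}

section General

open Metric Filter Topology

variable {E : Type*} [NormedAddCommGroup E] [NormedSpace ℂ E] [FiniteDimensional ℂ E]

/-- directional derivatives of holomorphic functions are holomorphic -/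
private theorem ebas_dir {f : E → ℂ} {V : Set E} (hV : IsOpen V) (hf : DifferentiableOn ℂ f V)
    (v : E) : DifferentiableOn ℂ (fun x => fderiv ℂ f x v) V := by
  intro x0 hx0
  apply DifferentiableAt.differentiableWithinAt
  obtain ⟨r0, hr0, hball⟩ := Metric.isOpen_iff.mp hV x0 hx0
  set r := r0 / 4 with hr
  have hrpos : 0 < r := by positivity
  set ρ := r / (‖v‖ + 1) with hρ
  have hρpos : 0 < ρ := by positivity
  have hρv : ρ * ‖v‖ ≤ r := by
    rw [hρ, div_mul_eq_mul_div, div_le_iff₀ (by positivity)]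
    nlinarith [norm_nonneg v]
  have hK : closedBall x0 (2 * r) ⊆ V := by
    refine (closedBall_subset_ball ?_).trans hball
    rw [hr]; linarith
  have hmem : ∀ x ∈ ball x0 r, ∀ ζ ∈ closedBall (0 : ℂ) ρ, x + ζ • v ∈ V := by
    intro x hx ζ hζ
    apply hK
    rw [mem_closedBall, dist_eq_norm]
    rw [mem_ball, dist_eq_norm] at hx
    rw [mem_closedBall_zero_iff] at hζ
    calc ‖x + ζ • v - x0‖ = ‖(x - x0) + ζ • v‖ := by congr 1; abel
      _ ≤ ‖x - x0‖ + ‖ζ • v‖ := norm_add_le _ _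
      _ ≤ r + ρ * ‖v‖ := by
        rw [norm_smul]; gcongr
      _ ≤ 2 * r := by linarith
  have hformula : ∀ x ∈ ball x0 r, fderiv ℂ f x v =
      (2 * Real.pi * Complex.I : ℂ)⁻¹ * ∮ ζ in C(0, ρ), (ζ - 0)⁻¹ * (ζ⁻¹ * f (x + ζ • v)) := by
    intro x hx
    have hd : DifferentiableOn ℂ (fun ζ : ℂ => f (x + ζ • v)) (closedBall 0 ρ) := by
      intro ζ hζ
      have h1 : DifferentiableAt ℂ f (x + ζ • v) :=
        (hf _ (hmem x hx ζ hζ)).differentiableAt (hV.mem_nhds (hmem x hx ζ hζ))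
      have h2 : DifferentiableAt ℂ (fun ζ : ℂ => x + ζ • v) ζ := by fun_prop
      exact (h1.comp ζ h2).differentiableWithinAt
    have hder : deriv (fun ζ : ℂ => f (x + ζ • v)) 0 = fderiv ℂ f x v := by
      have h0 : x + (0 : ℂ) • v = x := by simp
      have h1 : HasFDerivAt f (fderiv ℂ f x) (x + (0 : ℂ) • v) := by
        rw [h0]
        have : x ∈ V := by simpa using hmem x hx 0 (by simp [hρpos.le])
        exact ((hf x this).differentiableAt (hV.mem_nhds this)).hasFDerivAt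
      have h2 : HasDerivAt (fun ζ : ℂ => x + ζ • v) v 0 := by
        simpa using ((hasDerivAt_id (0 : ℂ)).smul_const v).const_add x
      exact (h1.comp_hasDerivAt (0 : ℂ) h2).deriv
    have h3 := hd.deriv_eq_smul_circleIntegral hρpos
    rw [hder] at h3
    have h4 : (∮ ζ in C(0, ρ), (ζ - 0)⁻¹ * (ζ⁻¹ * f (x + ζ • v))) =
        ∮ z in C(0, ρ), (1 / (z - 0) ^ 2) • f (x + z • v) := by
      congr 1
      funext ζ
      rw [smul_eq_mul, one_div, sub_zero, pow_two, mul_inv, mul_assoc]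
    rw [h4, h3, smul_eq_mul, inv_mul_cancel_left₀]
    simp [Real.pi_ne_zero]
  have hev : (fun x => fderiv ℂ f x v) =ᶠ[𝓝 x0] fun x =>
      (2 * Real.pi * Complex.I : ℂ)⁻¹ * ∮ ζ in C(0, ρ), (ζ - 0)⁻¹ * (ζ⁻¹ * f (x + ζ • v)) := by
    filter_upwards [ball_mem_nhds x0 hrpos] with x hx using hformula x hx
  refine DifferentiableAt.congr_of_eventuallyEq ?_ hev
  apply DifferentiableAt.const_mul
  let g : ℂ × E → ℂ := fun w => w.1⁻¹ * f (w.2 + w.1 • v)
  let Q : Set (ℂ × E) := {w | w.1 ≠ 0} ∩ (fun w : ℂ × E => w.2 + w.1 • v) ⁻¹' V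
  have hQ : IsOpen Q := by
    refine IsOpen.inter ?_ (hV.preimage (by fun_prop))
    exact isOpen_ne_fun continuous_fst continuous_const
  have hg : DifferentiableOn ℂ g Q := by
    intro w hw
    apply DifferentiableAt.differentiableWithinAt
    have h1 : DifferentiableAt ℂ f (w.2 + w.1 • v) :=
      (hf _ hw.2).differentiableAt (hV.mem_nhds hw.2)
    have h2 : DifferentiableAt ℂ (fun w : ℂ × E => w.2 + w.1 • v) w := by fun_prop
    have h3 : DifferentiableAt ℂ (fun w : ℂ × E => w.1⁻¹) w :=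
      differentiableAt_fst.inv hw.1
    exact h3.mul (h1.comp w h2)
  have hsub : sphere (0 : ℂ) ρ ×ˢ ball x0 r ⊆ Q := by
    rintro w ⟨hw1, hw2⟩
    refine ⟨?_, hmem _ hw2 _ (sphere_subset_closedBall hw1)⟩
    rw [mem_sphere_zero_iff_norm] at hw1
    intro h0
    rw [h0, norm_zero] at hw1
    exact hρpos.ne hw1
  have hmain := Pool.Agent.MEP.differentiableOn_circleIntegral_param hρpos
    (isOpen_ball (x := x0) (ε := r)) hQ hg hsub
  have hx : ((0 : ℂ), x0) ∈ ball (0 : ℂ) ρ ×ˢ ball x0 r :=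
    ⟨mem_ball_self hρpos, mem_ball_self hrpos⟩
  have h1 := (hmain _ hx).differentiableAt ((isOpen_ball.prod isOpen_ball).mem_nhds hx)
  have h2 : DifferentiableAt ℂ (fun x : E => ((0 : ℂ), x)) x0 := by fun_prop
  exact h1.comp x0 h2

end General

private theorem ebas_p1 {q : ℂ × ℂ × ℂ}
    (h : DifferentiableAt ℂ (fun q : ℂ × ℂ × ℂ => F q.1 q.2.1 q.2.2) q) :
    p1 (F q.1) q.2.1 q.2.2 =
      fderiv ℂ (fun q : ℂ × ℂ × ℂ => F q.1 q.2.1 q.2.2) q (0, 1, 0) := by
  have h1 : HasDerivAt (fun z : ℂ => (q.1, z, q.2.2)) ((0 : ℂ), (1 : ℂ), (0 : ℂ)) q.2.1 :=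
    (hasDerivAt_const q.2.1 q.1).prodMk
      ((hasDerivAt_id q.2.1).prodMk (hasDerivAt_const q.2.1 q.2.2))
  have h2 : HasDerivAt (fun z => F q.1 z q.2.2)
      (fderiv ℂ (fun q : ℂ × ℂ × ℂ => F q.1 q.2.1 q.2.2) q (0, 1, 0)) q.2.1 :=
    HasFDerivAt.comp_hasDerivAt (f := fun z : ℂ => (q.1, z, q.2.2)) q.2.1 h.hasFDerivAt h1
  exact h2.deriv

private theorem ebas_p2 {q : ℂ × ℂ × ℂ}
    (h : DifferentiableAt ℂ (fun q : ℂ × ℂ × ℂ => F q.1 q.2.1 q.2.2) q) :
    p2 (F q.1) q.2.1 q.2.2 =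
      fderiv ℂ (fun q : ℂ × ℂ × ℂ => F q.1 q.2.1 q.2.2) q (0, 0, 1) := by
  have h1 : HasDerivAt (fun z : ℂ => (q.1, q.2.1, z)) ((0 : ℂ), (0 : ℂ), (1 : ℂ)) q.2.2 :=
    (hasDerivAt_const q.2.2 q.1).prodMk
      ((hasDerivAt_const q.2.2 q.2.1).prodMk (hasDerivAt_id q.2.2))
  have h2 : HasDerivAt (fun z => F q.1 q.2.1 z)
      (fderiv ℂ (fun q : ℂ × ℂ × ℂ => F q.1 q.2.1 q.2.2) q (0, 0, 1)) q.2.2 :=
    HasFDerivAt.comp_hasDerivAt (f := fun z : ℂ => (q.1, q.2.1, z)) q.2.2 h.hasFDerivAt h1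
  exact h2.deriv

private theorem ebas_general {S : Set (ℂ × ℂ × ℂ)} (hS : IsOpen S)
    (hF : DifferentiableOn ℂ (fun q : ℂ × ℂ × ℂ => F q.1 q.2.1 q.2.2) S) :
    DifferentiableOn ℂ (fun q : ℂ × ℂ × ℂ => p1 (F q.1) q.2.1 q.2.2) S ∧
    DifferentiableOn ℂ (fun q : ℂ × ℂ × ℂ => p2 (F q.1) q.2.1 q.2.2) S := by
  have hd : ∀ q ∈ S, DifferentiableAt ℂ (fun q : ℂ × ℂ × ℂ => F q.1 q.2.1 q.2.2) q :=
    fun q hq => (hF q hq).differentiableAt (hS.mem_nhds hq)
  exact ⟨(ebas_dir hS hF (0, 1, 0)).congr fun q hq => ebas_p1 (hd q hq),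
    (ebas_dir hS hF (0, 0, 1)).congr fun q hq => ebas_p2 (hd q hq)⟩

private theorem ebas_symm {δ s : ℝ} {q : ℂ × ℂ} (hq : q ∈ Om δ s) : star q ∈ Om δ s := by
  obtain ⟨h1, h2, h3⟩ := hq
  refine ⟨?_, ?_, ?_⟩
  · show |(conj q.1).im| < δ
    rw [conj_im, abs_neg]
    exact h1
  · show |(conj q.2).re| < 1 / 4 + s
    rw [conj_re]
    exact h2
  · show |(conj q.2).im| < s
    rw [conj_im, abs_neg]
    exact h3

theorem isOpen_DL (σ ρ : ℝ) : IsOpen (DL σ ρ) := by
  have h1 : Continuous fun q : ℂ × ℂ => |q.1.im| :=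
    (continuous_im.comp continuous_fst).abs
  have h2 : Continuous fun q : ℂ × ℂ => ‖q.2‖ := continuous_snd.norm
  exact (isOpen_lt h1 continuous_const).inter (isOpen_lt h2 continuous_const)

theorem HE.slice (hF : HE V δ s F) {e : ℂ} (he : e ∈ V) : Hol δ s (F e) := by
  have h1 : DifferentiableOn ℂ (fun q : ℂ × ℂ => (e, q)) (Om δ s) :=
    ((differentiable_const e).prodMk differentiable_id).differentiableOn
  exact DifferentiableOn.comp (g := fun q : ℂ × ℂ × ℂ => F q.1 q.2.1 q.2.2) hF h1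
    fun q hq => ⟨he, hq⟩

theorem HE.mono {δ' s' : ℝ} (hF : HE V δ s F) (hW : W ⊆ V) (hδ : δ' ≤ δ) (hs : s' ≤ s) :
    HE W δ' s' F := by
  exact DifferentiableOn.mono hF (prod_mono hW (Om_mono hδ hs))

theorem HE.congr (hF : HE V δ s F)
    (h : ∀ e ∈ V, ∀ θ t : ℂ, |θ.im| < δ → t ∈ UU s → G e θ t = F e θ t) : HE V δ s G := by
  exact DifferentiableOn.congr hF fun q hq => h q.1 hq.1 q.2.1 q.2.2 hq.2.1 hq.2.2

theorem HE.add (hF : HE V δ s F) (hG : HE V δ s G) :
    HE V δ s fun e θ t => F e θ t + G e θ t := by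
  exact DifferentiableOn.add hF hG

theorem HE.sub (hF : HE V δ s F) (hG : HE V δ s G) :
    HE V δ s fun e θ t => F e θ t - G e θ t := by
  exact DifferentiableOn.sub hF hG

theorem HE.mul (hF : HE V δ s F) (hG : HE V δ s G) :
    HE V δ s fun e θ t => F e θ t * G e θ t := by
  exact DifferentiableOn.mul hF hG

theorem HE.div (hF : HE V δ s F) (hG : HE V δ s G)
    (h0 : ∀ e ∈ V, ∀ θ t : ℂ, |θ.im| < δ → t ∈ UU s → G e θ t ≠ 0) :
    HE V δ s fun e θ t => F e θ t / G e θ t := by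
  intro q hq
  have h1 := hF q hq
  have h2 := hG q hq
  have h3 := h2.inv (h0 q.1 hq.1 q.2.1 q.2.2 hq.2.1 hq.2.2)
  have h4 := h1.mul h3
  exact h4.congr (fun x _ => div_eq_mul_inv _ _) (div_eq_mul_inv _ _)

theorem HE.sum {ι : Type*} {S : Finset ι} {f : ι → ℂ → ℂ → ℂ → ℂ}
    (h : ∀ i ∈ S, HE V δ s (f i)) : HE V δ s fun e θ t => ∑ i ∈ S, f i e θ t := by
  exact DifferentiableOn.fun_sum h

/-- families which do not depend on `e` -/
theorem HE.of_Hol {f : ℂ → ℂ → ℂ} (hf : Hol δ s f) : HE V δ s fun _ => f := by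
  exact DifferentiableOn.comp (g := fun q : ℂ × ℂ => f q.1 q.2) hf
    differentiable_snd.differentiableOn fun q hq => hq.2

/-- functions of `(e, t)` -/
theorem HE.of_HT (hg : HT V s g) : HE V δ s fun e _ t => g e t := by
  have h1 : DifferentiableOn ℂ (fun q : ℂ × ℂ × ℂ => (q.1, q.2.2)) (V ×ˢ Om δ s) :=
    (differentiable_fst.prodMk (differentiable_snd.comp differentiable_snd)).differentiableOn
  exact DifferentiableOn.comp (g := fun q : ℂ × ℂ => g q.1 q.2) hg h1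
    fun q hq => ⟨hq.1, hq.2.2⟩

theorem HE.hp1 (hV : IsOpen V) (hF : HE V δ s F) : HE V δ s fun e => p1 (F e) := by
  exact (ebas_general (hV.prod (isOpen_Om δ s)) hF).1

theorem HE.hp2 (hV : IsOpen V) (hF : HE V δ s F) : HE V δ s fun e => p2 (F e) := by
  exact (ebas_general (hV.prod (isOpen_Om δ s)) hF).2

/-- the reflection of a holomorphic family is holomorphic -/
theorem HE.refl (hV : ∀ e ∈ V, conj e ∈ V) (hVo : IsOpen V) (hF : HE V δ s F) :
    HE V δ s fun e => rf (F (conj e)) := by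
  intro q hq
  apply DifferentiableAt.differentiableWithinAt
  have hq' : star q ∈ V ×ˢ Om δ s := ⟨hV q.1 hq.1, ebas_symm hq.2⟩
  have h1 : DifferentiableAt ℂ (fun q : ℂ × ℂ × ℂ => F q.1 q.2.1 q.2.2) (star q) :=
    (hF _ hq').differentiableAt ((hVo.prod (isOpen_Om δ s)).mem_nhds hq')
  have h2 := h1.star_star
  rw [star_star] at h2
  exact h2

theorem HT.slice (hg : HT V s g) {e : ℂ} (he : e ∈ V) : DifferentiableOn ℂ (g e) (UU s) := by
  have h1 : DifferentiableOn ℂ (fun q : ℂ => (e, q)) (UU s) :=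
    ((differentiable_const e).prodMk differentiable_id).differentiableOn
  exact DifferentiableOn.comp (g := fun q : ℂ × ℂ => g q.1 q.2) hg h1
    fun q hq => ⟨he, hq⟩

/-- for fixed `t` the function is holomorphic in `e` -/
theorem HT.slice' (hg : HT V s g) {t : ℂ} (ht : t ∈ UU s) :
    DifferentiableOn ℂ (fun e => g e t) V := by
  have h1 : DifferentiableOn ℂ (fun q : ℂ => (q, t)) V :=
    (differentiable_id.prodMk (differentiable_const t)).differentiableOn
  exact DifferentiableOn.comp (g := fun q : ℂ × ℂ => g q.1 q.2) hg h1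
    fun q hq => ⟨hq, ht⟩

theorem HT.mono {s' : ℝ} (hg : HT V s g) (hW : W ⊆ V) (hs : s' ≤ s) : HT W s' g := by
  exact DifferentiableOn.mono hg (prod_mono hW (UU_mono hs))

theorem HT.add (hg : HT V s g) (hh : HT V s h) : HT V s fun e t => g e t + h e t := by
  exact DifferentiableOn.add hg hh

theorem HT.sub (hg : HT V s g) (hh : HT V s h) : HT V s fun e t => g e t - h e t := by
  exact DifferentiableOn.sub hg hh

theorem HT.mul (hg : HT V s g) (hh : HT V s h) : HT V s fun e t => g e t * h e t := by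
  exact DifferentiableOn.mul hg hh

theorem HT.div_const (hg : HT V s g) (c : ℂ) : HT V s fun e t => g e t / c := by
  have h1 : DifferentiableOn ℂ (fun q : ℂ × ℂ => g q.1 q.2) (V ×ˢ UU s) := hg
  have h2 : DifferentiableOn ℂ (fun q : ℂ × ℂ => g q.1 q.2 * c⁻¹) (V ×ˢ UU s) := h1.mul_const _
  exact h2.congr fun q _ => div_eq_mul_inv _ _

/-- functions of `t` -/
theorem HT.of_t {f : ℂ → ℂ} (hf : DifferentiableOn ℂ f (UU s)) : HT V s fun _ t => f t := by
  exact hf.comp differentiable_snd.differentiableOn fun q hq => hq.2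

theorem HT.hderiv (hV : IsOpen V) (hg : HT V s g) : HT V s fun e => deriv (g e) := by
  have hS : IsOpen (V ×ˢ UU s) := hV.prod (isOpen_UU s)
  exact (hol_p_general hS hg).2.1

theorem HG.slice (hG : HG V σ ρ G) {e : ℂ} (he : e ∈ V) :
    DifferentiableOn ℂ (fun q : ℂ × ℂ => G e q.1 q.2) {q | |q.1.im| < σ ∧ ‖q.2‖ < ρ} := by
  have h1 : DifferentiableOn ℂ (fun q : ℂ × ℂ => (e, q)) (DL σ ρ) :=
    ((differentiable_const e).prodMk differentiable_id).differentiableOn
  exact DifferentiableOn.comp (g := fun q : ℂ × ℂ × ℂ => G q.1 q.2.1 q.2.2) hG h1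
    fun q hq => ⟨he, hq⟩

theorem HG.mono {σ' ρ' : ℝ} (hG : HG V σ ρ G) (hW : W ⊆ V) (hσ : σ' ≤ σ) (hρ : ρ' ≤ ρ) :
    HG W σ' ρ' G := by
  exact DifferentiableOn.mono hG
    (prod_mono hW fun q hq => ⟨hq.1.trans_le hσ, hq.2.trans_le hρ⟩)

theorem HG.hp1 (hV : IsOpen V) (hG : HG V σ ρ G) : HG V σ ρ fun e => p1 (G e) := by
  exact (ebas_general (hV.prod (isOpen_DL σ ρ)) hG).1

theorem HG.hp2 (hV : IsOpen V) (hG : HG V σ ρ G) : HG V σ ρ fun e => p2 (G e) := by
  exact (ebas_general (hV.prod (isOpen_DL σ ρ)) hG).2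

end Pool.Agent.DC
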