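import Pool.Agent.DC.EShi
import Pool.Agent.DC.EAvg
import Pool.Agent.DC.CY

/-!
# MP_74f563_an, n = 2, engine with parameter, file EFun: the functions of the Newton step are
holomorphic in all variables

PROOFS.  Let `(e, θ, t)` be in the domain.  `FD.hSg`: `Sg r (lam e) (X e) = cmp r (lam e) (X e)`:
`HE.hcmp` with `hD.XH` (domain `2δ, 2s`), `G = lam`, `σ := σ`, `ρ := 5`; `3δ/2 + r (2s) ≤ 2δ` by
`Par.rs`;
the values: `(X e θ t, DD r (X e) θ t) ∈ RR σ` by `mem_RR` (`CCmp`), and `RR σ` is contained in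
`DL σ 5`.  `hPm`: `Pm = sm r (cmp r (p2 lam) X)`: the same with `HG.hp2`, then `HE.hsm`
(`5δ/4 + r (2s) ≤ 3δ/2`).  `hEr`: `cmp r (p1 lam) X - DD r Pm`: `HG.hp1`, `HE.hDD`
(`9δ/8 + r (2s) ≤ 5δ/4`).  `hsg = Er · p1 X`.  `hch`: `HE.havg` of `hSg` and `HT.hderiv`; `hta`:
`HT.hderiv`
again.  `hyf`: `Hf = p1 w + ch - Pm · p1 X`, `Kf = p2 w - Pm · p2 X`,
`yf = (Hf · p2 X - (Kf - avg Kf) · p1 X) /
ta`, `ta ≠ 0` on `UU s` by `ta_bounds` (`CBas`).
-/

set_option autoImplicit false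

namespace Pool.Agent.DC

open Pool.Agent.NOne Complex Set MeasureTheory
open scoped ComplexConjugate

variable {V : Set ℂ} {σ M r b δ s ε : ℝ} {lam X w : ℂ → ℂ → ℂ → ℂ}

private theorem ef_rs (hp : Par σ M r b δ s) : r * (2 * s) ≤ δ / 8 := by
  have h1 := hp.rs
  have h2 := hp.δ_pos
  nlinarith

private theorem ef_cmp {G : ℂ → ℂ → ℂ → ℂ} (hp : Par σ M r b δ s)
    (hD : FD V σ M r b δ s ε lam X) (hG : HG V σ 5 G) :
    HE V (3 / 2 * δ) (2 * s) fun e => NOne.cmp r (G e) (X e) := by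
  have h1 := ef_rs hp
  have h2 := hp.δ_pos
  have h3 := hp.s_pos
  refine HE.hcmp hD.XH hG hp.r_pos (by linarith) (by linarith) fun e he θ t hθ ht => ?_
  have h4 := mem_RR hp (hD.sc e he) hθ ht
  have h5 : |(X e θ t).im| < σ / 2 := h4.1
  have h6 : ‖DD r (X e) θ t‖ < 4 := h4.2
  have h7 := hp.σ_pos
  exact ⟨by linarith, by linarith⟩

theorem FD.hSg (hp : Par σ M r b δ s) (hV : IsOpen V) (hD : FD V σ M r b δ s ε lam X) :
    HE V (3 / 2 * δ) (2 * s) fun e => Sg r (lam e) (X e) := by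
  have _ := hV
  exact ef_cmp hp hD hD.lamH

theorem FD.hPm (hp : Par σ M r b δ s) (hV : IsOpen V) (hD : FD V σ M r b δ s ε lam X) :
    HE V (5 / 4 * δ) (2 * s) fun e => Pm r (lam e) (X e) := by
  have h1 := ef_rs hp
  have h2 := hp.δ_pos
  exact HE.hsm (ef_cmp hp hD (HG.hp2 hV hD.lamH)) hp.r_pos.le (by linarith)

theorem FD.hEr (hp : Par σ M r b δ s) (hV : IsOpen V) (hD : FD V σ M r b δ s ε lam X) :
    HE V (9 / 8 * δ) (2 * s) fun e => Er r (lam e) (X e) := by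
  have h1 := ef_rs hp
  have h2 := hp.δ_pos
  have h3 := hp.s_pos
  have h4 : HE V (9 / 8 * δ) (2 * s) fun e => NOne.cmp r (p1 (lam e)) (X e) :=
    (ef_cmp hp hD (HG.hp1 hV hD.lamH)).mono (Subset.refl V) (by linarith) le_rfl
  have h5 : HE V (9 / 8 * δ) (2 * s) fun e => DD r (Pm r (lam e) (X e)) :=
    HE.hDD (FD.hPm hp hV hD) hp.r_pos (by linarith) (by linarith)
  exact h4.sub h5

theorem FD.hsg (hp : Par σ M r b δ s) (hV : IsOpen V) (hD : FD V σ M r b δ s ε lam X) :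
    HE V (9 / 8 * δ) (2 * s) fun e => sg r (lam e) (X e) := by
  have h2 := hp.δ_pos
  exact (FD.hEr hp hV hD).mul
    ((HE.hp1 hV hD.XH).mono (Subset.refl V) (by linarith) le_rfl)

theorem FD.hch (hp : Par σ M r b δ s) (hV : IsOpen V) (hD : FD V σ M r b δ s ε lam X) :
    HT V (2 * s) fun e => ch r (lam e) (X e) := by
  have h2 := hp.δ_pos
  exact HT.hderiv hV (HE.havg hV (FD.hSg hp hV hD) (by linarith))

theorem FD.hta (hp : Par σ M r b δ s) (hV : IsOpen V) (hD : FD V σ M r b δ s ε lam X) :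
    HT V (2 * s) fun e => ta r (lam e) (X e) := by
  exact HT.hderiv hV (FD.hch hp hV hD)

theorem FD.hyf (hp : Par σ M r b δ s) (hV : IsOpen V) (hD : FD V σ M r b δ s ε lam X)
    (hw : ∀ δ' : ℝ, HE V δ' s w) : HE V δ s fun e => yf r (lam e) (X e) (w e) := by
  have h2 := hp.δ_pos
  have h3 := hp.s_pos
  have hs : s ≤ 2 * s := by linarith
  have hX1 : HE V δ s fun e => p1 (X e) :=
    (HE.hp1 hV hD.XH).mono (Subset.refl V) (by linarith) hs
  have hX2 : HE V δ s fun e => p2 (X e) :=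
    (HE.hp2 hV hD.XH).mono (Subset.refl V) (by linarith) hs
  have hP : HE V δ s fun e => Pm r (lam e) (X e) :=
    (FD.hPm hp hV hD).mono (Subset.refl V) (by linarith) hs
  have hc : HE V δ s fun e _ t => ch r (lam e) (X e) t :=
    HE.of_HT ((FD.hch hp hV hD).mono (Subset.refl V) hs)
  have hτ : HE V δ s fun e _ t => ta r (lam e) (X e) t :=
    HE.of_HT ((FD.hta hp hV hD).mono (Subset.refl V) hs)
  have hH : HE V δ s fun e => Hf r (lam e) (X e) (w e) :=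
    ((HE.hp1 hV (hw δ)).add hc).sub (hP.mul hX1)
  have hK : HE V δ s fun e => Kf r (lam e) (X e) (w e) :=
    (HE.hp2 hV (hw δ)).sub (hP.mul hX2)
  have hKa : HE V δ s fun e _ t => avg (Kf r (lam e) (X e) (w e)) t :=
    HE.of_HT (HE.havg hV hK h2)
  exact ((hH.mul hX2).sub ((hK.sub hKa).mul hX1)).div hτ
    fun e he _ _ _ ht => (ta_bounds hp (hD.sc e he) ht).2.1

end Pool.Agent.DC
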