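import Pool.Agent.DC.EBas
import Pool.Agent.NOne.KRem
import Pool.Agent.MEP.SCV

/-!
# MP_74f563_an, n = 2, engine with parameter, file EInt: interpolation at the resonances

`quotE`: division of a family by a function of `t` with simple zeros.  PROOF.  For every `e ∈ V`
`exists_quot` (`NOne/KRem`) gives `h e` holomorphic on `U` with `h e t * d t = f e t`.  Off the
zeros of `d`
`h e t = f e t / d t` is jointly holomorphic.  Near `(e₀, t₀)` with `d t₀ = 0` (isolated zero of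
`d`, as
`deriv d t₀ ≠ 0`): choose `R > 0` such that the closed disk of radius `R` around `t₀` is in `U` and
`d` has
no zero in it except `t₀`; for `|t - t₀| < R`, `e ∈ V`, by Cauchy's formula
`h e t = (2πi)⁻¹ ∮_{|ζ - t₀| = R} f e ζ / (d ζ (ζ - t)) dζ`
(on the circle `h e ζ = f e ζ / d ζ`), which is holomorphic in `(e, t)` by
`Pool.Agent.MEP.differentiableOn_circleIntegral_param` (see its use in `NOne/KHol.lean`).

`interpE`: the proof of `interp` (`NOne/KRem`), with the parameter `e`: with the finite set `Z` of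
integers, `b e t = ∑_{m ∈ Z} g e t_m sinc(l r (1 + t) - m)` is jointly holomorphic (`HT.slice'` for
the
coefficients `e ↦ g e t_m`), and `h` from `quotE` applied to `f = g - b`, `d = dl r l`.  (The
private
lemmas `snc_...` of `NOne/KRem.lean` have to be copied.)  The bound of `b` for a given `e` needs
only the
values `g e t_m` for this `e`.
-/

set_option autoImplicit false

namespace Pool.Agent.DC

open Pool.Agent.NOne Complex Set MeasureTheory
open scoped ComplexConjugate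

private theorem EInt_norm_cos (w : ℂ) : ‖Complex.cos w‖ ≤ Real.exp |w.im| := by
  rw [Complex.cos]
  have h1 : ‖Complex.exp (w * I)‖ ≤ Real.exp |w.im| := by
    rw [Complex.norm_exp]
    refine Real.exp_le_exp.2 ?_
    simp only [mul_re, I_re, I_im, mul_zero, mul_one, zero_sub]
    exact neg_le_abs _
  have h2 : ‖Complex.exp (-w * I)‖ ≤ Real.exp |w.im| := by
    rw [Complex.norm_exp]
    refine Real.exp_le_exp.2 ?_
    simp only [mul_re, neg_re, neg_im, I_re, I_im, mul_zero, mul_one, zero_sub, neg_neg]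
    exact le_abs_self _
  have h3 : ‖(2 : ℂ)‖ = 2 := by simp
  rw [norm_div, h3, div_le_iff₀ (by norm_num)]
  refine (norm_add_le _ _).trans ?_
  linarith

private theorem EInt_norm_sin (w : ℂ) : ‖Complex.sin w‖ ≤ Real.exp |w.im| * ‖w‖ := by
  have hs : Convex ℝ {z : ℂ | |z.im| ≤ |w.im|} := by
    have h1 : {z : ℂ | |z.im| ≤ |w.im|} = Complex.imLm ⁻¹' (Icc (-|w.im|) |w.im|) := by
      ext z
      simp only [mem_ofPred_eq, mem_preimage, mem_Icc, abs_le]
      rfl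
    rw [h1]
    exact (convex_Icc _ _).linear_preimage _
  have h1 := Convex.norm_image_sub_le_of_norm_deriv_le (f := Complex.sin) (C := Real.exp |w.im|)
    (s := {z : ℂ | |z.im| ≤ |w.im|}) (x := 0) (y := w)
    (fun x _ => Complex.differentiable_sin.differentiableAt) (fun x hx => by
      rw [Complex.deriv_sin]
      exact (EInt_norm_cos x).trans (Real.exp_le_exp.2 hx)) hs (by simp) (by simp)
  rwa [Complex.sin_zero, sub_zero, sub_zero] at h1

/-- the function `sin (π z) / (π z)` -/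
private noncomputable def esnc : ℂ → ℂ := dslope (fun z => Complex.sin (Real.pi * z) / Real.pi) 0

private theorem EInt_pi : (Real.pi : ℂ) ≠ 0 := by exact_mod_cast Real.pi_ne_zero

private theorem esnc_hasDeriv (z : ℂ) :
    HasDerivAt (fun z => Complex.sin (Real.pi * z) / Real.pi) (Complex.cos (Real.pi * z)) z := by
  have h1 : HasDerivAt (fun z : ℂ => (Real.pi : ℂ) * z) Real.pi z := by
    simpa using (hasDerivAt_id z).const_mul (Real.pi : ℂ)
  have h2 := (h1.csin).div_const (Real.pi : ℂ)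
  rwa [mul_div_assoc, div_self EInt_pi, mul_one] at h2

private theorem esnc_zero : esnc 0 = 1 := by
  unfold esnc
  rw [dslope_same, (esnc_hasDeriv 0).deriv, mul_zero, Complex.cos_zero]

private theorem esnc_ne {z : ℂ} (hz : z ≠ 0) :
    esnc z = Complex.sin (Real.pi * z) / Real.pi / z := by
  unfold esnc
  rw [dslope_of_ne _ hz, slope_def_field, mul_zero, Complex.sin_zero, zero_div, sub_zero, sub_zero]

private theorem esnc_int {m : ℤ} (hm : m ≠ 0) : esnc m = 0 := by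
  rw [esnc_ne (Int.cast_ne_zero.2 hm), mul_comm, Complex.sin_int_mul_pi, zero_div, zero_div]

private theorem esnc_diff : Differentiable ℂ esnc := by
  have h1 : DifferentiableOn ℂ esnc univ :=
    (Complex.differentiableOn_dslope Filter.univ_mem).2 fun z _ =>
      (esnc_hasDeriv z).differentiableAt.differentiableWithinAt
  exact differentiableOn_univ.1 h1

private theorem esnc_norm (z : ℂ) : ‖esnc z‖ ≤ Real.exp (Real.pi * |z.im|) := by
  by_cases hz : z = 0
  · rw [hz, esnc_zero, norm_one, Complex.zero_im, abs_zero, mul_zero, Real.exp_zero]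
  · have h1 := EInt_norm_sin (Real.pi * z)
    have h2 : ((Real.pi : ℂ) * z).im = Real.pi * z.im := by
      simp [Complex.mul_im]
    have h3 : ‖(Real.pi : ℂ)‖ = Real.pi := by
      rw [Complex.norm_real, Real.norm_eq_abs, abs_of_pos Real.pi_pos]
    rw [h2, abs_mul, abs_of_pos Real.pi_pos, norm_mul, h3] at h1
    rw [esnc_ne hz, norm_div, norm_div, h3, div_div]
    refine (div_le_iff₀ (mul_pos Real.pi_pos (norm_pos_iff.2 hz))).2 h1

theorem quotE {V U : Set ℂ} (hV : IsOpen V) (hU : IsOpen U) {f : ℂ → ℂ → ℂ} {d : ℂ → ℂ}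
    (hf : DifferentiableOn ℂ (fun q : ℂ × ℂ => f q.1 q.2) (V ×ˢ U))
    (hd : DifferentiableOn ℂ d U)
    (h : ∀ e ∈ V, ∀ z ∈ U, d z = 0 → deriv d z ≠ 0 ∧ f e z = 0) :
    ∃ h : ℂ → ℂ → ℂ, DifferentiableOn ℂ (fun q : ℂ × ℂ => h q.1 q.2) (V ×ˢ U) ∧
      ∀ e ∈ V, ∀ z ∈ U, h e z * d z = f e z := by
  classical
  have hfs : ∀ e ∈ V, DifferentiableOn ℂ (f e) U := by
    intro e he
    have h1 : DifferentiableOn ℂ (fun q : ℂ => (e, q)) U :=
      ((differentiable_const e).prodMk differentiable_id).differentiableOn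
    exact DifferentiableOn.comp (g := fun q : ℂ × ℂ => f q.1 q.2) hf h1
      fun q hq => ⟨he, hq⟩
  have hex : ∀ e : ℂ, ∃ k : ℂ → ℂ, e ∈ V → DifferentiableOn ℂ k U ∧
      ∀ z ∈ U, k z * d z = f e z := by
    intro e
    by_cases he : e ∈ V
    · obtain ⟨k, hk1, hk2⟩ := exists_quot hU (hfs e he) hd (h e he)
      exact ⟨k, fun _ => ⟨hk1, hk2⟩⟩
    · exact ⟨0, fun h' => absurd h' he⟩
  choose k hk using hex
  refine ⟨k, ?_, fun e he z hz => (hk e he).2 z hz⟩
  rintro ⟨e₀, t₀⟩ ⟨he₀, ht₀⟩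
  have he₀' : e₀ ∈ V := he₀
  have ht₀' : t₀ ∈ U := ht₀
  apply DifferentiableAt.differentiableWithinAt
  have hVU : IsOpen (V ×ˢ U) := hV.prod hU
  have hnV : V ×ˢ U ∈ nhds (e₀, t₀) := hVU.mem_nhds ⟨he₀, ht₀⟩
  by_cases hd0 : d t₀ = 0
  · have hder : deriv d t₀ ≠ 0 := (h e₀ he₀' t₀ ht₀' hd0).1
    have hdt : DifferentiableAt ℂ d t₀ := hd.differentiableAt (hU.mem_nhds ht₀')
    have hne : ∀ᶠ z in nhdsWithin t₀ {t₀}ᶜ, d z ≠ 0 := hdt.hasDerivAt.eventually_ne hder
    rw [eventually_nhdsWithin_iff] at hne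
    obtain ⟨R₀, hR₀, hball⟩ := Metric.eventually_nhds_iff_ball.1
      (hne.and (hU.eventually_mem ht₀'))
    set R : ℝ := R₀ / 2 with hR
    have hRpos : 0 < R := by positivity
    have hRR : R < R₀ := by rw [hR]; linarith
    have hin : ∀ ζ : ℂ, ‖ζ‖ ≤ R → t₀ + ζ ∈ Metric.ball t₀ R₀ := by
      intro ζ hζ
      rw [mem_ball_iff_norm, add_sub_cancel_left]
      exact hζ.trans_lt hRR
    -- the integrand
    let g : ℂ × ℂ → ℂ := fun w => f w.2 (t₀ + w.1) / d (t₀ + w.1)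
    let Q : Set (ℂ × ℂ) := {w | t₀ + w.1 ∈ U ∧ d (t₀ + w.1) ≠ 0 ∧ w.2 ∈ V}
    have hdU : IsOpen {z | z ∈ U ∧ d z ≠ 0} :=
      hd.continuousOn.isOpen_inter_preimage hU isOpen_ne
    have hQ : IsOpen Q := by
      have h1 : IsOpen ((fun w : ℂ × ℂ => t₀ + w.1) ⁻¹' {z | z ∈ U ∧ d z ≠ 0} ∩
          (fun w : ℂ × ℂ => w.2) ⁻¹' V) :=
        (hdU.preimage (by fun_prop)).inter (hV.preimage (by fun_prop))
      have h2 : Q = (fun w : ℂ × ℂ => t₀ + w.1) ⁻¹' {z | z ∈ U ∧ d z ≠ 0} ∩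
          (fun w : ℂ × ℂ => w.2) ⁻¹' V := by
        ext w
        exact ⟨fun h => ⟨⟨h.1, h.2.1⟩, h.2.2⟩, fun h => ⟨h.1.1, h.1.2, h.2⟩⟩
      rw [h2]
      exact h1
    have hg : DifferentiableOn ℂ g Q := by
      intro w hw
      apply DifferentiableAt.differentiableWithinAt
      have h1 : DifferentiableAt ℂ (fun q : ℂ × ℂ => f q.1 q.2) (w.2, t₀ + w.1) :=
        (hf _ ⟨hw.2.2, hw.1⟩).differentiableAt (hVU.mem_nhds ⟨hw.2.2, hw.1⟩)
      have h2 : DifferentiableAt ℂ (fun w : ℂ × ℂ => (w.2, t₀ + w.1)) w := by fun_prop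
      have h3 : DifferentiableAt ℂ (fun w : ℂ × ℂ => f w.2 (t₀ + w.1)) w :=
        DifferentiableAt.comp (g := fun q : ℂ × ℂ => f q.1 q.2)
          (f := fun w : ℂ × ℂ => (w.2, t₀ + w.1)) w h1 h2
      have h4 : DifferentiableAt ℂ d (t₀ + w.1) := hd.differentiableAt (hU.mem_nhds hw.1)
      have h5 : DifferentiableAt ℂ (fun w : ℂ × ℂ => t₀ + w.1) w := by fun_prop
      have h6 : DifferentiableAt ℂ (fun w : ℂ × ℂ => d (t₀ + w.1)) w :=
        DifferentiableAt.comp (g := d) (f := fun w : ℂ × ℂ => t₀ + w.1) w h4 h5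
      have h7 := h3.mul (h6.inv hw.2.1)
      refine h7.congr_of_eventuallyEq (Filter.Eventually.of_forall fun x => ?_)
      exact div_eq_mul_inv _ _
    have hsub : Metric.sphere (0 : ℂ) R ×ˢ V ⊆ Q := by
      rintro w ⟨hw1, hw2⟩
      rw [mem_sphere_zero_iff_norm] at hw1
      have h1 := hball _ (hin w.1 hw1.le)
      refine ⟨h1.2, h1.1 ?_, hw2⟩
      intro h0
      have h2 : t₀ + w.1 = t₀ := h0
      have h3 : w.1 = 0 := by
        rw [add_eq_left] at h2
        exact h2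
      rw [h3, norm_zero] at hw1
      exact hRpos.ne hw1
    have hmain := (Pool.Agent.MEP.differentiableOn_circleIntegral_param hRpos hV hQ hg
      hsub).const_mul (2 * Real.pi * I : ℂ)⁻¹
    have hx : ((0 : ℂ), e₀) ∈ Metric.ball (0 : ℂ) R ×ˢ V := ⟨Metric.mem_ball_self hRpos, he₀'⟩
    have h1 := (hmain _ hx).differentiableAt ((Metric.isOpen_ball.prod hV).mem_nhds hx)
    have h2 : DifferentiableAt ℂ (fun q : ℂ × ℂ => (q.2 - t₀, q.1)) (e₀, t₀) := by fun_prop
    have hx0 : ((0 : ℂ), e₀) = (fun q : ℂ × ℂ => (q.2 - t₀, q.1)) (e₀, t₀) := by simp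
    rw [hx0] at h1
    have h3 := DifferentiableAt.comp (f := fun q : ℂ × ℂ => (q.2 - t₀, q.1)) (e₀, t₀) h1 h2
    refine h3.congr_of_eventuallyEq ?_
    have hnb : (V ×ˢ Metric.ball t₀ R) ∈ nhds (e₀, t₀) :=
      (hV.prod Metric.isOpen_ball).mem_nhds ⟨he₀', Metric.mem_ball_self hRpos⟩
    filter_upwards [hnb] with q hq
    have hqV : q.1 ∈ V := hq.1
    have hqb : q.2 - t₀ ∈ Metric.ball (0 : ℂ) R := by
      rw [mem_ball_zero_iff, ← mem_ball_iff_norm]
      exact hq.2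
    -- the formula of Cauchy
    have hc1 : DifferentiableOn ℂ (fun ζ : ℂ => k q.1 (t₀ + ζ)) (Metric.closedBall 0 R) := by
      intro ζ hζ
      rw [mem_closedBall_zero_iff] at hζ
      have hm : t₀ + ζ ∈ U := (hball _ (hin ζ hζ)).2
      have h4 : DifferentiableAt ℂ (k q.1) (t₀ + ζ) :=
        (hk q.1 hqV).1.differentiableAt (hU.mem_nhds hm)
      have h5 : DifferentiableAt ℂ (fun ζ : ℂ => t₀ + ζ) ζ := by fun_prop
      exact (DifferentiableAt.comp (g := k q.1) (f := fun ζ : ℂ => t₀ + ζ) ζ h4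
        h5).differentiableWithinAt
    have hc2 := (hc1.diffContOnCl_ball subset_rfl).two_pi_i_inv_smul_circleIntegral_sub_inv_smul
      hqb
    simp only [smul_eq_mul] at hc2
    have hc3 : t₀ + (q.2 - t₀) = q.2 := by ring
    rw [hc3] at hc2
    have hc4 : (∮ ζ in C(0, R), (ζ - (q.2 - t₀))⁻¹ * k q.1 (t₀ + ζ)) =
        ∮ ζ in C(0, R), (ζ - (q.2 - t₀))⁻¹ * g (ζ, q.1) := by
      refine circleIntegral.integral_congr hRpos.le ?_
      intro ζ hζ
      have hm := hsub (show (ζ, q.1) ∈ Metric.sphere (0 : ℂ) R ×ˢ V from ⟨hζ, hqV⟩)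
      change (ζ - (q.2 - t₀))⁻¹ * k q.1 (t₀ + ζ) =
        (ζ - (q.2 - t₀))⁻¹ * (f q.1 (t₀ + ζ) / d (t₀ + ζ))
      rw [← (hk q.1 hqV).2 _ hm.1, mul_div_assoc, div_self hm.2.1, mul_one]
    rw [hc4] at hc2
    exact hc2.symm
  · have hdt : DifferentiableAt ℂ d t₀ := hd.differentiableAt (hU.mem_nhds ht₀')
    have hd2 : DifferentiableAt ℂ (fun q : ℂ × ℂ => d q.2) (e₀, t₀) :=
      DifferentiableAt.comp (g := d) (f := fun q : ℂ × ℂ => q.2) (e₀, t₀) hdt
        differentiableAt_snd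
    have hf2 : DifferentiableAt ℂ (fun q : ℂ × ℂ => f q.1 q.2) (e₀, t₀) :=
      (hf _ ⟨he₀, ht₀⟩).differentiableAt hnV
    have hne : ∀ᶠ q : ℂ × ℂ in nhds (e₀, t₀), d q.2 ≠ 0 :=
      hd2.continuousAt.eventually_ne hd0
    have h7 := hf2.mul (hd2.inv hd0)
    refine h7.congr_of_eventuallyEq ?_
    filter_upwards [hne, hnV] with q hq1 hq2
    change k q.1 q.2 = f q.1 q.2 * (d q.2)⁻¹
    rw [← (hk q.1 hq2.1).2 _ hq2.2, mul_assoc, mul_inv_cancel₀ hq1, mul_one]

theorem interpE {V : Set ℂ} (hV : IsOpen V) {g : ℂ → ℂ → ℂ} {s r : ℝ} {l : ℤ} (hg : HT V s g)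
    (hs0 : 0 < s) (hs : s ≤ 1 / 8) (hr : 0 < r) (hr1 : r ≤ 1) (hl : l ≠ 0) :
    ∃ b h : ℂ → ℂ → ℂ, HT V s b ∧ HT V s h ∧
      (∀ e ∈ V, ∀ t ∈ UU s, g e t = b e t + h e t * dl r l t) ∧
      ∀ e ∈ V, ∀ A : ℝ, 0 ≤ A →
        (∀ t : ℝ, |t| < 1 / 4 + s → (∃ m : ℤ, (l : ℝ) * (r * (1 + t)) = m) → ‖g e t‖ ≤ A) →
        ∀ t ∈ UU s, ‖b e t‖ ≤ (|(l : ℝ)| + 2) * Real.exp (Real.pi * |(l : ℝ)| * r * s) * A := by
  classical
  have hlR : (l : ℝ) ≠ 0 := Int.cast_ne_zero.2 hl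
  have hlC : (l : ℂ) ≠ 0 := Int.cast_ne_zero.2 hl
  have hrC : (r : ℂ) ≠ 0 := Complex.ofReal_ne_zero.2 hr.ne'
  have hlr : (l : ℝ) * r ≠ 0 := mul_ne_zero hlR hr.ne'
  have hla : 0 < |(l : ℝ)| := abs_pos.2 hlR
  -- the points
  set tm : ℤ → ℝ := fun m => m / (l * r) - 1 with htm
  have htm1 : ∀ m : ℤ, (l : ℝ) * (r * (1 + tm m)) = m := by
    intro m
    rw [htm]
    field_simp
    ring
  set c : ℝ := |(l : ℝ)| * r * (1 / 4 + s) with hc
  have hc0 : 0 ≤ c := by positivity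
  have hcl : 2 * c ≤ |(l : ℝ)| := by
    rw [hc]
    have h1 : r * (1 / 4 + s) ≤ 1 * (1 / 4 + 1 / 8) := by
      apply mul_le_mul hr1 (by linarith) (by linarith) (by norm_num)
    nlinarith
  set Z : Finset ℤ := (Finset.Icc ⌈(l : ℝ) * r - c⌉ ⌊(l : ℝ) * r + c⌋).filter
    fun m => |tm m| < 1 / 4 + s with hZ
  have hZmem : ∀ m : ℤ, m ∈ Z ↔ |tm m| < 1 / 4 + s := by
    intro m
    rw [hZ, Finset.mem_filter, Finset.mem_Icc]
    refine ⟨fun h => h.2, fun h => ⟨?_, h⟩⟩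
    have h1 : |(m : ℝ) - l * r| ≤ c := by
      have h2 : (m : ℝ) - l * r = l * r * tm m := by
        rw [htm]
        field_simp
      rw [h2, abs_mul, abs_mul, abs_of_pos hr, hc]
      exact mul_le_mul_of_nonneg_left h.le (by positivity)
    rw [abs_le] at h1
    exact ⟨Int.ceil_le.2 (by linarith [h1.1]), Int.le_floor.2 (by linarith [h1.2])⟩
  have hcard : (Z.card : ℝ) ≤ |(l : ℝ)| + 2 := by
    have h1 : Z.card ≤ (Finset.Icc ⌈(l : ℝ) * r - c⌉ ⌊(l : ℝ) * r + c⌋).card :=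
      Finset.card_filter_le _ _
    rw [Int.card_Icc] at h1
    have h2 : ((⌊(l : ℝ) * r + c⌋ + 1 - ⌈(l : ℝ) * r - c⌉).toNat : ℝ) ≤ |(l : ℝ)| + 2 := by
      have h3 : ((⌊(l : ℝ) * r + c⌋ : ℤ) : ℝ) ≤ (l : ℝ) * r + c := Int.floor_le _
      have h4 : (l : ℝ) * r - c ≤ ((⌈(l : ℝ) * r - c⌉ : ℤ) : ℝ) := Int.le_ceil _
      rcases le_total 0 (⌊(l : ℝ) * r + c⌋ + 1 - ⌈(l : ℝ) * r - c⌉) with h5 | h5
      · have h6 : ((⌊(l : ℝ) * r + c⌋ + 1 - ⌈(l : ℝ) * r - c⌉).toNat : ℤ) =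
            ⌊(l : ℝ) * r + c⌋ + 1 - ⌈(l : ℝ) * r - c⌉ := Int.toNat_of_nonneg h5
        have h7 : ((⌊(l : ℝ) * r + c⌋ + 1 - ⌈(l : ℝ) * r - c⌉).toNat : ℝ) =
            ((⌊(l : ℝ) * r + c⌋ + 1 - ⌈(l : ℝ) * r - c⌉ : ℤ) : ℝ) := by
          exact_mod_cast congrArg (fun x : ℤ => (x : ℝ)) h6
        rw [h7]
        push_cast
        linarith
      · rw [Int.toNat_of_nonpos h5]
        push_cast
        linarith
    exact (by exact_mod_cast h1 : (Z.card : ℝ) ≤
      ((⌊(l : ℝ) * r + c⌋ + 1 - ⌈(l : ℝ) * r - c⌉).toNat : ℝ)).trans h2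
  -- the function
  set zt : ℂ → ℂ := fun t => l * (r * (1 + t)) with hzt
  set b : ℂ → ℂ → ℂ := fun e t => ∑ m ∈ Z, g e (tm m) * esnc (zt t - m) with hb
  have hztd : Differentiable ℂ zt := by
    rw [hzt]
    fun_prop
  have htmU : ∀ m ∈ Z, ((tm m : ℝ) : ℂ) ∈ UU s := by
    intro m hm
    refine ⟨?_, ?_⟩
    · rw [Complex.ofReal_re]
      exact (hZmem m).1 hm
    · rw [Complex.ofReal_im, abs_zero]
      exact hs0
  have hbd : HT V s b := by
    refine DifferentiableOn.fun_sum fun m hm => ?_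
    have h1 : DifferentiableOn ℂ (fun q : ℂ × ℂ => g q.1 (tm m)) (V ×ˢ UU s) :=
      DifferentiableOn.comp (g := fun e : ℂ => g e (tm m)) (f := fun q : ℂ × ℂ => q.1)
        (hg.slice' (htmU m hm)) differentiable_fst.differentiableOn fun q hq => hq.1
    have h2 : Differentiable ℂ (fun t : ℂ => esnc (zt t - m)) :=
      esnc_diff.comp (hztd.sub_const _)
    have h3 : Differentiable ℂ (fun q : ℂ × ℂ => esnc (zt q.2 - m)) :=
      Differentiable.comp (g := fun t : ℂ => esnc (zt t - m)) (f := fun q : ℂ × ℂ => q.2) h2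
        differentiable_snd
    exact h1.mul h3.differentiableOn
  have hztm : ∀ m : ℤ, zt (tm m) = m := by
    intro m
    rw [hzt]
    have h1 := htm1 m
    have h2 : ((l : ℝ) * (r * (1 + tm m)) : ℝ) = ((m : ℝ) : ℝ) := h1
    have h3 := congrArg (fun x : ℝ => (x : ℂ)) h2
    push_cast at h3
    exact h3
  have hbt : ∀ e : ℂ, ∀ m ∈ Z, b e (tm m) = g e (tm m) := by
    intro e m hm
    rw [hb]
    change ∑ m' ∈ Z, g e (tm m') * esnc (zt (tm m) - m') = g e (tm m)
    rw [Finset.sum_eq_single m, hztm, sub_self, esnc_zero, mul_one]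
    · intro m' _ hne
      rw [hztm, ← Int.cast_sub, esnc_int (sub_ne_zero.2 hne.symm), mul_zero]
    · exact fun h => absurd hm h
  have hbb : ∀ e ∈ V, ∀ A : ℝ, 0 ≤ A →
      (∀ t : ℝ, |t| < 1 / 4 + s → (∃ m : ℤ, (l : ℝ) * (r * (1 + t)) = m) → ‖g e t‖ ≤ A) →
      ∀ t ∈ UU s, ‖b e t‖ ≤ (|(l : ℝ)| + 2) * Real.exp (Real.pi * |(l : ℝ)| * r * s) * A := by
    intro e _ A hA0 hA t ht
    have h1 : ∀ m ∈ Z, ‖g e (tm m) * esnc (zt t - m)‖ ≤
        Real.exp (Real.pi * |(l : ℝ)| * r * s) * A := by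
      intro m hm
      rw [norm_mul, mul_comm]
      refine mul_le_mul ?_ (hA _ ((hZmem m).1 hm) ⟨m, htm1 m⟩) (norm_nonneg _) (Real.exp_pos _).le
      refine (esnc_norm _).trans (Real.exp_le_exp.2 ?_)
      have h2 : (zt t - m).im = l * (r * t.im) := by
        rw [hzt]
        simp
      rw [h2, abs_mul, abs_mul, abs_of_pos hr]
      have h3 : |t.im| ≤ s := ht.2.le
      have h4 : r * |t.im| ≤ r * s := mul_le_mul_of_nonneg_left h3 hr.le
      have h5 : |(l : ℝ)| * (r * |t.im|) ≤ |(l : ℝ)| * (r * s) :=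
        mul_le_mul_of_nonneg_left h4 hla.le
      calc Real.pi * (|(l : ℝ)| * (r * |t.im|)) ≤ Real.pi * (|(l : ℝ)| * (r * s)) :=
            mul_le_mul_of_nonneg_left h5 Real.pi_pos.le
        _ = Real.pi * |(l : ℝ)| * r * s := by ring
    calc ‖b e t‖ ≤ ∑ m ∈ Z, ‖g e (tm m) * esnc (zt t - m)‖ := norm_sum_le _ _
      _ ≤ ∑ _m ∈ Z, Real.exp (Real.pi * |(l : ℝ)| * r * s) * A := Finset.sum_le_sum h1
      _ = Z.card * (Real.exp (Real.pi * |(l : ℝ)| * r * s) * A) := by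
        rw [Finset.sum_const, nsmul_eq_mul]
      _ ≤ (|(l : ℝ)| + 2) * (Real.exp (Real.pi * |(l : ℝ)| * r * s) * A) :=
        mul_le_mul_of_nonneg_right hcard (mul_nonneg (Real.exp_pos _).le hA0)
      _ = _ := by ring
  have hdd : ∀ t : ℂ, HasDerivAt (dl r l) (exp (2 * Real.pi * I * l * (r * (1 + t))) *
      (2 * Real.pi * I * l)) t := by
    intro t
    have h1 : HasDerivAt (fun t : ℂ => 2 * Real.pi * I * l * (r * (1 + t)))
        (2 * Real.pi * I * l * (r * 1)) t :=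
      (((hasDerivAt_id t).const_add 1).const_mul (r : ℂ)).const_mul (2 * Real.pi * I * l)
    have h2 := ((h1.cexp).sub_const 1).div_const (r : ℂ)
    have h3 : exp (2 * Real.pi * I * l * (r * (1 + t))) * (2 * Real.pi * I * l * (r * 1)) / r =
        exp (2 * Real.pi * I * l * (r * (1 + t))) * (2 * Real.pi * I * l) := by
      field_simp
    rw [h3] at h2
    exact h2
  obtain ⟨h, hh1, hh2⟩ := quotE hV (isOpen_UU s) (f := fun e t => g e t - b e t) (hg.sub hbd)
    (d := dl r l) (fun t _ => (hdd t).differentiableAt.differentiableWithinAt) (by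
      intro e _ t ht h0
      refine ⟨?_, ?_⟩
      · rw [(hdd t).deriv]
        exact mul_ne_zero (exp_ne_zero _) (mul_ne_zero two_pi_I_ne_zero hlC)
      · have h1 : exp (2 * Real.pi * I * l * (r * (1 + t))) = 1 := by
          unfold dl at h0
          rcases div_eq_zero_iff.1 h0 with h2 | h2
          · exact sub_eq_zero.1 h2
          · exact absurd h2 hrC
        obtain ⟨n, hn⟩ := exp_eq_one_iff.1 h1
        have h2 : (l : ℂ) * (r * (1 + t)) = n := by
          have h3 : (2 * Real.pi * I) * (l * (r * (1 + t))) = (2 * Real.pi * I) * n := by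
            linear_combination hn
          exact mul_left_cancel₀ two_pi_I_ne_zero h3
        have h4 : t = (tm n : ℂ) := by
          have h5 := hztm n
          rw [hzt] at h5
          have h6 : (l : ℂ) * (r * (1 + t)) = l * (r * (1 + (tm n : ℂ))) := h2.trans h5.symm
          have h7 := mul_left_cancel₀ hrC (mul_left_cancel₀ hlC h6)
          exact add_left_cancel h7
        have h8 : n ∈ Z := by
          rw [hZmem]
          have h9 := ht.1
          rw [h4, Complex.ofReal_re] at h9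
          exact h9
        rw [h4]
        change g e (tm n) - b e (tm n) = 0
        rw [hbt e n h8, sub_self])
  refine ⟨b, h, hbd, hh1, fun e he t ht => ?_, hbb⟩
  have h1 := hh2 e he t ht
  rw [h1]
  change g e t = b e t + (g e t - b e t)
  ring

end Pool.Agent.DC
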