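import Pool.Agent.DC.ENew
import Pool.Agent.DC.CIni
import Pool.Agent.DC.EGen
import Pool.Agent.NOne.KNum
import Pool.Agent.NOne.KSeq

/-!
# MP_74f563_an, n = 2, engine with parameter, file EIt: the iteration

`lam_E`.  The Lagrangians `lB r (B e)`, `e ∈ UU (1/8)`, satisfy `LC` uniformly: repeat the proof of
`LC_of_BC` (`CLag.lean`), which has the explicit constants `max 1 (250 M / ρ)` and `r₀ = ρ / 10`
(they depend only on `ρ` and `M`); the joint holomorphy by composition with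
`(e, x, η) ↦ (e, x, r η)`; reality: `rf_lB`, `RS B`.

PROOF of `exists_ESeq`.  As `exists_NSeq` in `NOne/KIt.lean` (copy the private lemmas).
`σ' = min σ 1`; all the structures for `σ'` by restriction.  `M' = max 1 (250 M / ρ)`;
`c = ρ / (27 (M + 2))` and the convexity from `gS_convU` (uniform in the real `e ∈ UU (1/8)`); `κ`
from
`h0 c`.  `δ₀ = σ' / 8`, `s₀ = 1/16`, `C` the constant of `newtonE`, `ε₁` from
`numerics C σ' δ₀ s₀`.  `r₀` as in `exists_NSeq` (also `r₀ ≤ ρ / 10`).  `δ_n = δ₀ / 4096^n`,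
`s_n = s₀ / 4096^n`,
`d_n = (1/8) / 16^n`, `ε_n = ε₀^((3/2)^n)`, `c_n = C ε_n / (σ' (δ_n s_n)^9)`, `b_n = ∑_{j<n} c_j`.
The property `Q n X : FD (UU (d n)) σ' M' r (b n) (δ n) (s n) (ε n) (fun e => lB r (B e)) X` holds
for
`n = 0`, `X = fun _ θ _ => θ` by `initial` (`CIni`), and `newtonE` gives the step (real points
`e ∈ UU (d n) ⊆ UU (1/8)`: `|e| < 3/8`).  Dependent choice as in `exists_NSeq`.
Summability: `c_n / min(d_{n+1}, ...)^k ≤ const · ε_n A^n` (`summable_eps`): for example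
`min (d_{n+1}) (min (2 δ_{n+1}) (2 s_{n+1})) ≥ m₀ / 4096^(n+1)` with
`m₀ = min (1/8) (min (2 δ₀) (2 s₀))`, since `d_{n+1} = (1/8) / 16^(n+1) ≥ (1/8) / 4096^(n+1)`.
-/

set_option autoImplicit false

namespace Pool.Agent.DC

open Pool.Agent.NOne Complex Set MeasureTheory
open scoped ComplexConjugate

private theorem eit_isOpen (a b : ℝ) : IsOpen {q : ℂ × ℂ | |q.1.im| < a ∧ ‖q.2‖ < b} := by
  have h1 : IsOpen {q : ℂ × ℂ | |q.1.im| < a} :=
    isOpen_lt ((continuous_im.comp continuous_fst).abs) continuous_const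
  have h2 : IsOpen {q : ℂ × ℂ | ‖q.2‖ < b} := isOpen_lt continuous_snd.norm continuous_const
  exact h1.inter h2

private theorem eit_slice_snd {G : ℂ → ℂ → ℂ} {V : Set (ℂ × ℂ)} (hV : IsOpen V)
    (hG : DifferentiableOn ℂ (fun q : ℂ × ℂ => G q.1 q.2) V) {x η : ℂ} (h : (x, η) ∈ V) :
    DifferentiableAt ℂ (fun z => G x z) η := by
  have h1 : DifferentiableAt ℂ (fun q : ℂ × ℂ => G q.1 q.2) (x, η) :=
    (hG _ h).differentiableAt (hV.mem_nhds h)
  have h2 : DifferentiableAt ℂ (fun z : ℂ => ((x, z) : ℂ × ℂ)) η :=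
    (differentiableAt_const _).prodMk differentiableAt_id
  exact DifferentiableAt.comp (g := fun q : ℂ × ℂ => G q.1 q.2) η h1 h2

private theorem eit_LC {σ ρ M : ℝ} {B : ℂ → ℂ → ℂ} (hB : BC σ ρ M B) {r : ℝ} (hr : 0 < r)
    (hr0 : r < ρ / 10) : LC σ (max 1 (250 * M / ρ)) r (lB r B) := by
  have hρ := hB.ρ_pos
  have hM1 : 1 ≤ M := by
    have h1 := hB.bd 0 0 (by simpa using hB.σ_pos) (by simpa using hρ)
    rw [hB.one 0 (by simpa using hB.σ_pos)] at h1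
    simpa using h1
  have hrn : ∀ η : ℂ, ‖(r : ℂ) * η‖ = r * ‖η‖ := by
    intro η
    rw [norm_mul, norm_real, Real.norm_eq_abs, abs_of_pos hr]
  have hw : ∀ η : ℂ, ‖η‖ < 5 → ‖(r : ℂ) * η‖ < ρ / 2 := by
    intro η hη
    rw [hrn]
    nlinarith [norm_nonneg η]
  refine ⟨?_, ?_, ?_⟩
  · have h1 : DifferentiableOn ℂ (fun q : ℂ × ℂ => B q.1 (r * q.2)) {q | |q.1.im| < σ ∧
        ‖q.2‖ < 5} := by
      have h2 : DifferentiableOn ℂ (fun q : ℂ × ℂ => ((q.1, (r : ℂ) * q.2) : ℂ × ℂ))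
          {q | |q.1.im| < σ ∧ ‖q.2‖ < 5} :=
        (differentiable_fst.prodMk (differentiable_snd.const_mul _)).differentiableOn
      refine hB.hol.comp h2 ?_
      rintro q ⟨hq1, hq2⟩
      exact ⟨hq1, (hw _ hq2).trans (by linarith)⟩
    exact ((differentiable_snd.pow 2).differentiableOn).mul h1
  · intro x η hx hη
    have hB1 : ‖B x (r * η) - 1‖ ≤ 10 * M * r / ρ := by
      have hb0 : 0 ≤ 10 * M * r / ρ := by positivity
      rcases eq_or_ne ((r : ℂ) * η) 0 with h0 | h0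
      · rw [h0, hB.one x hx, sub_self, norm_zero]
        exact hb0
      · have hn : 0 < ‖(r : ℂ) * η‖ := norm_pos_iff.2 h0
        have h2 := taylor1 (φ := fun z => B x (z * (r * η))) (R := ρ / ‖(r : ℂ) * η‖) (M := M)
          (by
            rw [le_div_iff₀ hn]
            linarith [hw η hη]) (by
            intro z hz
            have hz1 : ‖z * (r * η)‖ < ρ := by
              rw [norm_mul]
              rw [Metric.mem_ball, dist_zero_right, lt_div_iff₀ hn] at hz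
              exact hz
            have h3 := eit_slice_snd (eit_isOpen σ ρ) hB.hol (x := x) (η := z * (r * η))
              ⟨hx, hz1⟩
            have h4 : DifferentiableAt ℂ (fun z : ℂ => z * (r * η)) z :=
              differentiableAt_id.mul_const _
            exact (DifferentiableAt.comp z h3 h4).differentiableWithinAt) (by
            intro z hz
            rw [Metric.mem_ball, dist_zero_right, lt_div_iff₀ hn] at hz
            exact hB.bd x _ hx (by rwa [norm_mul]))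
        have h3 : B x (1 * (r * η)) - B x (0 * (r * η)) = B x (r * η) - 1 := by
          rw [one_mul, zero_mul, hB.one x hx]
        have h4 : ‖B x (r * η) - 1‖ ≤ 2 * M / (ρ / ‖(r : ℂ) * η‖) := by
          rw [← h3]
          exact h2
        refine h4.trans ?_
        rw [hrn, div_div_eq_mul_div]
        refine div_le_div_of_nonneg_right ?_ hρ.le
        nlinarith [mul_pos (zero_lt_one.trans_le hM1) hr]
    have h5 : lB r B x η - η ^ 2 = η ^ 2 * (B x (r * η) - 1) := by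
      unfold lB
      ring
    rw [h5, norm_mul, norm_pow]
    have h6 : ‖η‖ ^ 2 ≤ 25 := by nlinarith [norm_nonneg η]
    calc ‖η‖ ^ 2 * ‖B x (r * η) - 1‖ ≤ 25 * (10 * M * r / ρ) :=
          mul_le_mul h6 hB1 (norm_nonneg _) (by norm_num)
      _ = 250 * M / ρ * r := by ring
      _ ≤ max 1 (250 * M / ρ) * r := mul_le_mul_of_nonneg_right (le_max_right _ _) hr.le
  · intro x η
    unfold lB
    rw [hB.per]

private theorem eit_BC {σ ρ M : ℝ} {B : ℂ → ℂ → ℂ → ℂ} (hB : BE σ ρ M B) {e : ℂ}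
    (he : e ∈ UU (1 / 8)) : BC σ ρ M (B e) where
  σ_pos := hB.σ_pos
  ρ_pos := hB.ρ_pos
  hol := hB.hol.slice he
  bd := hB.bd e he
  one := hB.one e he
  per := hB.per e

/-- the Lagrangians of the family `B` -/
theorem lam_E {σ ρ M : ℝ} {B : ℂ → ℂ → ℂ → ℂ} (hB : BE σ ρ M B) {r : ℝ} (hr : 0 < r)
    (hr1 : r < ρ / 10) :
    (∀ e ∈ UU (1 / 8), LC σ (max 1 (250 * M / ρ)) r (lB r (B e))) ∧
      HG (UU (1 / 8)) σ 5 (fun e => lB r (B e)) ∧ RS fun e => lB r (B e) := by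
  refine ⟨fun e he => eit_LC (eit_BC hB he) hr hr1, ?_, fun e => ?_⟩
  · have h2 : DifferentiableOn ℂ
        (fun q : ℂ × ℂ × ℂ => ((q.1, q.2.1, (r : ℂ) * q.2.2) : ℂ × ℂ × ℂ))
        (UU (1 / 8) ×ˢ DL σ 5) := by
      fun_prop
    have h1 : DifferentiableOn ℂ (fun q : ℂ × ℂ × ℂ => B q.1 q.2.1 (r * q.2.2))
        (UU (1 / 8) ×ˢ DL σ 5) := by
      refine DifferentiableOn.comp (t := UU (1 / 8) ×ˢ DL σ ρ)
        (g := fun q : ℂ × ℂ × ℂ => B q.1 q.2.1 q.2.2) hB.hol h2 ?_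
      rintro ⟨e, x, η⟩ ⟨he, hx, hη⟩
      refine ⟨he, hx, ?_⟩
      have hη' : ‖η‖ < 5 := hη
      show ‖(r : ℂ) * η‖ < ρ
      rw [norm_mul, norm_real, Real.norm_eq_abs, abs_of_pos hr]
      nlinarith [norm_nonneg η, hB.ρ_pos]
    have h3 : DifferentiableOn ℂ (fun q : ℂ × ℂ × ℂ => q.2.2 ^ 2) (UU (1 / 8) ×ˢ DL σ 5) := by
      fun_prop
    exact h3.mul h1
  · show lB r (B (conj e)) = rf (lB r (B e))
    rw [hB.real e, rf_lB]

/-- at real points -/
theorem BE.bd_real {σ ρ M : ℝ} {B : ℂ → ℂ → ℂ → ℂ} (hB : BE σ ρ M B) {e : ℝ}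
    (he : (e : ℂ) ∈ UU (1 / 8)) : BD σ ρ M (B e) := by
  refine (eit_BC hB he).to_BD (rsym_iff_rf.2 ?_)
  have h1 := hB.real (e : ℂ)
  rw [conj_ofReal] at h1
  exact h1.symm

private theorem eit_bd_mono {δ s c c' : ℝ} {F : ℂ → ℂ → ℂ} (h : Bd δ s c F) (hc : c ≤ c') :
    Bd δ s c' F := fun θ t hθ ht => (h θ t hθ ht).trans hc

private theorem eit_BE_min {σ ρ M : ℝ} {B : ℂ → ℂ → ℂ → ℂ} (hB : BE σ ρ M B) :
    BE (min σ 1) ρ M B where
  σ_pos := lt_min hB.σ_pos one_pos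
  ρ_pos := hB.ρ_pos
  hol := hB.hol.mono subset_rfl (min_le_left _ _) le_rfl
  bd := fun e he x w hx hw => hB.bd e he x w (lt_of_lt_of_le hx (min_le_left _ _)) hw
  one := fun e he x hx => hB.one e he x (lt_of_lt_of_le hx (min_le_left _ _))
  per := hB.per
  real := hB.real

private theorem eit_geom (a : ℝ) (ha : 0 ≤ a) (n : ℕ) :
    ∑ j ∈ Finset.range n, a / 2 ^ j ≤ 2 * a := by
  have h : ∑ j ∈ Finset.range n, a / 2 ^ j = 2 * a - 2 * a / 2 ^ n := by
    induction n with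
    | zero => simp
    | succ n ih =>
      rw [Finset.sum_range_succ, ih, pow_succ]
      field_simp
      ring
  rw [h]
  have h2 : 0 ≤ 2 * a / 2 ^ n := by positivity
  linarith

private theorem eit_sum {ε₀ C σ δ₀ s₀ m : ℝ} (h0 : 0 < ε₀) (h1 : ε₀ < 1) (hσ : 0 < σ)
    (hδ : 0 < δ₀) (hs : 0 < s₀) (hm : 0 < m) (k : ℕ) :
    Summable fun n : ℕ => C * ε₀ ^ ((3 / 2 : ℝ) ^ n) /
      (σ * ((δ₀ / 4096 ^ n) * (s₀ / 4096 ^ n)) ^ 9) / (m / 4096 ^ (n + 1)) ^ k := by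
  have h2 := (summable_eps h0 h1 (4096 ^ (18 + k)) (by positivity)).mul_left
    (C * 4096 ^ k / (σ * (δ₀ * s₀) ^ 9 * m ^ k))
  refine h2.congr fun n => ?_
  generalize ε₀ ^ ((3 / 2 : ℝ) ^ n) = E
  have e3 : (δ₀ / 4096 ^ n) * (s₀ / 4096 ^ n) = δ₀ * s₀ / 4096 ^ (n + n) := by
    rw [div_mul_div_comm, pow_add]
  rw [e3, div_pow (δ₀ * s₀), div_pow m, ← pow_mul, ← pow_mul, ← pow_mul]
  have e1 : (4096 : ℝ) ^ ((18 + k) * n) * 4096 ^ k =
      4096 ^ ((n + n) * 9) * 4096 ^ ((n + 1) * k) := by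
    rw [← pow_add, ← pow_add]
    congr 1
    ring
  have hd : (δ₀ * s₀) ^ 9 ≠ 0 := by positivity
  have hmk : m ^ k ≠ 0 := by positivity
  have hp1 : (4096 : ℝ) ^ ((n + n) * 9) ≠ 0 := by positivity
  have hp2 : (4096 : ℝ) ^ ((n + 1) * k) ≠ 0 := by positivity
  have e2 : C * 4096 ^ k / (σ * (δ₀ * s₀) ^ 9 * m ^ k) * (E * 4096 ^ ((18 + k) * n)) =
      C * E * (4096 ^ ((18 + k) * n) * 4096 ^ k) / (σ * (δ₀ * s₀) ^ 9 * m ^ k) := by ring
  rw [e2, e1]
  generalize (4096 : ℝ) ^ ((n + n) * 9) = p at *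
  generalize (4096 : ℝ) ^ ((n + 1) * k) = q at *
  generalize (δ₀ * s₀) ^ 9 = d at *
  generalize m ^ k = w at *
  field_simp

private theorem eit_min {δ₀ s₀ : ℝ} (n : ℕ) :
    min (1 / 8) (min (2 * δ₀) (2 * s₀)) / 4096 ^ (n + 1) ≤
      min (1 / 8 / 16 ^ (n + 1)) (min (2 * (δ₀ / 4096 ^ (n + 1))) (2 * (s₀ / 4096 ^ (n + 1)))) := by
  have hp : (0 : ℝ) < 4096 ^ (n + 1) := by positivity
  refine le_min ?_ (le_min ?_ ?_)
  · refine (div_le_div_of_nonneg_right (min_le_left _ _) hp.le).trans ?_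
    refine div_le_div_of_nonneg_left (by norm_num) (by positivity) ?_
    exact pow_le_pow_left₀ (by norm_num) (by norm_num) _
  · refine (div_le_div_of_nonneg_right ((min_le_right _ _).trans (min_le_left _ _))
      hp.le).trans (le_of_eq ?_)
    ring
  · refine (div_le_div_of_nonneg_right ((min_le_right _ _).trans (min_le_right _ _))
      hp.le).trans (le_of_eq ?_)
    ring

private theorem eit_real {d : ℝ} (hd : d ≤ 1 / 8) {e : ℝ} (he : (e : ℂ) ∈ UU d) :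
    |e| < 3 / 8 ∧ (e : ℂ) ∈ UU (1 / 8) := by
  have h1 := he.1
  rw [ofReal_re] at h1
  exact ⟨by linarith, UU_mono hd he⟩

theorem exists_ESeq {σ ρ M : ℝ} {B : ℂ → ℂ → ℂ → ℂ} (hB : BE σ ρ M B)
    (h0 : ∀ c > 0, c < ρ → ∃ κ > 0, ∀ e : ℝ, |e| < 3 / 8 → HZ (gS (B e)) c κ) :
    ∃ σ' M' : ℝ, ∃ r₀ > (0 : ℝ), 8 * r₀ ≤ ρ ∧ ∀ r : ℝ, 0 < r → r < r₀ →
      ∃ (X : ℕ → ℂ → ℂ → ℂ → ℂ) (b δ s ε c d : ℕ → ℝ), ESeq r σ' M' B X b δ s ε c d := by
  have hBm := eit_BE_min hB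
  have hσ0 : 0 < min σ 1 := hBm.σ_pos
  have hσ1 : min σ 1 ≤ 1 := min_le_right _ _
  have h00 : ((0 : ℝ) : ℂ) ∈ UU (1 / 8) := by
    refine ⟨?_, ?_⟩
    · rw [ofReal_re, abs_zero]
      norm_num
    · rw [ofReal_im, abs_zero]
      norm_num
  obtain ⟨hc, hcρ, -⟩ := gS_convU (hB.bd_real h00)
  obtain ⟨κ, hκ, hHZ⟩ := h0 _ hc hcρ
  have hconv : ∀ e : ℝ, (e : ℂ) ∈ UU (1 / 8) → ∀ y Y₁ Y₂ : ℝ,
      |Y₁ - y| < ρ / (27 * (M + 2)) → |Y₂ - y| < ρ / (27 * (M + 2)) →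
      gS (B e) y Y₁ + deriv (fun Y => gS (B e) y Y) Y₁ * (Y₂ - Y₁) + 1 / 2 * (Y₂ - Y₁) ^ 2 ≤
        gS (B e) y Y₂ := fun e he => (gS_convU (hB.bd_real he)).2.2
  obtain ⟨C, hC, hnewton⟩ := newtonE
  have hρ := hB.ρ_pos
  have hM' : (1 : ℝ) ≤ max 1 (250 * M / ρ) := le_max_left _ _
  have hLE : ∀ {r : ℝ}, 0 < r → r < ρ / 10 →
      (∀ e ∈ UU (1 / 8), LC (min σ 1) (max 1 (250 * M / ρ)) r (lB r (B e))) ∧
        HG (UU (1 / 8)) (min σ 1) 5 (fun e => lB r (B e)) ∧ RS fun e => lB r (B e) :=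
    fun hr hr1 => lam_E hBm hr hr1
  generalize max 1 (250 * M / ρ) = M' at *
  generalize ρ / (27 * (M + 2)) = c₀ at *
  generalize min σ 1 = σ' at *
  obtain ⟨δ₀, hδ₀⟩ : ∃ δ₀ : ℝ, δ₀ = σ' / 8 := ⟨_, rfl⟩
  have hδ₀0 : 0 < δ₀ := by rw [hδ₀]; positivity
  obtain ⟨ε₁, hε₁, hε₁1, hnum⟩ := numerics C σ' δ₀ (1 / 16) hC hσ0 hσ1 hδ₀0
    (by rw [hδ₀]; linarith) (by norm_num) (by norm_num)
  have hM0 : 0 < M' := by linarith
  refine ⟨σ', M', min (ρ / 10) (min (σ' ^ 2 / (64 * M')) (min (δ₀ / 4096) (min (1 / 2048 / M')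
    (min (c₀ / 4) (min (κ / 2) (min (ρ / 8) (ε₁ * (σ' ^ 2 * δ₀) / (100 * M')))))))),
    by positivity, ?_, fun r hr hr0 => ?_⟩
  · have h1 : min (ρ / 10) (min (σ' ^ 2 / (64 * M')) (min (δ₀ / 4096) (min (1 / 2048 / M')
        (min (c₀ / 4) (min (κ / 2) (min (ρ / 8) (ε₁ * (σ' ^ 2 * δ₀) / (100 * M')))))))) ≤
          ρ / 10 := min_le_left _ _
    linarith
  simp only [lt_min_iff] at hr0
  obtain ⟨k1, k2, k3, k4, k5, k6, k7, k8⟩ := hr0
  obtain ⟨hL, hLH, hLR⟩ := hLE hr k1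
  have q1 : 64 * M' * r ≤ σ' ^ 2 := by
    rw [lt_div_iff₀ (by positivity)] at k2
    linarith
  have q2 : 8 * M' * r ≤ (1 / 16 : ℝ) ^ 2 := by
    rw [lt_div_iff₀ hM0] at k4
    nlinarith
  have q3 : 100 * M' * r / (σ' ^ 2 * δ₀) ≤ ε₁ := by
    rw [lt_div_iff₀ (by positivity)] at k8
    rw [div_le_iff₀ (by positivity)]
    linarith
  obtain ⟨ε₀, hε₀⟩ : ∃ ε₀ : ℝ, ε₀ = 100 * M' * r / (σ' ^ 2 * δ₀) := ⟨_, rfl⟩
  have hε₀0 : 0 < ε₀ := by rw [hε₀]; positivity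
  have hε₀1 : ε₀ < 1 := by
    rw [hε₀]
    linarith
  rw [← hε₀] at q3
  have hn := hnum ε₀ hε₀0 q3
  let δ : ℕ → ℝ := fun n => δ₀ / 4096 ^ n
  let s : ℕ → ℝ := fun n => 1 / 16 / 4096 ^ n
  let d : ℕ → ℝ := fun n => 1 / 8 / 16 ^ n
  let ε : ℕ → ℝ := fun n => ε₀ ^ ((3 / 2 : ℝ) ^ n)
  let e : ℕ → ℝ := fun n => C * ε n / (σ' * (δ n * s n) ^ 9)
  let b : ℕ → ℝ := fun n => ∑ j ∈ Finset.range n, e j
  have hδp : ∀ n, 0 < δ n := fun n => by positivity
  have hsp : ∀ n, 0 < s n := fun n => by positivity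
  have hdp : ∀ n, 0 < d n := fun n => by positivity
  have hεp : ∀ n, 0 < ε n := fun n => (hn n).1
  have hep : ∀ n, 0 ≤ e n := fun n => by
    have h1 := hδp n
    have h2 := hsp n
    have h3 := hεp n
    positivity
  have he : ∀ n, e n ≤ σ' / 32 / 2 ^ n := fun n => (hn n).2.2.2
  have hb0 : ∀ n, 0 ≤ b n := fun n => Finset.sum_nonneg fun j _ => hep j
  have hb1 : ∀ n, b n ≤ σ' / 8 := by
    intro n
    have h1 : b n ≤ ∑ j ∈ Finset.range n, σ' / 32 / 2 ^ j := Finset.sum_le_sum fun j _ => he j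
    have h2 := eit_geom (σ' / 32) (by positivity) n
    linarith
  have hδs : ∀ n, δ (n + 1) = δ n / 4096 := fun n => by
    change δ₀ / 4096 ^ (n + 1) = δ₀ / 4096 ^ n / 4096
    rw [pow_succ, div_div]
  have hss : ∀ n, s (n + 1) = s n / 4096 := fun n => by
    change 1 / 16 / 4096 ^ (n + 1) = 1 / 16 / 4096 ^ n / (4096 : ℝ)
    rw [pow_succ, ← div_div]
  have hds : ∀ n, d (n + 1) = d n / 16 := fun n => by
    change 1 / 8 / 16 ^ (n + 1) = 1 / 8 / 16 ^ n / (16 : ℝ)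
    rw [pow_succ, ← div_div]
  have hbs : ∀ n, b (n + 1) = b n + e n := fun n => Finset.sum_range_succ _ _
  have hpow : ∀ n : ℕ, (1 : ℝ) ≤ 4096 ^ n := fun n => one_le_pow₀ (by norm_num)
  have hd8 : ∀ n, d n ≤ 1 / 8 := fun n =>
    div_le_self (by norm_num) (one_le_pow₀ (by norm_num))
  have hPar : ∀ n, Par σ' M' r (b n) (δ n) (s n) := fun n =>
    { σ_pos := hσ0
      σ_le := hσ1
      M_ge := hM'
      r_pos := hr
      r_le := q1
      b_nonneg := hb0 n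
      b_le := hb1 n
      δ_pos := hδp n
      δ_le := by
        have h1 : δ n ≤ δ₀ := div_le_self hδ₀0.le (hpow n)
        rwa [hδ₀] at h1
      s_pos := hsp n
      s_le := div_le_self (by norm_num) (hpow n)
      rs := by
        change 65536 * (r * (1 / 16 / 4096 ^ n)) ≤ δ₀ / 4096 ^ n
        rw [le_div_iff₀ (by positivity)]
        have h1 : 65536 * (r * (1 / 16 / 4096 ^ n)) * (4096 : ℝ) ^ n = 4096 * r := by
          have h2 : (4096 : ℝ) ^ n ≠ 0 := by positivity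
          field_simp
          norm_num
        rw [h1]
        linarith }
  let Q : ℕ → (ℂ → ℂ → ℂ → ℂ) → Prop := fun n X =>
    FD (UU (d n)) σ' M' r (b n) (δ n) (s n) (ε n) (fun e => lB r (B e)) X
  have hb00 : b 0 = 0 := Finset.sum_range_zero _
  have hδ00 : δ 0 = δ₀ := by
    change δ₀ / 4096 ^ 0 = δ₀
    rw [pow_zero, div_one]
  have hs00 : s 0 = 1 / 16 := by
    change 1 / 16 / 4096 ^ 0 = (1 / 16 : ℝ)
    rw [pow_zero, div_one]
  have hd00 : d 0 = 1 / 8 := by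
    change 1 / 8 / 16 ^ 0 = (1 / 8 : ℝ)
    rw [pow_zero, div_one]
  have hε00 : ε 0 = ε₀ := by
    change ε₀ ^ ((3 / 2 : ℝ) ^ 0) = ε₀
    rw [pow_zero, Real.rpow_one]
  have hQ0 : Q 0 fun _ θ _ => θ := by
    have hP0 := hPar 0
    rw [hb00, hδ00, hs00] at hP0
    change FD (UU (d 0)) σ' M' r (b 0) (δ 0) (s 0) (ε 0) (fun e => lB r (B e)) _
    rw [hb00, hδ00, hs00, hε00, hd00, hε₀]
    exact
      { lc := hL
        sc := fun e he => (initial hP0 (hL e he) q2).1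
        err := fun e he => (initial hP0 (hL e he) q2).2
        lamH := hLH
        XH := by
          show DifferentiableOn ℂ (fun q : ℂ × ℂ × ℂ => q.2.1) _
          fun_prop
        lamR := hLR
        XR := by
          intro e
          funext θ t
          simp only [rf]
          rw [Complex.conj_conj] }
  have hstep : ∀ n X, Q n X → ∃ X', Q (n + 1) X' ∧
      (HE (UU (d (n + 1))) (2 * δ (n + 1)) (2 * s (n + 1)) fun e θ t => X' e θ t - X e θ t) ∧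
      (∀ f ∈ UU (d (n + 1)), Bd (2 * δ (n + 1)) (2 * s (n + 1)) (e n)
        fun θ t => X' f θ t - X f θ t) ∧
      ∀ f ∈ UU (d (n + 1)), ∀ θ t : ℝ, |t| ≤ 1 / 4 →
        ‖Jf r (lB r (B f)) (X f) θ t - ta r (lB r (B f)) (X f) t‖ ≤ e n := by
    intro n X hX
    obtain ⟨y, g1, g2, g3, g4⟩ := hnewton (fun f hf => hB.bd_real (eit_real (hd8 n) hf).2)
      (hdp n) (hPar n) hX hc hcρ (fun f hf => hconv f (eit_real (hd8 n) hf).2)
      (fun f hf => hHZ f (eit_real (hd8 n) hf).1) (by linarith) (by linarith) (hεp n)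
      (hn n).2.1
    refine ⟨fun f θ t => X f θ t + y f θ t, ?_, ?_, ?_, ?_⟩
    · change FD (UU (d (n + 1))) σ' M' r (b (n + 1)) (δ (n + 1)) (s (n + 1)) (ε (n + 1))
        (fun e => lB r (B e)) _
      rw [hbs, hδs, hss, hds]
      exact
        { lc := g3.lc
          sc := g3.sc
          err := fun f hf => eit_bd_mono (g3.err f hf) (hn n).2.2.1
          lamH := g3.lamH
          XH := g3.XH
          lamR := g3.lamR
          XR := g3.XR }
    · rw [hδs, hss, hds]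
      simpa only [add_sub_cancel_left] using g1
    · rw [hδs, hss, hds]
      simpa only [add_sub_cancel_left] using g2
    · rw [hds]
      exact g4
  choose nx hnx1 hnx2 hnx3 hnx4 using hstep
  let sq : (n : ℕ) → {X : ℂ → ℂ → ℂ → ℂ // Q n X} := fun n =>
    Nat.rec (motive := fun n => {X : ℂ → ℂ → ℂ → ℂ // Q n X}) ⟨fun _ θ _ => θ, hQ0⟩
      (fun n p => ⟨nx n p.1 p.2, hnx1 n p.1 p.2⟩) n
  refine ⟨fun n => (sq n).1, b, δ, s, ε, e, d, ?_⟩
  exact
    { zero := rfl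
      par := hPar
      d_pos := hdp
      fd := fun n => (sq n).2
      hol := fun n => hnx2 n (sq n).1 (sq n).2
      bd := fun n => hnx3 n (sq n).1 (sq n).2
      jac := fun n => hnx4 n (sq n).1 (sq n).2
      c_nonneg := hep
      sum := fun k => by
        have hm0 : (0 : ℝ) < min (1 / 8) (min (2 * δ₀) (2 * (1 / 16))) := by positivity
        refine Summable.of_nonneg_of_le (fun n => ?_) (fun n => ?_)
          (eit_sum (C := C) hε₀0 hε₀1 hσ0 hδ₀0 (by norm_num : (0 : ℝ) < 1 / 16) hm0 k)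
        · have h1 := hep n
          have h2 := hdp (n + 1)
          have h3 := hδp (n + 1)
          have h4 := hsp (n + 1)
          positivity
        · refine div_le_div_of_nonneg_left (hep n) (by positivity) ?_
          exact pow_le_pow_left₀ (by positivity) (eit_min n) k
      lim := tendsto_eps hε₀0 hε₀1 }

end Pool.Agent.DC
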