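import Pool.Agent.NOne.KDom

/-!
# MP_74f563_an, n = 2, engine with parameter, file ETwo: the two constants theorem

`two_const`: `f` holomorphic on `UU w = {|Re z| < 1/4 + w, |Im z| < w}`, `|f| ≤ M` there and
`|f| ≤ m`
at the real points; then `|f| ≤ m^(7/8) M^(1/8)` on `UU (w/16)`.

PROOF.  Let `z = a + iy ∈ UU (w / 16)`, `|a| < 1/4 + w/16`, `|y| < w/16`.  If `y = 0` the claim
follows
from `m ≤ m^(7/8) M^(1/8)` (`m ≤ M`).  By the symmetry `g(z) = conj f(conj z)` or `f(-z)`... assume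
`y > 0` (for `y < 0` apply the case `y > 0` to `z ↦ conj (f (conj z))`).  Let `R = 15 w / 16`: the
disk
`|ζ - a| < R` is contained in `UU w`.  The function `T(ζ) = a + R tanh (ζ)` maps the strip
`|Im ζ| < π/4` into this disk: for `ζ = u + iv`,
`|tanh ζ|² = (sinh² u + sin² v) / (sinh² u + cos² v) < 1`
iff `cos 2v > 0`.  It maps the real line into the real points of the disk, and `T(i v₀) = a + iy`
with
`tan v₀ = y / R < (w/16) / (15 w/16) = 1/15`, `0 < v₀ < 1/15`.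
Put `F = f ∘ T` on `0 ≤ Im ζ ≤ v₁`, `v₁ = 3/4 < π/4`: `|F| ≤ m` for `Im ζ = 0`, `|F| ≤ M` for
`Im ζ = v₁`,
`F` bounded.  By the three lines theorem (`Complex.HadamardThreeLines.norm_le_interp_of_mem_...`,
after
the substitution `ζ = i v₁ (z)`, `z = x + iy'` with `0 ≤ Re z ≤ 1`; or use
`Pool/Agent/LRig` file `F6` / any form in the pool) `|F(i v₀)| ≤ m^(1 - v₀/v₁) M^(v₀/v₁)`, with
`v₀ / v₁ ≤ (1/15) / (3/4) = 4/45 ≤ 1/8`, and `m^(1-κ) M^κ` is increasing in `κ` (as `m ≤ M`,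
`0 < m`).
-/

set_option autoImplicit false

namespace Pool.Agent.DC

open Pool.Agent.NOne Complex Set MeasureTheory
open scoped ComplexConjugate

private theorem et_sin_le_cos {z : ℂ} (h0 : 0 ≤ z.re) (h1 : z.re ≤ 3 / 4) :
    ‖Complex.sin z‖ ≤ ‖Complex.cos z‖ := by
  have hcos : 0 ≤ Real.cos (2 * z.re) := by
    apply Real.cos_nonneg_of_neg_pi_div_two_le_of_le
    · linarith [Real.pi_pos]
    · linarith [Real.pi_gt_three]
  have key : ((‖Complex.cos z‖ ^ 2 - ‖Complex.sin z‖ ^ 2 : ℝ) : ℂ)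
      = ((Real.cos (2 * z.re) : ℝ) : ℂ) := by
    push_cast
    rw [← Complex.mul_conj', ← Complex.mul_conj', ← Complex.cos_conj, ← Complex.sin_conj,
      ← Complex.cos_add, Complex.add_conj]
    push_cast
    rfl
  have key2 : ‖Complex.cos z‖ ^ 2 - ‖Complex.sin z‖ ^ 2 = Real.cos (2 * z.re) := by
    exact_mod_cast key
  have : ‖Complex.sin z‖ ^ 2 ≤ ‖Complex.cos z‖ ^ 2 := by linarith
  exact le_of_sq_le_sq this (norm_nonneg _)

private theorem et_cos_ne {z : ℂ} (h0 : 0 ≤ z.re) (h1 : z.re ≤ 3 / 4) :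
    Complex.cos z ≠ 0 := by
  intro h
  have h2 := et_sin_le_cos h0 h1
  rw [h, norm_zero] at h2
  have h3 : Complex.sin z = 0 := norm_le_zero_iff.1 h2
  have h4 := Complex.sin_sq_add_cos_sq z
  rw [h, h3] at h4
  norm_num at h4

private theorem et_tan_le {z : ℂ} (h0 : 0 ≤ z.re) (h1 : z.re ≤ 3 / 4) :
    ‖Complex.tan z‖ ≤ 1 := by
  rw [Complex.tan_eq_sin_div_cos, norm_div]
  exact div_le_one_of_le₀ (et_sin_le_cos h0 h1) (norm_nonneg _)

theorem two_const {f : ℂ → ℂ} {w m M : ℝ} (hw : 0 < w) (hf : DifferentiableOn ℂ f (UU w))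
    (hm : 0 < m) (hmM : m ≤ M) (hM : ∀ z ∈ UU w, ‖f z‖ ≤ M)
    (hx : ∀ x : ℝ, (x : ℂ) ∈ UU w → ‖f x‖ ≤ m) :
    ∀ z ∈ UU (w / 16), ‖f z‖ ≤ m ^ (7 / 8 : ℝ) * M ^ (1 / 8 : ℝ) := by
  intro z hz
  obtain ⟨hza, hzb⟩ := hz
  set R : ℝ := 15 * w / 16 with hR
  have hRp : 0 < R := by positivity
  set ρ : ℝ := if 0 ≤ z.im then R else -R with hρ
  have hρa : |ρ| = R := by
    rw [hρ]
    split_ifs
    · exact abs_of_pos hRp
    · rw [abs_neg]; exact abs_of_pos hRp
  set v : ℝ := Real.arctan (|z.im| / R) with hv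
  have hv0 : 0 ≤ v := Real.arctan_nonneg.2 (by positivity)
  have htan : Real.tan v = |z.im| / R := Real.tan_arctan _
  have hvle : v ≤ 1 / 15 := by
    have h1 : v ≤ Real.tan v := by
      rcases hv0.eq_or_lt with h | h
      · rw [← h]; simp
      · exact (Real.lt_tan h (Real.arctan_lt_pi_div_two _)).le
    rw [htan] at h1
    refine h1.trans ?_
    rw [div_le_iff₀ hRp, hR]
    linarith
  have hρv : ρ * Real.tan v = z.im := by
    rw [htan, hρ]
    split_ifs with h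
    · rw [abs_of_nonneg h]; field_simp
    · rw [abs_of_neg (not_le.1 h)]; field_simp
  -- the map
  set T : ℂ → ℂ := fun ζ => (z.re : ℂ) + I * ((ρ : ℂ) * Complex.tan ζ) with hT
  have hTmem : ∀ ζ : ℂ, 0 ≤ ζ.re → ζ.re ≤ 3 / 4 → T ζ ∈ UU w := by
    intro ζ h0 h1
    have h2 : ‖I * ((ρ : ℂ) * Complex.tan ζ)‖ ≤ R := by
      rw [norm_mul, norm_mul, norm_I, one_mul, Complex.norm_real, Real.norm_eq_abs, hρa]
      have := et_tan_le h0 h1
      nlinarith
    have hre : |(I * ((ρ : ℂ) * Complex.tan ζ)).re| ≤ R := (abs_re_le_norm _).trans h2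
    have him : |(I * ((ρ : ℂ) * Complex.tan ζ)).im| ≤ R := (abs_im_le_norm _).trans h2
    refine ⟨?_, ?_⟩
    · simp only [hT, add_re, ofReal_re]
      refine (abs_add_le _ _).trans_lt ?_
      rw [hR] at hre
      linarith
    · simp only [hT, add_im, ofReal_im, zero_add]
      refine him.trans_lt ?_
      rw [hR]
      linarith
  have hTd : ∀ ζ : ℂ, 0 ≤ ζ.re → ζ.re ≤ 3 / 4 → DifferentiableAt ℂ T ζ := by
    intro ζ h0 h1
    have h2 : DifferentiableAt ℂ Complex.tan ζ :=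
      Complex.differentiableAt_tan.2 (et_cos_ne h0 h1)
    exact ((h2.const_mul _).const_mul _).const_add _
  have hFd : ∀ ζ : ℂ, 0 ≤ ζ.re → ζ.re ≤ 3 / 4 → DifferentiableAt ℂ (f ∘ T) ζ := by
    intro ζ h0 h1
    have h2 : DifferentiableAt ℂ f (T ζ) :=
      (hf _ (hTmem ζ h0 h1)).differentiableAt ((isOpen_UU w).mem_nhds (hTmem ζ h0 h1))
    exact h2.comp ζ (hTd ζ h0 h1)
  have hcl : closure (Complex.HadamardThreeLines.verticalStrip 0 (3 / 4)) ⊆
      Complex.HadamardThreeLines.verticalClosedStrip 0 (3 / 4) := by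
    apply closure_minimal
    · intro x hx
      exact ⟨hx.1.le, hx.2.le⟩
    · exact isClosed_Icc.preimage Complex.continuous_re
  have hdc : DiffContOnCl ℂ (f ∘ T)
      (Complex.HadamardThreeLines.verticalStrip 0 (3 / 4)) := by
    apply DifferentiableOn.diffContOnCl
    intro x hx
    have := hcl hx
    exact (hFd x this.1 this.2).differentiableWithinAt
  have hbd : BddAbove ((norm ∘ (f ∘ T)) ''
      Complex.HadamardThreeLines.verticalClosedStrip 0 (3 / 4)) := by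
    refine ⟨M, ?_⟩
    rintro _ ⟨x, hx, rfl⟩
    exact hM _ (hTmem x hx.1 hx.2)
  have hleft : ∀ ζ ∈ re ⁻¹' {(0 : ℝ)}, ‖(f ∘ T) ζ‖ ≤ m := by
    intro ζ hζ
    have hζ0 : ζ.re = 0 := hζ
    have hmem := hTmem ζ (by rw [hζ0]) (by rw [hζ0]; norm_num)
    have hζ1 : ζ = (ζ.im : ℂ) * I := by
      apply Complex.ext <;> simp [hζ0]
    have hreal : T ζ = ((z.re - ρ * Real.tanh ζ.im : ℝ) : ℂ) := by
      simp only [hT]
      rw [hζ1, Complex.tan_mul_I]
      push_cast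
      simp only [mul_im, ofReal_re, I_im, mul_one, ofReal_im, I_re, mul_zero, add_zero]
      linear_combination ((ρ : ℂ) * Complex.tanh ζ.im) * I_mul_I
    have h2 := hx (z.re - ρ * Real.tanh ζ.im) (by rw [← hreal]; exact hmem)
    rw [← hreal] at h2
    exact h2
  have hright : ∀ ζ ∈ re ⁻¹' {(3 / 4 : ℝ)}, ‖(f ∘ T) ζ‖ ≤ M := by
    intro ζ hζ
    have hζ0 : ζ.re = 3 / 4 := hζ
    exact hM _ (hTmem ζ (by rw [hζ0]; norm_num) (by rw [hζ0]))
  have hmain := Complex.HadamardThreeLines.norm_le_interp_of_mem_verticalClosedStrip'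
    (f := f ∘ T) (z := (v : ℂ)) (a := m) (b := M) (l := 0) (u := 3 / 4) (by norm_num)
    ⟨by simpa using hv0, by simp only [ofReal_re]; linarith⟩ hdc hbd hleft hright
  have hTv : T (v : ℂ) = z := by
    simp only [hT]
    rw [← Complex.ofReal_tan, ← Complex.ofReal_mul, hρv, mul_comm]
    exact Complex.re_add_im z
  rw [Function.comp_apply, hTv] at hmain
  refine hmain.trans ?_
  simp only [ofReal_re, sub_zero]
  set κ : ℝ := v / (3 / 4) with hκ
  have hκ1 : κ ≤ 1 / 8 := by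
    rw [hκ, div_le_iff₀ (by norm_num)]
    linarith
  have hMp : 0 < M := hm.trans_le hmM
  calc m ^ (1 - κ) * M ^ κ = m ^ (7 / 8 : ℝ) * m ^ (1 / 8 - κ) * M ^ κ := by
        rw [← Real.rpow_add hm]; congr 2; ring
    _ ≤ m ^ (7 / 8 : ℝ) * M ^ (1 / 8 - κ) * M ^ κ := by
        have := Real.rpow_le_rpow hm.le hmM (by linarith : 0 ≤ 1 / 8 - κ)
        gcongr
    _ = m ^ (7 / 8 : ℝ) * M ^ (1 / 8 : ℝ) := by
        rw [mul_assoc, ← Real.rpow_add hMp]; congr 2; ring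

end Pool.Agent.DC
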