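import Pool.Agent.DC.EOm
import Pool.Agent.DC.ETwo
import Pool.Agent.NOne.KOmN

/-!
# MP_74f563_an, n = 2, engine with parameter, file EOmN: the size of `Z` for the family

`num_ZE`.  PROOF.  As `num_Z` in `NOne/KOmN.lean`, now with the bound `14 K⁴ ε^(15/8)` of the
resonant
coefficients: `K⁶ ≤ 32⁶ ε^(-1/16) / δ⁶`, `e^{πKrs} ≤ e^{πKδ/65536} ≤ (24/ε)^(1/65536)`,
`e^{2πKδ/16} = (e^{πKδ})^(1/8) ≤ (24/ε)^(1/8)`; the exponent of `ε` is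
`15/8 - 1/16 - 1/8 - 1/65536 > 13/8`.  Second term: `e^{-2πK(15/16)δ} ≤ ε^(15/8)`.

`omega_boundE`.  PROOF.  As `omega_bound` in `NOne/KOmN.lean`.  `K` from `exists_K`.  Let `l ≠ 0`,
`|l| ≤ K`, `t` real, `|t| < 1/4 + s`, `l r (1 + t) ∈ ℤ`, and
`f(e) = cf l (sg r (lB r (B e)) (X e)) t`, which is
holomorphic on `UU d` (`FD.hsg`, `HE.hcf`, `HT.slice'`), `|f| ≤ 2 ε` there (`bd_sg`, `cf_bound` in
`NOne/KAvg` with `e^{-...} ≤ 1`).  For real `e ∈ UU d`: `B e`, `lB r (B e)`, `X e` are real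
(`hD.lamR`, `hD.XR`, `rsym_iff_rf`, `conj_ofReal`), so `LC.to_LD`, `SC.to_St` and `resonance`
(`NOne/KRes`) give `|f(e)| ≤ 7 l⁴ ε² ≤ 7 K⁴ ε²` (the smallness `r |l| ε ≤ δ` as in `omega_bound`).
`two_const` with `m = 7 K⁴ ε²`, `M = 2 ε` (if `m ≤ M`; if `M < m` then `|f| ≤ M ≤ m^(7/8) M^(1/8)`):
for `e ∈ UU (d / 16)`: `|f(e)| ≤ (7 K⁴ ε²)^(7/8) (2 ε)^(1/8) ≤ 14 K⁴ ε^(15/8) = A`.
Then `exists_wE` with `d' = d / 16` and `num_ZE`.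
-/

set_option autoImplicit false

namespace Pool.Agent.DC

open Pool.Agent.NOne Complex Set MeasureTheory
open scoped ComplexConjugate

theorem num_ZE : ∃ C : ℝ, 1 ≤ C ∧ ∀ (ε δ r s : ℝ) (K : ℕ), 0 < ε → ε ≤ 1 / 2 → 0 < δ → δ ≤ 1 →
    0 ≤ r * s → 65536 * (r * s) ≤ δ → 1 ≤ K → Real.exp (-(Real.pi * K * δ)) ≤ ε →
    Real.exp (Real.pi * K * δ) ≤ 24 / ε → (K : ℝ) ≤ 32 * ε ^ (-(1 / 96) : ℝ) / δ →
    2 * K * ((K + 2) * Real.exp (Real.pi * K * r * s) * (14 * (K : ℝ) ^ 4 * ε ^ (15 / 8 : ℝ))) *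
        Real.exp (2 * Real.pi * K * (δ / 16)) +
        5 * Real.exp (-(2 * Real.pi * K * (δ - δ / 16))) / (δ - δ / 16) ≤
      C * ε ^ (13 / 8 : ℝ) / δ ^ 6 := by
  refine ⟨84 * 32 ^ 6 * 24 + 6, by norm_num, ?_⟩
  intro ε δ r s K hε hε1 hδ hδ1 hrs hrs' hK1 hem hep hKu
  have hπ := Real.pi_pos
  have hK1' : (1 : ℝ) ≤ K := by exact_mod_cast hK1
  have hK0 : (0 : ℝ) ≤ K := by linarith
  have hεle : ε ≤ 1 := by linarith
  have hX0 : 0 ≤ Real.pi * K * δ := by positivity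
  have hq : (1 : ℝ) ≤ 24 / ε := by
    rw [le_div_iff₀ hε]
    linarith
  -- the exponentials
  have he1 : Real.exp (Real.pi * K * r * s) * Real.exp (2 * Real.pi * K * (δ / 16)) ≤
      24 * ε ^ (-(9 / 64) : ℝ) := by
    have h1 : Real.pi * K * r * s ≤ Real.pi * K * δ * (1 / 64) := by
      have : Real.pi * K * (r * s) ≤ Real.pi * K * (δ * (1 / 64)) := by
        apply mul_le_mul_of_nonneg_left _ (by positivity)
        linarith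
      nlinarith
    calc Real.exp (Real.pi * K * r * s) * Real.exp (2 * Real.pi * K * (δ / 16))
        = Real.exp (Real.pi * K * r * s + 2 * Real.pi * K * (δ / 16)) :=
          (Real.exp_add _ _).symm
      _ ≤ Real.exp (Real.pi * K * δ * (9 / 64)) := by
          apply Real.exp_le_exp.mpr
          linarith
      _ = Real.exp (Real.pi * K * δ) ^ (9 / 64 : ℝ) := Real.exp_mul _ _
      _ ≤ (24 / ε) ^ (9 / 64 : ℝ) :=
          Real.rpow_le_rpow (Real.exp_pos _).le hep (by norm_num)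
      _ = 24 ^ (9 / 64 : ℝ) * ε ^ (-(9 / 64) : ℝ) := by
          rw [Real.div_rpow (by norm_num) hε.le, Real.rpow_neg hε.le]
          rfl
      _ ≤ 24 * ε ^ (-(9 / 64) : ℝ) := by
          apply mul_le_mul_of_nonneg_right _ (Real.rpow_nonneg hε.le _)
          calc (24 : ℝ) ^ (9 / 64 : ℝ) ≤ 24 ^ (1 : ℝ) :=
                Real.rpow_le_rpow_of_exponent_le (by norm_num) (by norm_num)
            _ = 24 := Real.rpow_one _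
  have hKp : (K : ℝ) ^ 6 ≤ 32 ^ 6 * ε ^ (-(1 / 16) : ℝ) / δ ^ 6 := by
    calc (K : ℝ) ^ 6 ≤ (32 * ε ^ (-(1 / 96) : ℝ) / δ) ^ 6 := pow_le_pow_left₀ hK0 hKu 6
      _ = 32 ^ 6 * ε ^ (-(1 / 16) : ℝ) / δ ^ 6 := by
          rw [div_pow, mul_pow, ← Real.rpow_natCast (ε ^ (-(1 / 96) : ℝ)) 6,
            ← Real.rpow_mul hε.le]
          norm_num
  have hδ6 : 0 < δ ^ 6 := by positivity
  have hpoly : 2 * (K : ℝ) * ((K + 2) * (14 * (K : ℝ) ^ 4)) ≤ 84 * (K : ℝ) ^ 6 := by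
    have h : (K : ℝ) + 2 ≤ 3 * K := by linarith
    calc 2 * (K : ℝ) * ((K + 2) * (14 * (K : ℝ) ^ 4))
        ≤ 2 * (K : ℝ) * ((3 * K) * (14 * (K : ℝ) ^ 4)) := by gcongr
      _ = 84 * (K : ℝ) ^ 6 := by ring
  have hT1 : 2 * K * ((K + 2) * Real.exp (Real.pi * K * r * s) *
        (14 * (K : ℝ) ^ 4 * ε ^ (15 / 8 : ℝ))) *
        Real.exp (2 * Real.pi * K * (δ / 16)) ≤
      84 * 32 ^ 6 * 24 * ε ^ (13 / 8 : ℝ) / δ ^ 6 := by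
    calc 2 * K * ((K + 2) * Real.exp (Real.pi * K * r * s) *
          (14 * (K : ℝ) ^ 4 * ε ^ (15 / 8 : ℝ))) *
          Real.exp (2 * Real.pi * K * (δ / 16))
        = (2 * (K : ℝ) * ((K + 2) * (14 * (K : ℝ) ^ 4))) *
          (Real.exp (Real.pi * K * r * s) * Real.exp (2 * Real.pi * K * (δ / 16))) *
            ε ^ (15 / 8 : ℝ) := by ring
      _ ≤ (84 * (K : ℝ) ^ 6) * (24 * ε ^ (-(9 / 64) : ℝ)) *
            ε ^ (15 / 8 : ℝ) := by gcongr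
      _ ≤ (84 * (32 ^ 6 * ε ^ (-(1 / 16) : ℝ) / δ ^ 6)) * (24 * ε ^ (-(9 / 64) : ℝ)) *
            ε ^ (15 / 8 : ℝ) := by gcongr
      _ = 84 * 32 ^ 6 * 24 * (ε ^ (-(1 / 16) : ℝ) * ε ^ (-(9 / 64) : ℝ) * ε ^ (15 / 8 : ℝ)) /
            δ ^ 6 := by
          ring
      _ = 84 * 32 ^ 6 * 24 * ε ^ (107 / 64 : ℝ) / δ ^ 6 := by
          rw [← Real.rpow_add hε, ← Real.rpow_add hε]
          norm_num
      _ ≤ 84 * 32 ^ 6 * 24 * ε ^ (13 / 8 : ℝ) / δ ^ 6 := by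
          have : ε ^ (107 / 64 : ℝ) ≤ ε ^ (13 / 8 : ℝ) :=
            Real.rpow_le_rpow_of_exponent_ge hε hεle (by norm_num)
          gcongr
  have hT2 : 5 * Real.exp (-(2 * Real.pi * K * (δ - δ / 16))) / (δ - δ / 16) ≤
      6 * ε ^ (13 / 8 : ℝ) / δ ^ 6 := by
    have h1 : Real.exp (-(2 * Real.pi * K * (δ - δ / 16))) ≤ ε ^ (13 / 8 : ℝ) := by
      calc Real.exp (-(2 * Real.pi * K * (δ - δ / 16)))
          = Real.exp (-(Real.pi * K * δ) * (15 / 8)) := by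
            congr 1
            ring
        _ = Real.exp (-(Real.pi * K * δ)) ^ (15 / 8 : ℝ) := Real.exp_mul _ _
        _ ≤ ε ^ (15 / 8 : ℝ) := Real.rpow_le_rpow (Real.exp_pos _).le hem (by norm_num)
        _ ≤ ε ^ (13 / 8 : ℝ) := Real.rpow_le_rpow_of_exponent_ge hε hεle (by norm_num)
    have h2 : δ ^ 6 ≤ δ := by
      calc δ ^ 6 ≤ δ ^ 1 := pow_le_pow_of_le_one hδ.le hδ1 (by norm_num)
        _ = δ := pow_one _
    have h3 : 0 < δ - δ / 16 := by linarith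
    rw [div_le_div_iff₀ h3 hδ6]
    have h4 : 0 ≤ ε ^ (13 / 8 : ℝ) := Real.rpow_nonneg hε.le _
    calc 5 * Real.exp (-(2 * Real.pi * K * (δ - δ / 16))) * δ ^ 6
        ≤ 5 * ε ^ (13 / 8 : ℝ) * δ := by gcongr
      _ ≤ 6 * ε ^ (13 / 8 : ℝ) * (δ - δ / 16) := by nlinarith [mul_nonneg h4 hδ.le]
  calc _ ≤ 84 * 32 ^ 6 * 24 * ε ^ (13 / 8 : ℝ) / δ ^ 6 + 6 * ε ^ (13 / 8 : ℝ) / δ ^ 6 :=
        add_le_add hT1 hT2
    _ = (84 * 32 ^ 6 * 24 + 6) * ε ^ (13 / 8 : ℝ) / δ ^ 6 := by ring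

theorem omega_boundE : ∃ C : ℝ, 1 ≤ C ∧
    ∀ {σ σ' M M' ρ₀ r b δ s ε c κ d : ℝ} {B X : ℂ → ℂ → ℂ → ℂ},
    (∀ e : ℝ, (e : ℂ) ∈ UU d → BD σ' ρ₀ M' (B e)) → 0 < d → Par σ M r b δ s →
    FD (UU d) σ M r b δ s ε (fun e => lB r (B e)) X → 0 < c → c < ρ₀ →
    (∀ e : ℝ, (e : ℂ) ∈ UU d → ∀ y Y₁ Y₂ : ℝ, |Y₁ - y| < c → |Y₂ - y| < c →
      gS (B e) y Y₁ + deriv (fun Y => gS (B e) y Y) Y₁ * (Y₂ - Y₁) + 1 / 2 * (Y₂ - Y₁) ^ 2 ≤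
        gS (B e) y Y₂) →
    (∀ e : ℝ, (e : ℂ) ∈ UU d → HZ (gS (B e)) c κ) → 4 * r < c → 2 * r < κ → 0 < ε →
    C * ε ≤ δ ^ 3 →
    ∃ w : ℂ → ℂ → ℂ → ℂ, (∀ δ' : ℝ, HE (UU (d / 16)) δ' s w) ∧ (∀ e, Per (w e)) ∧ RS w ∧
      ∀ e ∈ UU (d / 16), Bd (δ / 16) s (C * ε ^ (13 / 8 : ℝ) / δ ^ 6)
        (Zf r (lB r (B e)) (X e) (w e)) := by
  obtain ⟨C₀, hC₀, hZ⟩ := num_ZE
  refine ⟨C₀ + 32768, by linarith, ?_⟩
  intro σ σ' M M' ρ₀ r b δ s ε c κ d B X hB hd hp hD hc0 hcρ hc h0 hrc hrκ hε hCε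
  have hδ := hp.δ_pos
  have hδ8 : δ ≤ 1 / 8 := by
    have := hp.δ_le
    have := hp.σ_le
    linarith
  have hδ1 : δ ≤ 1 := by linarith
  have hδ3 : δ ^ 3 ≤ 1 := pow_le_one₀ hδ.le hδ1
  have hε32 : 32768 * ε ≤ δ ^ 3 := by nlinarith
  have hε1 : ε ≤ 1 / 2 := by linarith
  have hrpos := hp.r_pos
  have hr1 : r ≤ 1 := by
    have h1 := hp.r_le
    have h2 : σ ^ 2 ≤ 1 := pow_le_one₀ hp.σ_pos.le hp.σ_le
    have h3 := mul_le_mul_of_nonneg_right hp.M_ge hrpos.le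
    nlinarith
  obtain ⟨K, hK1, hem, hep, hKu⟩ := exists_K hε hε1 hδ hδ1
  have hK0 : (0 : ℝ) ≤ K := Nat.cast_nonneg K
  have hKε : (K : ℝ) * ε ≤ δ := by
    have h1 : ε ^ (95 / 96 : ℝ) ≤ δ ^ 2 / 32 := by
      calc ε ^ (95 / 96 : ℝ) ≤ ε ^ (2 / 3 : ℝ) :=
            Real.rpow_le_rpow_of_exponent_ge hε (by linarith) (by norm_num)
        _ ≤ ((δ / 32) ^ (3 : ℝ)) ^ (2 / 3 : ℝ) := by
            apply Real.rpow_le_rpow hε.le _ (by norm_num)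
            rw [show (3 : ℝ) = ((3 : ℕ) : ℝ) by norm_num, Real.rpow_natCast, div_pow]
            rw [le_div_iff₀ (by norm_num)]
            norm_num
            linarith
        _ = (δ / 32) ^ 2 := by
            rw [← Real.rpow_mul (by positivity)]
            norm_num
        _ ≤ δ ^ 2 / 32 := by nlinarith [sq_nonneg δ]
    have h2 : ε ^ (-(1 / 96) : ℝ) * ε = ε ^ (95 / 96 : ℝ) := by
      conv_lhs => rw [← Real.rpow_one ε, ← Real.rpow_mul hε.le]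
      rw [← Real.rpow_add hε]
      norm_num
    calc (K : ℝ) * ε ≤ 32 * ε ^ (-(1 / 96) : ℝ) / δ * ε := by gcongr
      _ = 32 * ε ^ (95 / 96 : ℝ) / δ := by
          rw [← h2]
          ring
      _ ≤ 32 * (δ ^ 2 / 32) / δ := by gcongr
      _ = δ := by
          field_simp
  have hs := hp.s_pos
  have hV := isOpen_UU d
  have hdd : d / 16 ≤ d := by linarith
  have hK1' : (1 : ℝ) ≤ K := by exact_mod_cast hK1
  have hreal : ∀ e : ℝ, RSym (lB r (B e)) ∧ RSym (X e) := by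
    intro e
    have h1 := hD.lamR (e : ℂ)
    have h2 := hD.XR (e : ℂ)
    rw [conj_ofReal] at h1 h2
    exact ⟨rsym_iff_rf.2 h1.symm, rsym_iff_rf.2 h2.symm⟩
  have hA : ∀ e ∈ UU (d / 16), ∀ l : ℤ, l ≠ 0 → |l| ≤ K → ∀ t : ℝ, |t| < 1 / 4 + s →
      (∃ m : ℤ, (l : ℝ) * (r * (1 + t)) = m) →
      ‖cf l (sg r (lB r (B e)) (X e)) t‖ ≤ 14 * (K : ℝ) ^ 4 * ε ^ (15 / 8 : ℝ) := by
    intro e he l hl0 hlK t ht hm
    obtain ⟨m₀, hm⟩ := hm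
    have hlK' : |(l : ℝ)| ≤ K := by exact_mod_cast hlK
    have hsmall : r * |(l : ℝ)| * ε ≤ δ := by
      calc r * |(l : ℝ)| * ε ≤ 1 * K * ε := by gcongr
        _ = K * ε := by ring
        _ ≤ δ := hKε
    have ht2 : (t : ℂ) ∈ UU s := ofReal_mem_UU hs ht
    have ht3 : (t : ℂ) ∈ UU (2 * s) := UU_mono (by linarith) ht2
    have hsgH : HE (UU d) (9 / 8 * δ) (2 * s) fun e => sg r (lB r (B e)) (X e) :=
      FD.hsg hp hV hD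
    have hcfH : HT (UU d) (2 * s) fun e => cf l (sg r (lB r (B e)) (X e)) :=
      hsgH.hcf hV (by linarith) l
    have hdiff : DifferentiableOn ℂ (fun e => cf l (sg r (lB r (B e)) (X e)) t) (UU d) :=
      hcfH.slice' ht3
    have hbM : ∀ z ∈ UU d, ‖cf l (sg r (lB r (B z)) (X z)) t‖ ≤ 2 * ε := by
      intro z hz
      obtain ⟨g1, g2, g3, -⟩ := bd_sg hp (hD.lc z hz) (hD.sc z hz) (hD.err z hz)
      have g4 := cf_bound (g1.mono (by linarith) (by linarith)) hδ g3 g2 l ht2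
      have g5 : Real.exp (-(2 * Real.pi * |(l : ℝ)| * δ)) ≤ 1 := by
        apply Real.exp_le_one_iff.2
        have := Real.pi_pos
        have : 0 ≤ 2 * Real.pi * |(l : ℝ)| * δ := by positivity
        linarith
      calc ‖cf l (sg r (lB r (B z)) (X z)) t‖ ≤
          2 * ε * Real.exp (-(2 * Real.pi * |(l : ℝ)| * δ)) := g4
        _ ≤ 2 * ε * 1 := by gcongr
        _ = 2 * ε := by ring
    have hbm : ∀ x : ℝ, (x : ℂ) ∈ UU d →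
        ‖cf l (sg r (lB r (B (x : ℂ))) (X (x : ℂ))) t‖ ≤ 7 * (K : ℝ) ^ 4 * ε ^ 2 := by
      intro x hx
      have h := resonance (hB x hx) hp ((hD.lc _ hx).to_LD (hreal x).1)
        ((hD.sc _ hx).to_St (hreal x).2) (hD.err _ hx) hc0 hcρ (hc x hx) (h0 x hx) hrc hrκ hl0
        ht hm hsmall
      calc ‖cf l (sg r (lB r (B (x : ℂ))) (X (x : ℂ))) t‖ ≤ 7 * |(l : ℝ)| ^ 4 * ε ^ 2 := h
        _ ≤ 7 * (K : ℝ) ^ 4 * ε ^ 2 := by gcongr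
    have hm0 : 0 < 7 * (K : ℝ) ^ 4 * ε ^ 2 := by positivity
    have h1 : ‖cf l (sg r (lB r (B e)) (X e)) t‖ ≤
        (7 * (K : ℝ) ^ 4 * ε ^ 2) ^ (7 / 8 : ℝ) * (2 * ε) ^ (1 / 8 : ℝ) := by
      rcases le_or_gt (7 * (K : ℝ) ^ 4 * ε ^ 2) (2 * ε) with h | h
      · exact two_const hd hdiff hm0 h hbM hbm e he
      · have h2 := hbM e (UU_mono hdd he)
        have h3 : (2 * ε) = (2 * ε) ^ (7 / 8 : ℝ) * (2 * ε) ^ (1 / 8 : ℝ) := by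
          rw [← Real.rpow_add (by positivity)]
          norm_num
        have h4 : (2 * ε) ^ (7 / 8 : ℝ) ≤ (7 * (K : ℝ) ^ 4 * ε ^ 2) ^ (7 / 8 : ℝ) :=
          Real.rpow_le_rpow (by positivity) h.le (by norm_num)
        have h5 : 0 ≤ (2 * ε) ^ (1 / 8 : ℝ) := by positivity
        calc ‖cf l (sg r (lB r (B e)) (X e)) t‖ ≤ 2 * ε := h2
          _ = (2 * ε) ^ (7 / 8 : ℝ) * (2 * ε) ^ (1 / 8 : ℝ) := h3
          _ ≤ _ := by gcongr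
    have h6 : (7 * (K : ℝ) ^ 4 * ε ^ 2) ^ (7 / 8 : ℝ) ≤ 7 * (K : ℝ) ^ 4 * ε ^ (7 / 4 : ℝ) := by
      have h7 : (1 : ℝ) ≤ 7 * (K : ℝ) ^ 4 := by
        have : (1 : ℝ) ≤ (K : ℝ) ^ 4 := one_le_pow₀ hK1'
        linarith
      rw [Real.mul_rpow (by positivity) (by positivity)]
      have h8 : (ε ^ 2) ^ (7 / 8 : ℝ) = ε ^ (7 / 4 : ℝ) := by
        rw [← Real.rpow_two, ← Real.rpow_mul hε.le]
        norm_num
      have h9 : (7 * (K : ℝ) ^ 4) ^ (7 / 8 : ℝ) ≤ 7 * (K : ℝ) ^ 4 := by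
        calc (7 * (K : ℝ) ^ 4) ^ (7 / 8 : ℝ) ≤ (7 * (K : ℝ) ^ 4) ^ (1 : ℝ) :=
              Real.rpow_le_rpow_of_exponent_le h7 (by norm_num)
          _ = _ := Real.rpow_one _
      rw [h8]
      gcongr
    have h10 : (2 * ε) ^ (1 / 8 : ℝ) ≤ 2 * ε ^ (1 / 8 : ℝ) := by
      rw [Real.mul_rpow (by norm_num) hε.le]
      have : (2 : ℝ) ^ (1 / 8 : ℝ) ≤ 2 := by
        calc (2 : ℝ) ^ (1 / 8 : ℝ) ≤ 2 ^ (1 : ℝ) :=
              Real.rpow_le_rpow_of_exponent_le (by norm_num) (by norm_num)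
          _ = 2 := Real.rpow_one _
      gcongr
    calc ‖cf l (sg r (lB r (B e)) (X e)) t‖ ≤
        (7 * (K : ℝ) ^ 4 * ε ^ 2) ^ (7 / 8 : ℝ) * (2 * ε) ^ (1 / 8 : ℝ) := h1
      _ ≤ (7 * (K : ℝ) ^ 4 * ε ^ (7 / 4 : ℝ)) * (2 * ε ^ (1 / 8 : ℝ)) := by gcongr
      _ = 14 * (K : ℝ) ^ 4 * (ε ^ (7 / 4 : ℝ) * ε ^ (1 / 8 : ℝ)) := by ring
      _ = 14 * (K : ℝ) ^ 4 * ε ^ (15 / 8 : ℝ) := by
        rw [← Real.rpow_add hε]
        norm_num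
  obtain ⟨w, hw1, hw2, hw3, hw4⟩ := exists_wE (K := K)
    (A := 14 * (K : ℝ) ^ 4 * ε ^ (15 / 8 : ℝ)) (d' := d / 16) hp hD hdd (by positivity) hA
  refine ⟨w, hw1, hw2, hw3, ?_⟩
  intro e he θ t hθ ht
  have h1 := hZ ε δ r s K hε hε1 hδ hδ1 (mul_nonneg hrpos.le hp.s_pos.le) hp.rs hK1 hem hep hKu
  calc ‖Zf r (lB r (B e)) (X e) (w e) θ t‖ ≤ _ := hw4 e he θ t hθ ht
    _ ≤ C₀ * ε ^ (13 / 8 : ℝ) / δ ^ 6 := h1
    _ ≤ (C₀ + 32768) * ε ^ (13 / 8 : ℝ) / δ ^ 6 := by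
        gcongr
        linarith

end Pool.Agent.DC
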