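import Pool.Agent.DC.CStep
import Pool.Agent.DC.EOmN
import Pool.Agent.NOne.KNew

/-!
# MP_74f563_an, n = 2, engine with parameter, file ENew: the Newton step of the family

PROOF of `newtonE`.  As `newton` in `NOne/KNew.lean` (copy its private lemma `kn_num` about the
numbers).
`C₁`, `C₂` the constants of `omega_boundE` and of `step` (`CStep`).  The hypothesis
`C ε ≤ σ² (δ s)²⁰` (with `C` large) implies `C₁ ε ≤ δ³`; let `w` be the family of `omega_boundE`,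
`ζ = C₁ ε^(13/8) / δ⁶ ≤ ε`, `y e = yf r (lB r (B e)) (X e) (w e)`.  For `e ∈ UU (d / 16) ⊆ UU d`:
`step` applies
to `X e`, `w e` (the hypothesis `∀ δ', Hol δ' s (w e)` by `HE.slice`), which gives all the pointwise
statements (`Bd` of `y e`, `SC` of `X e + y e` with the new constants, the new error
`C₂ (ζ + (ε + ζ)²) / (σ² (δ s)⁹) ≤ C ε^(13/8) / (σ² (δ s)¹⁵)`, the Jacobian).
Joint holomorphy of `y`: `FD.hyf` for the restricted family (`FD` on `UU (d / 16)` by restriction)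
and
`HE.mono`; of `X + y`: `HE.add`.  Reality: `RS y` by `rf_yf`, `lamR`, `XR`, `RS w`; `RS (X + y)` by
`rf_add`.
-/

set_option autoImplicit false

namespace Pool.Agent.DC

open Pool.Agent.NOne Complex Set MeasureTheory
open scoped ComplexConjugate

private lemma en_mono {r b b' δ s : ℝ} {lam X : ℂ → ℂ → ℂ} (h : SC r lam X b δ s)
    (hb : b ≤ b') : SC r lam X b' δ s :=
  ⟨h.per, h.hol, h.b0.mono le_rfl le_rfl hb, h.b1.mono le_rfl le_rfl hb,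
    h.b2.mono le_rfl le_rfl hb, h.b11.mono le_rfl le_rfl hb,
    fun t ht => (h.tau t ht).trans (by linarith)⟩

/-- the numbers -/
private lemma en_num {σ δ s ε K₁ K₂ : ℝ} (hσ : 0 < σ) (hσ1 : σ ≤ 1) (hδ : 0 < δ) (hδ1 : δ ≤ 1)
    (hs : 0 < s) (hs1 : s ≤ 1) (hε : 0 < ε) (hK₁ : 1 ≤ K₁) (hK₂ : 1 ≤ K₂)
    (h : (K₁ ^ 2 + K₂ * (K₁ + 4)) * ε ≤ σ ^ 2 * (δ * s) ^ 20) :
    K₁ * ε ≤ δ ^ 3 ∧ K₁ * ε ^ (13 / 8 : ℝ) / δ ^ 6 ≤ ε ∧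
    0 ≤ K₁ * ε ^ (13 / 8 : ℝ) / δ ^ 6 ∧
    K₂ * (ε + K₁ * ε ^ (13 / 8 : ℝ) / δ ^ 6) ≤ σ * (δ * s) ^ 9 ∧
    K₂ * (K₁ * ε ^ (13 / 8 : ℝ) / δ ^ 6 + (ε + K₁ * ε ^ (13 / 8 : ℝ) / δ ^ 6) ^ 2) /
      (σ ^ 2 * (δ * s) ^ 9) ≤
      (K₁ ^ 2 + K₂ * (K₁ + 4)) * ε ^ (13 / 8 : ℝ) / (σ ^ 2 * (δ * s) ^ 15) := by
  obtain ⟨u, hu, hu8⟩ : ∃ u : ℝ, 0 < u ∧ u ^ 8 = ε :=
    ⟨ε ^ (1 / 8 : ℝ), by positivity, by
      rw [← Real.rpow_natCast, ← Real.rpow_mul hε.le]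
      norm_num⟩
  have hu13 : ε ^ (13 / 8 : ℝ) = u ^ 13 := by
    rw [← hu8, ← Real.rpow_natCast u 8, ← Real.rpow_mul hu.le, ← Real.rpow_natCast u 13]
    norm_num
  rw [hu13]
  subst hu8
  have hδs : δ * s ≤ δ := by nlinarith
  have hδs0 : 0 < δ * s := by positivity
  have hδs1 : δ * s ≤ 1 := hδs.trans hδ1
  have hp20 : (δ * s) ^ 20 ≤ δ ^ 20 := pow_le_pow_left₀ hδs0.le hδs 20
  have hσ2 : σ ^ 2 ≤ 1 := pow_le_one₀ hσ.le hσ1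
  have hK12 : K₁ ≤ K₁ ^ 2 := by nlinarith
  have hKK : 0 ≤ K₂ * (K₁ + 4) := by positivity
  have hA : (K₁ ^ 2 + K₂ * (K₁ + 4)) * u ^ 8 ≤ δ ^ 20 := by
    refine h.trans ?_
    have : σ ^ 2 * (δ * s) ^ 20 ≤ 1 * δ ^ 20 :=
      mul_le_mul hσ2 hp20 (by positivity) (by norm_num)
    linarith
  have hu8 : 0 < u ^ 8 := by positivity
  have hA1 : K₁ ^ 2 * u ^ 8 ≤ δ ^ 20 := by nlinarith
  have h1 : K₁ * u ^ 8 ≤ δ ^ 3 := by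
    have h2 : K₁ * u ^ 8 ≤ K₁ ^ 2 * u ^ 8 := mul_le_mul_of_nonneg_right hK12 hu8.le
    have h3 : δ ^ 20 ≤ δ ^ 3 := pow_le_pow_of_le_one hδ.le hδ1 (by norm_num)
    linarith
  have hu1 : u ≤ 1 := by
    by_contra hc
    push Not at hc
    have h2 : 1 < u ^ 8 := one_lt_pow₀ hc (by norm_num)
    have h3 : δ ^ 3 ≤ 1 := pow_le_one₀ hδ.le hδ1
    nlinarith
  have hA2 : K₁ * u ^ 4 ≤ δ ^ 10 := by
    have h2 : (K₁ * u ^ 4) ^ 2 ≤ (δ ^ 10) ^ 2 := by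
      calc (K₁ * u ^ 4) ^ 2 = K₁ ^ 2 * u ^ 8 := by ring
        _ ≤ δ ^ 20 := hA1
        _ = (δ ^ 10) ^ 2 := by ring
    exact le_of_sq_le_sq h2 (by positivity)
  have hA3 : K₁ * u ^ 5 ≤ δ ^ 6 := by
    have h2 : K₁ * u ^ 5 ≤ K₁ * u ^ 4 :=
      mul_le_mul_of_nonneg_left (pow_le_pow_of_le_one hu.le hu1 (by norm_num)) (by linarith)
    have h3 : δ ^ 10 ≤ δ ^ 6 := pow_le_pow_of_le_one hδ.le hδ1 (by norm_num)
    linarith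
  have hδ6 : 0 < δ ^ 6 := by positivity
  have hζ : K₁ * u ^ 13 / δ ^ 6 ≤ u ^ 8 := by
    rw [div_le_iff₀ hδ6]
    calc K₁ * u ^ 13 = u ^ 8 * (K₁ * u ^ 5) := by ring
      _ ≤ u ^ 8 * δ ^ 6 := mul_le_mul_of_nonneg_left hA3 hu8.le
  have hζ0 : 0 ≤ K₁ * u ^ 13 / δ ^ 6 := by positivity
  refine ⟨h1, hζ, hζ0, ?_, ?_⟩
  · have h2 : K₂ * (u ^ 8 + K₁ * u ^ 13 / δ ^ 6) ≤ K₂ * (2 * u ^ 8) :=
      mul_le_mul_of_nonneg_left (by linarith) (by linarith)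
    have h3 : K₂ * (2 * u ^ 8) ≤ (K₁ ^ 2 + K₂ * (K₁ + 4)) * u ^ 8 := by
      have : 2 * K₂ ≤ K₁ ^ 2 + K₂ * (K₁ + 4) := by nlinarith
      calc K₂ * (2 * u ^ 8) = (2 * K₂) * u ^ 8 := by ring
        _ ≤ _ := mul_le_mul_of_nonneg_right this hu8.le
    have h4 : σ ^ 2 * (δ * s) ^ 20 ≤ σ * (δ * s) ^ 9 :=
      mul_le_mul (by nlinarith) (pow_le_pow_of_le_one hδs0.le hδs1 (by norm_num))
        (by positivity) hσ.le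
    linarith
  · have hd : 0 < (δ * s) ^ 9 := by positivity
    have h6 : (δ * s) ^ 15 ≤ δ ^ 6 * (δ * s) ^ 9 := by
      calc (δ * s) ^ 15 = (δ * s) ^ 6 * (δ * s) ^ 9 := by ring
        _ ≤ δ ^ 6 * (δ * s) ^ 9 :=
          mul_le_mul_of_nonneg_right (pow_le_pow_left₀ hδs0.le hδs 6) hd.le
    have h9 : δ ^ 6 * (δ * s) ^ 9 ≤ (δ * s) ^ 9 := by
      have : δ ^ 6 ≤ 1 := pow_le_one₀ hδ.le hδ1
      nlinarith
    rw [div_le_div_iff₀ (by positivity) (by positivity)]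
    have hsq : (u ^ 8 + K₁ * u ^ 13 / δ ^ 6) ^ 2 ≤ 4 * u ^ 13 := by
      have h2 : (u ^ 8 + K₁ * u ^ 13 / δ ^ 6) ^ 2 ≤ (2 * u ^ 8) ^ 2 :=
        pow_le_pow_left₀ (by positivity) (by linarith) 2
      have h3 : u ^ 16 ≤ u ^ 13 := pow_le_pow_of_le_one hu.le hu1 (by norm_num)
      nlinarith
    have hz : K₁ * u ^ 13 / δ ^ 6 * (δ * s) ^ 15 ≤ K₁ * u ^ 13 * (δ * s) ^ 9 := by
      calc K₁ * u ^ 13 / δ ^ 6 * (δ * s) ^ 15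
          ≤ K₁ * u ^ 13 / δ ^ 6 * (δ ^ 6 * (δ * s) ^ 9) :=
            mul_le_mul_of_nonneg_left h6 hζ0
        _ = K₁ * u ^ 13 * (δ * s) ^ 9 := by field_simp
    have hq : (u ^ 8 + K₁ * u ^ 13 / δ ^ 6) ^ 2 * (δ * s) ^ 15 ≤ 4 * u ^ 13 * (δ * s) ^ 9 :=
      mul_le_mul hsq (h6.trans h9) (by positivity) (by positivity)
    have hsum : (K₁ * u ^ 13 / δ ^ 6 + (u ^ 8 + K₁ * u ^ 13 / δ ^ 6) ^ 2) * (δ * s) ^ 15 ≤
        (K₁ + 4) * (u ^ 13 * (δ * s) ^ 9) := by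
      calc _ = K₁ * u ^ 13 / δ ^ 6 * (δ * s) ^ 15 +
            (u ^ 8 + K₁ * u ^ 13 / δ ^ 6) ^ 2 * (δ * s) ^ 15 := by ring
        _ ≤ K₁ * u ^ 13 * (δ * s) ^ 9 + 4 * u ^ 13 * (δ * s) ^ 9 := add_le_add hz hq
        _ = _ := by ring
    have hσ20 : 0 ≤ σ ^ 2 := by positivity
    have hP : 0 ≤ u ^ 13 * (δ * s) ^ 9 := by positivity
    calc K₂ * (K₁ * u ^ 13 / δ ^ 6 + (u ^ 8 + K₁ * u ^ 13 / δ ^ 6) ^ 2) *
          (σ ^ 2 * (δ * s) ^ 15)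
        = (K₂ * σ ^ 2) * ((K₁ * u ^ 13 / δ ^ 6 + (u ^ 8 + K₁ * u ^ 13 / δ ^ 6) ^ 2) *
          (δ * s) ^ 15) := by ring
      _ ≤ (K₂ * σ ^ 2) * ((K₁ + 4) * (u ^ 13 * (δ * s) ^ 9)) :=
        mul_le_mul_of_nonneg_left hsum (by positivity)
      _ = (K₂ * (K₁ + 4)) * (σ ^ 2 * (u ^ 13 * (δ * s) ^ 9)) := by ring
      _ ≤ (K₁ ^ 2 + K₂ * (K₁ + 4)) * (σ ^ 2 * (u ^ 13 * (δ * s) ^ 9)) :=
        mul_le_mul_of_nonneg_right (by nlinarith [sq_nonneg K₁]) (by positivity)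
      _ = (K₁ ^ 2 + K₂ * (K₁ + 4)) * u ^ 13 * (σ ^ 2 * (δ * s) ^ 9) := by ring

theorem newtonE : ∃ C : ℝ, 1 ≤ C ∧
    ∀ {σ σ' M M' ρ₀ r b δ s ε c κ d : ℝ} {B X : ℂ → ℂ → ℂ → ℂ},
    (∀ e : ℝ, (e : ℂ) ∈ UU d → BD σ' ρ₀ M' (B e)) → 0 < d → Par σ M r b δ s →
    FD (UU d) σ M r b δ s ε (fun e => lB r (B e)) X → 0 < c → c < ρ₀ →
    (∀ e : ℝ, (e : ℂ) ∈ UU d → ∀ y Y₁ Y₂ : ℝ, |Y₁ - y| < c → |Y₂ - y| < c →
      gS (B e) y Y₁ + deriv (fun Y => gS (B e) y Y) Y₁ * (Y₂ - Y₁) + 1 / 2 * (Y₂ - Y₁) ^ 2 ≤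
        gS (B e) y Y₂) →
    (∀ e : ℝ, (e : ℂ) ∈ UU d → HZ (gS (B e)) c κ) → 4 * r < c → 2 * r < κ → 0 < ε →
    C * ε ≤ σ ^ 2 * (δ * s) ^ 20 →
    ∃ y : ℂ → ℂ → ℂ → ℂ,
      HE (UU (d / 16)) (2 * (δ / 4096)) (2 * (s / 4096)) y ∧
      (∀ e ∈ UU (d / 16), Bd (2 * (δ / 4096)) (2 * (s / 4096))
        (C * ε / (σ * (δ * s) ^ 9)) (y e)) ∧
      FD (UU (d / 16)) σ M r (b + C * ε / (σ * (δ * s) ^ 9)) (δ / 4096) (s / 4096)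
        (C * ε ^ (13 / 8 : ℝ) / (σ ^ 2 * (δ * s) ^ 15)) (fun e => lB r (B e))
        (fun e θ t => X e θ t + y e θ t) ∧
      ∀ e ∈ UU (d / 16), ∀ θ t : ℝ, |t| ≤ 1 / 4 →
        ‖Jf r (lB r (B e)) (X e) θ t - ta r (lB r (B e)) (X e) t‖ ≤
          C * ε / (σ * (δ * s) ^ 9) := by
  obtain ⟨K₁, hK₁, hO⟩ := omega_boundE
  obtain ⟨K₂, hK₂, hS⟩ := step
  have hK : 1 ≤ K₁ ^ 2 + K₂ * (K₁ + 4) := by nlinarith
  refine ⟨K₁ ^ 2 + K₂ * (K₁ + 4), hK, ?_⟩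
  intro σ σ' M M' ρ₀ r b δ s ε c κ d B X hB hd0 hp hD hc0 hcρ hc h0 hrc hrκ hε hCε
  have hδ := hp.δ_pos
  have hσ := hp.σ_pos
  have hs := hp.s_pos
  have hσ1 := hp.σ_le
  have hδ1 : δ ≤ 1 := by
    have := hp.δ_le
    linarith
  have hs1 : s ≤ 1 := hp.s_le.trans (by norm_num)
  obtain ⟨h1, h2, h3, h4, h5⟩ := en_num hσ hσ1 hδ hδ1 hs hs1 hε hK₁ hK₂ hCε
  obtain ⟨w, hw, hwP, hwR, hZ⟩ := hO hB hd0 hp hD hc0 hcρ hc h0 hrc hrκ hε h1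
  have hsub : UU (d / 16) ⊆ UU d := UU_mono (by linarith)
  have hV := isOpen_UU (d / 16)
  have hD' : FD (UU (d / 16)) σ M r b δ s ε (fun e => lB r (B e)) X :=
    ⟨fun e he => hD.lc e (hsub he), fun e he => hD.sc e (hsub he),
      fun e he => hD.err e (hsub he), hD.lamH.mono hsub le_rfl le_rfl,
      hD.XH.mono hsub le_rfl le_rfl, hD.lamR, hD.XR⟩
  have hst := fun e (he : e ∈ UU (d / 16)) =>
    hS hp (hD'.lc e he) (hD'.sc e he) (fun δ' => (hw δ').slice he) (hwP e) hε h3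
      (hD'.err e he) (hZ e he) h4
  have hyf : HE (UU (d / 16)) δ s fun e => yf r (lB r (B e)) (X e) (w e) :=
    FD.hyf hp hV hD' hw
  have hd : 0 < σ * (δ * s) ^ 9 := by positivity
  have h6 : K₂ * (ε + K₁ * ε ^ (13 / 8 : ℝ) / δ ^ 6) / (σ * (δ * s) ^ 9) ≤
      (K₁ ^ 2 + K₂ * (K₁ + 4)) * ε / (σ * (δ * s) ^ 9) := by
    refine div_le_div_of_nonneg_right ?_ hd.le
    have h7 : K₂ * (ε + K₁ * ε ^ (13 / 8 : ℝ) / δ ^ 6) ≤ K₂ * (2 * ε) :=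
      mul_le_mul_of_nonneg_left (by linarith) (by linarith)
    have h8 : 2 * K₂ ≤ K₁ ^ 2 + K₂ * (K₁ + 4) := by nlinarith
    have h9 : (2 * K₂) * ε ≤ (K₁ ^ 2 + K₂ * (K₁ + 4)) * ε :=
      mul_le_mul_of_nonneg_right h8 hε.le
    linarith
  obtain ⟨y, hy⟩ : ∃ y : ℂ → ℂ → ℂ → ℂ, y = fun e => yf r (lB r (B e)) (X e) (w e) := ⟨_, rfl⟩
  have hye : ∀ e, y e = yf r (lB r (B e)) (X e) (w e) := fun e => by rw [hy]
  have hyH : HE (UU (d / 16)) (2 * (δ / 4096)) (2 * (s / 4096)) y := by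
    rw [hy]
    exact hyf.mono Subset.rfl (by linarith) (by linarith)
  have hyR : RS y := by
    intro e
    have e1 : lB r (B (conj e)) = rf (lB r (B e)) := hD.lamR e
    rw [hye, hye, ← rf_yf, e1, hD.XR e, hwR e]
  refine ⟨y, hyH, fun e he => ?_, ⟨hD'.lc, fun e he => ?_, fun e he => ?_, hD'.lamH,
    (hD'.XH.mono Subset.rfl (by linarith) (by linarith)).add hyH, hD.lamR, fun e => ?_⟩,
    fun e he θ t ht => ?_⟩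
  · rw [hye]
    exact (hst e he).2.2.1.mono le_rfl le_rfl h6
  · have h7 := (hst e he).2.2.2.1
    rw [← hye] at h7
    exact en_mono h7 (by linarith)
  · have h7 := (hst e he).2.2.2.2.1
    rw [← hye] at h7
    exact h7.mono le_rfl le_rfl h5
  · show (fun θ t => X (conj e) θ t + y (conj e) θ t) = rf (fun θ t => X e θ t + y e θ t)
    rw [rf_add, ← hD.XR e, ← hyR e]
  · exact ((hst e he).2.2.2.2.2 θ t ht).trans h6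

end Pool.Agent.DC
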