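import Pool.Agent.DC.CFam
import Pool.Agent.NOne.KSh
import Pool.Agent.NOne.KAvg

/-!
# MP_74f563_an, n = 2, engine with parameter, file ERf: reflections

`rf F θ t = conj (F (conj θ) (conj t))`.  All the operators of `NOne/KDefs` commute with `rf`.

PROOFS.  `rf_p1`: `deriv (fun z => conj (f (conj z))) θ = conj (deriv f (conj θ))` holds without any
assumption (as in the proof of `rsym_p1` in `NOne/KSh.lean`; `deriv_conj_conj`).  `rf_sh`, `rf_sm`,
`rf_DD`: `conj (θ + r (1 + t)) = conj θ + r (1 + conj t)` for real `r`.  `rf_avg`: the conjugation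
commutes with the integral (`integral_conj`, `conj_ofReal`), as in `avg_real`; `rf_cf`: as in
`cf_real`.
`rf_cmp`, `rf_lB`: unfold.  `rf_Er`, `rf_Zf`, `rf_yf`, ...: unfold the definitions and use the rules
above; `ch r (rf lam) (rf X) = deriv (avg (Sg r (rf lam) (rf X)))` with
`avg (rf F) = fun t => conj (avg F (conj t))`, so the derivative is
`fun t => conj (deriv (avg F) (conj t))`.
-/

set_option autoImplicit false

namespace Pool.Agent.DC

open Pool.Agent.NOne Complex Set MeasureTheory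
open scoped ComplexConjugate

variable {r : ℝ} {F G X lam w B : ℂ → ℂ → ℂ}

private theorem deriv_rf {f g : ℂ → ℂ} (h : ∀ z, g z = conj (f (conj z))) (z : ℂ) :
    deriv g z = conj (deriv f (conj z)) := by
  have h1 : g = conj ∘ f ∘ conj := by
    funext w
    exact h w
  rw [h1, deriv_conj_conj]
  simp

private theorem integral_conj' (f : ℝ → ℂ) :
    ∫ x in (0 : ℝ)..1, conj (f x) = conj (∫ x in (0 : ℝ)..1, f x) := by
  rw [intervalIntegral.integral_of_le zero_le_one, intervalIntegral.integral_of_le zero_le_one]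
  exact integral_conj

theorem rf_rf (F : ℂ → ℂ → ℂ) : rf (rf F) = F := by
  funext θ t
  simp only [rf, Complex.conj_conj]

theorem rsym_iff_rf : RSym F ↔ rf F = F := by
  constructor
  · intro h
    funext θ t
    simp only [rf]
    rw [h θ t, Complex.conj_conj]
  · intro h θ t
    have h1 := congrFun (congrFun h (conj θ)) (conj t)
    simp only [rf, Complex.conj_conj] at h1
    exact h1.symm

theorem rf_add (F G : ℂ → ℂ → ℂ) : rf (fun θ t => F θ t + G θ t) =
    fun θ t => rf F θ t + rf G θ t := by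
  funext θ t
  simp only [rf, map_add]

theorem rf_sub (F G : ℂ → ℂ → ℂ) : rf (fun θ t => F θ t - G θ t) =
    fun θ t => rf F θ t - rf G θ t := by
  funext θ t
  simp only [rf, map_sub]

theorem rf_mul (F G : ℂ → ℂ → ℂ) : rf (fun θ t => F θ t * G θ t) =
    fun θ t => rf F θ t * rf G θ t := by
  funext θ t
  simp only [rf, map_mul]

theorem rf_p1 (F : ℂ → ℂ → ℂ) : p1 (rf F) = rf (p1 F) := by
  funext θ t
  exact deriv_rf (f := fun z => F z (conj t)) (g := fun z => rf F z t) (fun _ => rfl) θ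

theorem rf_p2 (F : ℂ → ℂ → ℂ) : p2 (rf F) = rf (p2 F) := by
  funext θ t
  exact deriv_rf (f := fun z => F (conj θ) z) (g := fun z => rf F θ z) (fun _ => rfl) t

theorem rf_sh (r : ℝ) (F : ℂ → ℂ → ℂ) : sh r (rf F) = rf (sh r F) := by
  funext θ t
  have h1 : conj θ + r * (1 + conj t) = conj (θ + r * (1 + t)) := by simp
  simp only [sh, rf]
  rw [h1]

theorem rf_sm (r : ℝ) (F : ℂ → ℂ → ℂ) : sm r (rf F) = rf (sm r F) := by
  funext θ t
  have h1 : conj θ - r * (1 + conj t) = conj (θ - r * (1 + t)) := by simp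
  simp only [sm, rf]
  rw [h1]

theorem rf_DD (r : ℝ) (F : ℂ → ℂ → ℂ) : DD r (rf F) = rf (DD r F) := by
  funext θ t
  have h1 : conj θ + r * (1 + conj t) = conj (θ + r * (1 + t)) := by simp
  simp only [DD, rf]
  rw [h1, map_div₀, map_sub, Complex.conj_ofReal]

theorem rf_avg (F : ℂ → ℂ → ℂ) (t : ℂ) : avg (rf F) t = conj (avg F (conj t)) := by
  simp only [avg]
  rw [← integral_conj']
  refine intervalIntegral.integral_congr fun x _ => ?_
  simp only [rf, Complex.conj_ofReal]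

theorem rf_cf (l : ℤ) (F : ℂ → ℂ → ℂ) (t : ℂ) : cf l (rf F) t = conj (cf (-l) F (conj t)) := by
  simp only [cf]
  rw [← integral_conj']
  refine intervalIntegral.integral_congr fun x _ => ?_
  have h1 : exp (-(2 * Real.pi * I * (l : ℂ) * x)) =
      conj (exp (-(2 * Real.pi * I * ((-l : ℤ) : ℂ) * x))) := by
    rw [← exp_conj]
    congr 1
    simp only [map_neg, map_mul, map_ofNat, conj_ofReal, conj_I, map_intCast]
    push_cast
    ring
  simp only [rf, Complex.conj_ofReal, map_mul]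
  rw [h1]

theorem rf_cmp (r : ℝ) (G X : ℂ → ℂ → ℂ) :
    NOne.cmp r (rf G) (rf X) = rf (NOne.cmp r G X) := by
  funext θ t
  simp only [NOne.cmp]
  rw [rf_DD]
  simp only [rf, Complex.conj_conj, NOne.cmp]

theorem rf_lB (r : ℝ) (B : ℂ → ℂ → ℂ) : lB r (rf B) = rf (lB r B) := by
  funext x η
  simp only [lB, rf, map_mul, map_pow, Complex.conj_conj, Complex.conj_ofReal]

private theorem rf_Pm (r : ℝ) (lam X : ℂ → ℂ → ℂ) :
    Pm r (rf lam) (rf X) = rf (Pm r lam X) := by
  simp only [Pm, mo]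
  rw [rf_p2, rf_cmp, rf_sm]

private theorem rf_Sg (r : ℝ) (lam X : ℂ → ℂ → ℂ) :
    Sg r (rf lam) (rf X) = rf (Sg r lam X) := rf_cmp r lam X

private theorem rf_ch (r : ℝ) (lam X : ℂ → ℂ → ℂ) (t : ℂ) :
    ch r (rf lam) (rf X) t = conj (ch r lam X (conj t)) := by
  simp only [ch]
  rw [rf_Sg]
  exact deriv_rf (fun z => rf_avg _ z) t

theorem rf_Er (r : ℝ) (lam X : ℂ → ℂ → ℂ) : Er r (rf lam) (rf X) = rf (Er r lam X) := by
  funext θ t
  simp only [Er]
  rw [rf_p1, rf_cmp, rf_Pm, rf_DD]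
  simp only [rf, map_sub, Er]

theorem rf_ta (r : ℝ) (lam X : ℂ → ℂ → ℂ) (t : ℂ) :
    ta r (rf lam) (rf X) t = conj (ta r lam X (conj t)) := by
  simp only [ta]
  exact deriv_rf (fun z => rf_ch r lam X z) t

theorem rf_Zf (r : ℝ) (lam X w : ℂ → ℂ → ℂ) :
    Zf r (rf lam) (rf X) (rf w) = rf (Zf r lam X w) := by
  funext θ t
  simp only [Zf]
  rw [rf_Sg, rf_DD, rf_avg]
  simp only [rf, map_sub, Zf]

private theorem rf_Hf (r : ℝ) (lam X w : ℂ → ℂ → ℂ) :
    Hf r (rf lam) (rf X) (rf w) = rf (Hf r lam X w) := by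
  funext θ t
  simp only [Hf]
  rw [rf_p1, rf_ch, rf_Pm, rf_p1]
  simp only [rf, map_sub, map_add, map_mul, Hf]

private theorem rf_Kf (r : ℝ) (lam X w : ℂ → ℂ → ℂ) :
    Kf r (rf lam) (rf X) (rf w) = rf (Kf r lam X w) := by
  funext θ t
  simp only [Kf]
  rw [rf_p2, rf_Pm, rf_p2]
  simp only [rf, map_sub, map_mul, Kf]

theorem rf_yf (r : ℝ) (lam X w : ℂ → ℂ → ℂ) :
    yf r (rf lam) (rf X) (rf w) = rf (yf r lam X w) := by
  funext θ t
  simp only [yf]
  rw [rf_Hf, rf_Kf, rf_avg, rf_p2, rf_p1, rf_ta]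
  simp only [rf, map_sub, map_mul, map_div₀, yf]

end Pool.Agent.DC
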