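import Pool.Agent.DC.EFun
import Pool.Agent.DC.EInt
import Pool.Agent.DC.ERf
import Pool.Agent.DC.CIda
import Pool.Agent.NOne.KFou

/-!
# MP_74f563_an, n = 2, engine with parameter, file EOm: the generating function `w` of the family

`exists_wE`: the version of `exists_w` (`NOne/KOm.lean`) for a family.

PROOF.  Follow the proof of `exists_w` in `NOne/KOm.lean` (copy its private lemmas) with the family
parameter `e`: `g_l e t = cf l (sg r (lam e) (X e)) t` is `HT` on `UU d' × UU s` (`FD.hsg`,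
`HE.hcf`, `mono`);
`interpE` gives `b_l`, `h_l` (for `l ≠ 0`), holomorphic in `(e, t)`; `Q e = Pm · p1 X` (`FD.hPm`,
`HE.hp1`);
`c_l e t = (cf l (Q e) t + h_l e t) / (2πil)` is `HT`; `w₀ e θ t = ∑_{l ∈ S} c_l e t e^{2πilθ}`
(`HE.sum`, `HE.of_HT`, `HE.of_Hol`), so `HE (UU d') δ' s w₀` for every `δ'`, periodic in `θ` for
all `e`.
For every `e ∈ UU d'` the estimate of `Z₀ e = Zf r (lam e) (X e) (w₀ e)` is literally that of
`exists_w`
(at fixed `e`; `I1` from `CIda`, `hol_Sg`, `hol_Pm`, `bd_sg` from `CBas`; `A` bounds the values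
`g_l e t_m` for this `e`).
Reality: `w e = (w₀ e + rf (w₀ (conj e))) / 2`.  `HE` by `HE.refl` (`conj_mem_UU`); `RS w` since
`rf` is
an involution; `Zf` is affine in `w`: `Zf r (lam e) (X e) (w e) = (Z₀ e + Z₁ e) / 2` with
`Z₁ e = Zf r (lam e) (X e) (rf (w₀ (conj e))) = rf (Z₀ (conj e))` by `rf_Zf` and
`lam e = rf (lam (conj e))`, `X e = rf (X (conj e))` (`hD.lamR`, `hD.XR`).  So the same bound.
-/

set_option autoImplicit false

namespace Pool.Agent.DC

open Pool.Agent.NOne Complex Set MeasureTheory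
open scoped ComplexConjugate

private theorem eom_hol_exp (l : ℤ) (δ s : ℝ) :
    Hol δ s fun θ _ => exp (2 * Real.pi * I * l * θ) := by
  refine hol_of_strip (g := fun θ => exp (2 * Real.pi * I * l * θ)) ?_
  exact (Differentiable.cexp (by fun_prop)).differentiableOn

private theorem eom_per_exp (l : ℤ) (θ : ℂ) :
    exp (2 * Real.pi * I * l * (θ + 1)) = exp (2 * Real.pi * I * l * θ) := by
  have h1 : 2 * Real.pi * I * l * (θ + 1) = 2 * Real.pi * I * l * θ + l * (2 * Real.pi * I) := by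
    ring
  rw [h1, exp_add, exp_int_mul_two_pi_mul_I, mul_one]

private theorem eom_per_trig (c : ℤ → ℂ → ℂ) (S : Finset ℤ) :
    Per fun θ t => ∑ l ∈ S, c l t * exp (2 * Real.pi * I * l * θ) := by
  intro θ t
  simp only [eom_per_exp]

private theorem eom_cf_congr {F G : ℂ → ℂ → ℂ} {t : ℂ} (l : ℤ) (h : ∀ x : ℝ, F x t = G x t) :
    cf l F t = cf l G t := by
  unfold cf
  simp only [h]

/-- the frequencies -/
private noncomputable def eomS (K : ℕ) : Finset ℤ := (Finset.Icc (-(K : ℤ)) K).erase 0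

private theorem eom_mem {K : ℕ} (l : ℤ) : l ∈ eomS K ↔ l ≠ 0 ∧ |l| ≤ (K : ℤ) := by
  rw [eomS, Finset.mem_erase, Finset.mem_Icc, abs_le]

/-- the coefficients of `w₀` -/
private noncomputable def eomC (r : ℝ) (lam X : ℂ → ℂ → ℂ) (hh : ℤ → ℂ → ℂ) : ℤ → ℂ → ℂ :=
  fun l t => (cf l (fun θ t => Pm r lam X θ t * p1 X θ t) t + hh l t) / (2 * Real.pi * I * l)

/-- the estimate for a fixed value of the parameter -/
private theorem eom_est {σ M r b δ s ε A : ℝ} {K : ℕ} {lam X : ℂ → ℂ → ℂ} {bl hh : ℤ → ℂ → ℂ}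
    (hp : Par σ M r b δ s) (hl : LC σ M r lam) (hX : SC r lam X b δ s)
    (hE : Bd δ s ε (Er r lam X)) (hA0 : 0 ≤ A)
    (hbh : ∀ l : ℤ, l ≠ 0 → |l| ≤ (K : ℤ) → DifferentiableOn ℂ (hh l) (UU s) ∧
      (∀ t ∈ UU s, cf l (sg r lam X) t = bl l t + hh l t * dl r l t) ∧
      ∀ t ∈ UU s, ‖bl l t‖ ≤ (K + 2) * Real.exp (Real.pi * K * r * s) * A) :
    Bd (δ / 16) s (2 * K * ((K + 2) * Real.exp (Real.pi * K * r * s) * A) *
        Real.exp (2 * Real.pi * K * (δ / 16)) +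
        5 * Real.exp (-(2 * Real.pi * K * (δ - δ / 16))) / (δ - δ / 16))
        (Zf r lam X fun θ t => ∑ l ∈ eomS K, eomC r lam X hh l t *
          exp (2 * Real.pi * I * l * θ)) := by
  classical
  have hδ := hp.δ_pos
  have hs := hp.s_pos
  have hr := hp.r_pos
  have hrs := hp.rs
  have hrs0 : 0 < r * s := mul_pos hr hs
  have hrs1 : r * s ≤ δ := by nlinarith
  have h2s : s ≤ 2 * s := by linarith
  have hUU : UU s ⊆ UU (2 * s) := UU_mono h2s
  obtain ⟨hSg, hSgb, hSgp, -⟩ := hol_Sg hp hl hX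
  obtain ⟨hPm, -, hPmp, -⟩ := hol_Pm hp hl hX
  obtain ⟨hsg, hsgb, hsgp, -⟩ := bd_sg hp hl hX hE
  have hp1X : Hol (2 * δ) (2 * s) (p1 X) := hX.hol.hol_p1
  have hp1Xp : Per (p1 X) := fun θ t => per_p1_X hX θ t
  set Q : ℂ → ℂ → ℂ := fun θ t => Pm r lam X θ t * p1 X θ t with hQ
  have hQh : Hol (5 / 4 * δ) (2 * s) Q := hPm.mul (hp1X.mono (by linarith) le_rfl)
  have hQs : Hol (5 / 4 * δ) s Q := hQh.mono le_rfl h2s
  have hQp : Per Q := by
    intro θ t
    change Pm r lam X (θ + 1) t * p1 X (θ + 1) t = Pm r lam X θ t * p1 X θ t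
    rw [hPmp, hp1Xp]
  have hsgs : Hol δ s (sg r lam X) := hsg.mono (by linarith) h2s
  have hSgs : Hol δ s (Sg r lam X) := hSg.mono (by linarith) h2s
  have hmem : ∀ l : ℤ, l ∈ eomS K ↔ l ≠ 0 ∧ |l| ≤ (K : ℤ) := fun l => eom_mem l
  set S : Finset ℤ := eomS K with hS
  set c : ℤ → ℂ → ℂ := eomC r lam X hh with hc
  have hce : ∀ l t, c l t = (cf l Q t + hh l t) / (2 * Real.pi * I * l) := fun l t => rfl
  have hcd : ∀ l ∈ S, DifferentiableOn ℂ (c l) (UU s) := by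
    intro l hl'
    obtain ⟨h1, h2⟩ := (hmem l).1 hl'
    exact ((cf_hol hQs (by linarith) l).add (hbh l h1 h2).1).div_const _
  set w₀ : ℂ → ℂ → ℂ := fun θ t => ∑ l ∈ S, c l t * exp (2 * Real.pi * I * l * θ) with hw₀
  have hw₀h : ∀ δ' : ℝ, Hol δ' s w₀ := fun δ' =>
    Hol.sum fun l hl => (hol_of_UU (hcd l hl)).mul (eom_hol_exp l δ' s)
  have hw₀p : Per w₀ := eom_per_trig c S
  -- the error of `w₀`
  have hZ : Hol δ s (Zf r lam X w₀) :=
    (hSgs.sub (hol_of_UU (avg_hol hSgs hδ))).sub ((hw₀h (δ + r * s)).hol_DD hr.le le_rfl)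
  have hZp : Per (Zf r lam X w₀) := by
    intro θ t
    change Sg r lam X (θ + 1) t - avg (Sg r lam X) t - DD r w₀ (θ + 1) t =
      Sg r lam X θ t - avg (Sg r lam X) t - DD r w₀ θ t
    rw [hSgp, per_DD hw₀p]
  have hcf : ∀ l : ℤ, ∀ t ∈ UU s, cf l (Zf r lam X w₀) t =
      cf l (Sg r lam X) t - (if l = 0 then avg (Sg r lam X) t else 0) -
        dl r l t * (if l ∈ S then c l t else 0) := by
    intro l t ht
    have h1 := cf_sub (hSgs.sub (hol_of_UU (avg_hol hSgs hδ)))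
      ((hw₀h (δ + r * s)).hol_DD hr.le le_rfl) hδ l ht
    have h2 := cf_sub hSgs (hol_of_UU (avg_hol hSgs hδ) : Hol δ s fun _ t => avg (Sg r lam X) t)
      hδ l ht
    have h3 := cf_DD (hw₀h δ) hδ hw₀p hr.le hrs1 l ht
    have h4 := cf_trig S c l t
    have h5 := cf_of_t (avg (Sg r lam X)) l t
    rw [h2, h3, h5] at h1
    rw [hw₀] at h1 ⊢
    rw [h4] at h1
    exact h1
  have h2pi : ∀ l : ℤ, l ≠ 0 → (2 * Real.pi * I * l : ℂ) ≠ 0 := by
    intro l hl0
    have h1 : (Real.pi : ℂ) ≠ 0 := by exact_mod_cast Real.pi_ne_zero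
    have h2 : (l : ℂ) ≠ 0 := by exact_mod_cast hl0
    exact mul_ne_zero (mul_ne_zero (mul_ne_zero two_ne_zero h1) I_ne_zero) h2
  have hcf1 : ∀ l : ℤ, l ≠ 0 → |l| ≤ (K : ℤ) → ∀ t ∈ UU s,
      2 * Real.pi * I * l * cf l (Zf r lam X w₀) t = bl l t := by
    intro l hl0 hlK t ht
    have hlS : l ∈ S := (hmem l).2 ⟨hl0, hlK⟩
    rw [hcf l t ht, if_neg hl0, if_pos hlS, sub_zero]
    have h1 := cf_p1 hSgs hδ hSgp l ht
    have h2 : cf l (p1 (Sg r lam X)) t = cf l (fun θ t => DD r Q θ t + sg r lam X θ t) t := by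
      refine eom_cf_congr l fun x => ?_
      exact I1 hp hl hX (by simpa using hδ) (hUU ht)
    have hDQ : Hol δ s (DD r Q) := by
      refine hQs.hol_DD hr.le ?_
      nlinarith
    have h3 := cf_add hDQ hsgs hδ l ht
    have h4 := cf_DD (hQs.mono (by linarith) le_rfl : Hol δ s Q) hδ hQp hr.le hrs1 l ht
    have h5 := (hbh l hl0 hlK).2.1 t ht
    rw [h2, h3, h4, h5] at h1
    rw [mul_sub, ← h1]
    have h6 : 2 * Real.pi * I * l * (dl r l t * c l t) = dl r l t * (cf l Q t + hh l t) := by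
      rw [hce]
      field_simp [h2pi l hl0]
    rw [h6]
    ring
  intro θ t hθ ht
  refine norm_le_of_cf hZ hδ hZp ht (A := (K + 2) * Real.exp (Real.pi * K * r * s) * A)
    (A' := 5) (δ₁ := δ) (δ₂ := δ / 16) (K := K) (by positivity) (by norm_num) (by linarith)
    (by linarith) hθ.le (by linarith) ?_ ?_ ?_
  · rw [hcf 0 t ht, if_pos rfl, if_neg (by rw [hmem]; simp), mul_zero, sub_zero, cf_zero,
      sub_self]
  · intro l hl0 hlK
    have h1 := hcf1 l hl0 hlK t ht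
    have h2 := (hbh l hl0 hlK).2.2 t ht
    rw [← h1, norm_mul] at h2
    have h3 : (1 : ℝ) ≤ ‖(2 * Real.pi * I * l : ℂ)‖ := by
      rw [norm_mul, norm_mul, norm_mul, norm_I, mul_one, norm_real, norm_intCast]
      have h4 : (1 : ℝ) ≤ |(l : ℝ)| := by
        have : (1 : ℤ) ≤ |l| := Int.one_le_abs hl0
        exact_mod_cast this
      have h5 : ‖(2 : ℂ)‖ = 2 := by simp
      rw [h5, Real.norm_of_nonneg Real.pi_pos.le]
      nlinarith [Real.pi_gt_three]
    calc ‖cf l (Zf r lam X w₀) t‖ ≤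
        ‖(2 * Real.pi * I * l : ℂ)‖ * ‖cf l (Zf r lam X w₀) t‖ :=
          le_mul_of_one_le_left (norm_nonneg _) h3
      _ ≤ _ := h2
  · intro l hlK
    have hl0 : l ≠ 0 := by
      rintro rfl
      simp at hlK
      omega
    have hlS : l ∉ S := by
      rw [hmem]
      intro h
      exact absurd h.2 (not_le.2 hlK)
    rw [hcf l t ht, if_neg hl0, if_neg hlS, mul_zero, sub_zero, sub_zero]
    exact cf_bound hSgs hδ hSgp (hSgb.mono (by linarith) h2s le_rfl) l ht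

private theorem eom_affine (r : ℝ) (lam X w1 w2 : ℂ → ℂ → ℂ) (θ t : ℂ) :
    Zf r lam X (fun θ t => (w1 θ t + w2 θ t) / 2) θ t =
      (Zf r lam X w1 θ t + Zf r lam X w2 θ t) / 2 := by
  unfold Zf DD
  ring

theorem exists_wE {σ M r b δ s ε A d d' : ℝ} {K : ℕ} {lam X : ℂ → ℂ → ℂ → ℂ}
    (hp : Par σ M r b δ s) (hD : FD (UU d) σ M r b δ s ε lam X) (hd : d' ≤ d) (hA0 : 0 ≤ A)
    (hA : ∀ e ∈ UU d', ∀ l : ℤ, l ≠ 0 → |l| ≤ K → ∀ t : ℝ, |t| < 1 / 4 + s →
      (∃ m : ℤ, (l : ℝ) * (r * (1 + t)) = m) → ‖cf l (sg r (lam e) (X e)) t‖ ≤ A) :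
    ∃ w : ℂ → ℂ → ℂ → ℂ, (∀ δ' : ℝ, HE (UU d') δ' s w) ∧ (∀ e, Per (w e)) ∧ RS w ∧
      ∀ e ∈ UU d', Bd (δ / 16) s (2 * K * ((K + 2) * Real.exp (Real.pi * K * r * s) * A) *
        Real.exp (2 * Real.pi * K * (δ / 16)) +
        5 * Real.exp (-(2 * Real.pi * K * (δ - δ / 16))) / (δ - δ / 16))
        (Zf r (lam e) (X e) (w e)) := by
  classical
  have hδ := hp.δ_pos
  have hs := hp.s_pos
  have hr := hp.r_pos
  have hrs := hp.rs
  have hs8 : s ≤ 1 / 8 := hp.s_le.trans (by norm_num)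
  have hr1 : r ≤ 1 := by
    have h1 := hp.r_le
    have h2 := hp.M_ge
    have h3 := hp.σ_le
    have h4 := hp.σ_pos
    nlinarith [mul_nonneg (sub_nonneg.2 h2) hr.le, mul_nonneg h4.le (sub_nonneg.2 h3)]
  have h2s : s ≤ 2 * s := by linarith
  have hsub : UU d' ⊆ UU d := UU_mono hd
  have hsgE : HE (UU d') δ s fun e => sg r (lam e) (X e) :=
    (hD.hsg hp (isOpen_UU d)).mono hsub (by linarith) h2s
  have hQE : HE (UU d') (5 / 4 * δ) s fun e θ t => Pm r (lam e) (X e) θ t * p1 (X e) θ t :=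
    ((hD.hPm hp (isOpen_UU d)).mono hsub le_rfl h2s).mul
      ((HE.hp1 (isOpen_UU d) hD.XH).mono hsub (by linarith) h2s)
  have key : ∀ l : ℤ, ∃ bl hh : ℂ → ℂ → ℂ, l ≠ 0 → |l| ≤ (K : ℤ) →
      (HT (UU d') s hh ∧
        (∀ e ∈ UU d', ∀ t ∈ UU s, cf l (sg r (lam e) (X e)) t = bl e t + hh e t * dl r l t) ∧
        ∀ e ∈ UU d', ∀ t ∈ UU s, ‖bl e t‖ ≤ (K + 2) * Real.exp (Real.pi * K * r * s) * A) := by
    intro l
    by_cases hl0 : l ≠ 0 ∧ |l| ≤ (K : ℤ)
    · obtain ⟨bl, hh, h1, h2, h3, h4⟩ := interpE (isOpen_UU d')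
        (HE.hcf (isOpen_UU d') hsgE hδ l) hs hs8 hr hr1 hl0.1
      refine ⟨bl, hh, fun _ _ => ⟨h2, h3, fun e he t ht =>
        (h4 e he A hA0 (hA e he l hl0.1 hl0.2) t ht).trans ?_⟩⟩
      have hlK : |(l : ℝ)| ≤ K := by exact_mod_cast hl0.2
      have h5 : Real.pi * |(l : ℝ)| * r * s ≤ Real.pi * K * r * s := by
        have := Real.pi_pos
        gcongr
      have h6 : Real.exp (Real.pi * |(l : ℝ)| * r * s) ≤ Real.exp (Real.pi * K * r * s) :=
        Real.exp_le_exp.2 h5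
      gcongr
    · exact ⟨0, 0, fun h1 h2 => absurd ⟨h1, h2⟩ hl0⟩
  choose bl hh hbh using key
  have hcd : ∀ l ∈ eomS K, HT (UU d') s fun e => eomC r (lam e) (X e) (fun l => hh l e) l := by
    intro l hl'
    obtain ⟨h1, h2⟩ := (eom_mem l).1 hl'
    exact ((HE.hcf (isOpen_UU d') hQE (by linarith) l).add (hbh l h1 h2).1).div_const _
  set w₀ : ℂ → ℂ → ℂ → ℂ := fun e θ t => ∑ l ∈ eomS K,
    eomC r (lam e) (X e) (fun l => hh l e) l t * exp (2 * Real.pi * I * l * θ) with hw₀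
  have hw₀h : ∀ δ' : ℝ, HE (UU d') δ' s w₀ := fun δ' =>
    HE.sum fun l hl => (HE.of_HT (hcd l hl)).mul (HE.of_Hol (eom_hol_exp l δ' s))
  have hw₀p : ∀ e, Per (w₀ e) := fun e => eom_per_trig _ _
  have hest : ∀ e ∈ UU d', Bd (δ / 16) s (2 * K * ((K + 2) * Real.exp (Real.pi * K * r * s) * A) *
        Real.exp (2 * Real.pi * K * (δ / 16)) +
        5 * Real.exp (-(2 * Real.pi * K * (δ - δ / 16))) / (δ - δ / 16))
        (Zf r (lam e) (X e) (w₀ e)) := by
    intro e he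
    refine eom_est (bl := fun l => bl l e) (hh := fun l => hh l e) hp (hD.lc e (hsub he))
      (hD.sc e (hsub he)) (hD.err e (hsub he)) hA0 fun l hl0 hlK => ?_
    obtain ⟨h1, h2, h3⟩ := hbh l hl0 hlK
    exact ⟨h1.slice he, h2 e he, h3 e he⟩
  refine ⟨fun e θ t => (w₀ e θ t + rf (w₀ (conj e)) θ t) / 2, ?_, ?_, ?_, ?_⟩
  · intro δ'
    exact ((hw₀h δ').add (HE.refl (fun e he => conj_mem_UU he) (isOpen_UU d') (hw₀h δ'))).div
      (HE.of_Hol (hol_const 2)) fun _ _ _ _ _ _ => two_ne_zero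
  · intro e θ t
    have h1 : rf (w₀ (conj e)) (θ + 1) t = rf (w₀ (conj e)) θ t := by
      unfold rf
      rw [map_add, map_one, hw₀p]
    change (w₀ e (θ + 1) t + rf (w₀ (conj e)) (θ + 1) t) / 2 =
      (w₀ e θ t + rf (w₀ (conj e)) θ t) / 2
    rw [h1, hw₀p]
  · intro e
    funext θ t
    change (w₀ (conj e) θ t + rf (w₀ (conj (conj e))) θ t) / 2 =
      conj ((w₀ e (conj θ) (conj t) + rf (w₀ (conj e)) (conj θ) (conj t)) / 2)
    unfold rf
    simp only [Complex.conj_conj, map_div₀, map_add, map_ofNat]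
    rw [add_comm]
  · intro e he θ t hθ ht
    have e1 : lam e = rf (lam (conj e)) := by
      have := hD.lamR (conj e)
      rwa [Complex.conj_conj] at this
    have e2 : X e = rf (X (conj e)) := by
      have := hD.XR (conj e)
      rwa [Complex.conj_conj] at this
    have hZ' : Zf r (lam e) (X e) (rf (w₀ (conj e))) θ t =
        conj (Zf r (lam (conj e)) (X (conj e)) (w₀ (conj e)) (conj θ) (conj t)) := by
      have h1 := congrFun (congrFun (rf_Zf r (lam (conj e)) (X (conj e)) (w₀ (conj e))) θ) t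
      rw [← e1, ← e2] at h1
      exact h1
    rw [eom_affine, hZ', norm_div, Complex.norm_ofNat]
    have h1 := hest e he θ t hθ ht
    have h2 := hest (conj e) (conj_mem_UU he) (conj θ) (conj t) (by simpa using hθ)
      (conj_mem_UU ht)
    have h3 := norm_add_le (Zf r (lam e) (X e) (w₀ e) θ t)
      (conj (Zf r (lam (conj e)) (X (conj e)) (w₀ (conj e)) (conj θ) (conj t)))
    rw [RCLike.norm_conj] at h3
    rw [div_le_iff₀ (by norm_num)]
    linarith

end Pool.Agent.DC
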