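import Pool.Agent.DC.EBas
import Pool.Agent.NOne.KSh

/-!
# MP_74f563_an, n = 2, engine with parameter, file EShi: shifts, compositions

PROOFS.  `HE.hsh`: `sh r (F e) θ t = F e (θ + r (1 + t)) t` is the composition of the jointly
holomorphic function with the holomorphic map `(e, θ, t) ↦ (e, θ + r (1 + t), t)`, which maps
`V ×ˢ Om δ' s` into `V ×ˢ Om δ s` by `shift_im_lt` (`NOne/KDom`); in the same way `sm` with
`shift_im_lt'`.  `DD r (F e) = (sh r (F e) - F e) / r`.  `HE.hcmp`: `cmp r (G e) (X e) θ t =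
G e (X e θ t) (DD r (X e) θ t)` is the composition of `G` (holomorphic on `V ×ˢ DL σ ρ`) with
`(e, θ, t) ↦ (e, X e θ t, DD r (X e) θ t)`.
-/

set_option autoImplicit false

namespace Pool.Agent.DC

open Pool.Agent.NOne Complex Set MeasureTheory
open scoped ComplexConjugate

variable {V : Set ℂ} {δ δ' s σ ρ r : ℝ} {F G X : ℂ → ℂ → ℂ → ℂ}

theorem HE.hsh (hF : HE V δ s F) (hr : 0 ≤ r) (h : δ' + r * s ≤ δ) :
    HE V δ' s fun e => sh r (F e) := by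
  have h1 : DifferentiableOn ℂ
      (fun q : ℂ × ℂ × ℂ => (q.1, q.2.1 + r * (1 + q.2.2), q.2.2)) (V ×ˢ Om δ' s) := by
    apply Differentiable.differentiableOn
    fun_prop
  exact DifferentiableOn.comp (g := fun q : ℂ × ℂ × ℂ => F q.1 q.2.1 q.2.2) hF h1
    fun q hq => ⟨hq.1, shift_im_lt hr hq.2.1 hq.2.2 h, hq.2.2⟩

theorem HE.hsm (hF : HE V δ s F) (hr : 0 ≤ r) (h : δ' + r * s ≤ δ) :
    HE V δ' s fun e => sm r (F e) := by
  have h1 : DifferentiableOn ℂ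
      (fun q : ℂ × ℂ × ℂ => (q.1, q.2.1 - r * (1 + q.2.2), q.2.2)) (V ×ˢ Om δ' s) := by
    apply Differentiable.differentiableOn
    fun_prop
  exact DifferentiableOn.comp (g := fun q : ℂ × ℂ × ℂ => F q.1 q.2.1 q.2.2) hF h1
    fun q hq => ⟨hq.1, shift_im_lt' hr hq.2.1 hq.2.2 h, hq.2.2⟩

theorem HE.hDD (hF : HE V δ s F) (hr : 0 < r) (hs : 0 ≤ s) (h : δ' + r * s ≤ δ) :
    HE V δ' s fun e => DD r (F e) := by
  have h0 : δ' ≤ δ := by nlinarith
  have h1 := (hF.hsh hr.le h).sub (hF.mono (Subset.refl V) h0 le_rfl)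
  refine (DifferentiableOn.const_mul h1 ((r : ℂ)⁻¹)).congr fun q _ => ?_
  simp only [DD, sh, div_eq_inv_mul]

theorem HE.hcmp (hX : HE V δ s X) (hG : HG V σ ρ G) (hr : 0 < r) (hs : 0 ≤ s)
    (h : δ' + r * s ≤ δ)
    (hm : ∀ e ∈ V, ∀ θ t : ℂ, |θ.im| < δ' → t ∈ UU s →
      |(X e θ t).im| < σ ∧ ‖DD r (X e) θ t‖ < ρ) :
    HE V δ' s fun e => NOne.cmp r (G e) (X e) := by
  have h0 : δ' ≤ δ := by nlinarith
  have h1 := hX.mono (Subset.refl V) h0 le_rfl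
  have h2 := hX.hDD hr hs h
  have h3 : DifferentiableOn ℂ
      (fun q : ℂ × ℂ × ℂ => (q.1, X q.1 q.2.1 q.2.2, DD r (X q.1) q.2.1 q.2.2))
      (V ×ˢ Om δ' s) :=
    DifferentiableOn.prodMk differentiableOn_fst (DifferentiableOn.prodMk h1 h2)
  exact DifferentiableOn.comp (g := fun q : ℂ × ℂ × ℂ => G q.1 q.2.1 q.2.2) hG h3
    fun q hq => ⟨hq.1, hm _ hq.1 _ _ hq.2.1 hq.2.2⟩

end Pool.Agent.DC
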